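import Pool.Agent.Work.MP_0f6836_lc.UB.EGB

/-!
# Block SG: `C_∞ ∩ Ω_1` is an initial segment
-/

namespace Kriz

open Ordinal

theorem sg_kappa_not_mem : kappa ∉ C (Lam ^ (ω : Ordinal.{0})) 0 := by
  obtain ⟨a, -, ha⟩ := exists_not_mem
  exact csInf_mem (s := {a | a ∉ C (Lam ^ (ω : Ordinal.{0})) 0}) ⟨a, ha⟩

theorem sg_principal : IsPrincipal (· + ·) kappa := by
  intro a b ha hb
  by_contra hne
  have hle : kappa ≤ a + b := not_lt.1 hne
  have h1 : a + (kappa - a) = kappa := Ordinal.add_sub_cancel_of_le ha.le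
  have h2 : kappa - a ≤ b := Ordinal.sub_le.2 hle
  apply sg_kappa_not_mem
  rw [← h1]
  exact C.add (mem_of_lt_kappa ha) (mem_of_lt_kappa (h2.trans_lt hb))

theorem sg_pos : 0 < kappa := by
  rw [pos_iff_ne_zero]
  intro h
  have h1 := sg_kappa_not_mem
  rw [h] at h1
  exact h1 C.zero

/-- transfer along components -/
theorem sg_BG {B A ζ : Ordinal.{0}} {G : Set Ordinal.{0}}
    (hG : ∀ π ∈ G, Pr π ∧ π < Lam) (hG' : ∀ π ∈ G, π ∈ C B 0 → π ∈ C A ζ)
    {b : Ordinal.{0}} (hb : BG G b) (h : b ∈ C B 0) : b ∈ C A ζ := by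
  induction b using WellFoundedLT.induction with
  | ind b ih =>
    by_cases h0 : b = 0
    · subst h0
      exact C.zero
    · obtain ⟨π, x, hπ, hπ0, hx, -, he, hlt, hle⟩ := exists_lead h0
      obtain ⟨h1, h2⟩ := BG_lead hG hb π x ⟨hπ, hπ0⟩ hx he
      obtain ⟨h3, h4⟩ := S2 (β := B) (ζ := 0) zero_le hπ hπ0 (hG π h1).2 hx (he ▸ h)
      rw [he]
      exact C.add (hG' π h1 h3) (ih x hlt h2 h4)

theorem sg_EG {B A ζ : Ordinal.{0}} {G : Set Ordinal.{0}}
    (hG : ∀ π ∈ G, Pr π ∧ π < Lam) (hG' : ∀ π ∈ G, π ∈ C B 0 → π ∈ C A ζ)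
    {b : Ordinal.{0}} (hb : EG G b) (h : b ∈ C B 0) : b ∈ C A ζ := by
  induction hb with
  | zero => exact C.zero
  | @step a b ha hb ih =>
    obtain ⟨h1, h2⟩ := S1 (β := B) (ζ := 0) zero_le (eg_BG_lt hG hb) h
    exact C.add (C.mul (ih h1)) (sg_BG hG hG' hb h2)

theorem sg_sub {δ : Ordinal.{0}} (hδ : δ < Lam ^ (ω : Ordinal.{0})) {y : Ordinal.{0}}
    (hy : y ∈ C δ kappa) : y ∈ C (Lam ^ (ω : Ordinal.{0})) 0 := by
  refine C.induct (P := fun y => y ∈ C (Lam ^ (ω : Ordinal.{0})) 0) C.zero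
    (fun ξ hξ => mem_of_lt_kappa hξ) (fun a b _ _ ha hb => C.add ha hb)
    (fun a _ ha => C.mul ha) (fun ε w hε _ ih => C.coll w (hε.trans hδ) ih) hy

theorem lt_kappa {x : Ordinal.{0}} (hx : x ∈ C (Lam ^ (ω : Ordinal.{0})) 0) (h1 : x < Om 1) :
    x < kappa := by
  induction x using WellFoundedLT.induction with
  | ind x ih =>
    by_contra hne
    have hle : kappa ≤ x := not_lt.1 hne
    have hlt : kappa < x := lt_of_le_of_ne hle (fun h => sg_kappa_not_mem (h ▸ hx))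
    have h0 : x ≠ 0 := (sg_pos.trans hlt).ne'
    obtain ⟨π, y, hπ, hπ0, hy, -, he, hyx, hπx⟩ := exists_lead h0
    have hxL : x < Lam := h1.trans (Om_lt_Lam 1)
    obtain ⟨h2, h3⟩ := S2 (β := Lam ^ (ω : Ordinal.{0})) (ζ := 0) zero_le hπ hπ0
      (hπx.trans_lt hxL) hy (he ▸ hx)
    have hπκ : ¬ π < kappa := by
      intro h4
      apply hne
      rw [he]
      exact sg_principal h4 (hy _ sg_principal h4)
    have hπe : π = x := by
      by_contra hne'
      exact hπκ (ih π (lt_of_le_of_ne hπx hne') h2 (hπx.trans_lt h1))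
    subst hπe
    obtain ⟨h5, -⟩ := Bset_lead (Bset_of_mem zero_le hxL hx) π 0 hπ hπ0 (below_zero _)
      (add_zero _).symm
    rcases h5.2.2.2.2 with h6 | ⟨w, δ, hv, hδ, hm, hth⟩
    · exact absurd h6 (not_lt_of_ge zero_le)
    have hw : w = 0 := by
      by_contra hw
      have h7 : Om 1 ≤ theta δ w := (Om_le_Om (Nat.one_le_iff_ne_zero.2 hw)).trans (Om_le_theta hv)
      rw [← hth] at h7
      exact absurd h1 (not_lt_of_ge h7)
    subst hw
    have hmem : ∀ y, y ∈ C (Lam ^ (ω : Ordinal.{0})) 0 → y < π → y < kappa := fun y hy hyπ =>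
      ih y hyπ hy (hyπ.trans h1)
    have hc : kappa ∈ cand 0 δ (fun δ _ w => theta δ w) := by
      refine ⟨?_, ?_, ?_, ?_⟩
      · rw [Om_zero]; exact Order.one_le_iff_pos.2 sg_pos
      · exact kappa_lt
      · have hδx : δ ∈ C δ (theta δ 0) := mem_C_theta hv
        let G : Set Ordinal.{0} := {ρ | (Pr ρ ∧ ρ < Lam) ∧
          (ρ ∈ C (Lam ^ (ω : Ordinal.{0})) 0 → ρ ∈ C δ kappa)}
        have hG : ∀ ρ ∈ G, Pr ρ ∧ ρ < Lam := fun ρ h => h.1
        have hG' : ∀ ρ ∈ G, ρ ∈ C (Lam ^ (ω : Ordinal.{0})) 0 → ρ ∈ C δ kappa :=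
          fun ρ h => h.2
        refine sg_EG hG hG' (C_comp_induct (A := δ) (ζ := theta δ 0) theta_lt_Lam.le hG ?_ ?_
          hδx) hm
        · intro ρ hρ hρlt
          exact ⟨⟨hρ, hρlt.trans theta_lt_Lam⟩, fun h => C.base (hmem ρ h (hth ▸ hρlt))⟩
        · intro ε v hv' hε hεm hE
          refine ⟨⟨⟨theta_principal, theta_pos hv'⟩, theta_lt_Lam⟩, fun h => ?_⟩
          obtain ⟨h8, -⟩ := S3 zero_le hv' h zero_le
          exact C.coll v hε (sg_EG hG hG' hE h8)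
      · intro ξ hξ hξ1
        have h9 : ξ ∈ C (Lam ^ (ω : Ordinal.{0})) 0 := sg_sub hδ hξ
        have h10 : ξ ∈ C δ (theta δ 0) := C_mono le_rfl (hth ▸ hle) hξ
        exact hmem ξ h9 (hth ▸ lt_theta_of_mem hv h10 hξ1)
    have h11 : theta δ 0 ≤ kappa := by
      rw [theta_eq]; exact csInf_le' hc
    rw [← hth] at h11
    exact absurd hlt (not_lt_of_ge h11)

end Kriz
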