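import Pool.Agent.Work.MP_0f6836_lc.UB.UDefs

/-!
# Block VA: validity by cardinality (helper39)
-/

set_option autoImplicit false

namespace Kriz

open Ordinal Cardinal

/-- arities of the shapes: parameters, `0`, `+`, `Λ *`, the collapsing functions -/
def VAar (T : Type) : T ⊕ ℕ → Type
  | Sum.inl _ => Empty
  | Sum.inr 0 => Empty
  | Sum.inr 1 => Bool
  | Sum.inr _ => Unit

theorem VAar_finite (T : Type) (a : T ⊕ ℕ) : Finite (VAar T a) := by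
  rcases a with a | a
  · exact inferInstanceAs (Finite Empty)
  · rcases a with _ | _ | a
    · exact inferInstanceAs (Finite Empty)
    · exact inferInstanceAs (Finite Bool)
    · exact inferInstanceAs (Finite Unit)

/-- values of the terms -/
noncomputable def VAev (T : Type) (p : T → Ordinal.{0}) : WType (VAar T) → Ordinal.{0}
  | ⟨Sum.inl t, _⟩ => p t
  | ⟨Sum.inr 0, _⟩ => 0
  | ⟨Sum.inr 1, f⟩ => VAev T p (f true) + VAev T p (f false)
  | ⟨Sum.inr 2, f⟩ => Lam * VAev T p (f ())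
  | ⟨Sum.inr (w + 3), f⟩ => theta (VAev T p (f ())) w

theorem VA_surj {α ζ : Ordinal.{0}} (T : Type) (p : T → Ordinal.{0})
    (hp : ∀ ξ < ζ, ∃ t, p t = ξ) {x : Ordinal.{0}} (hx : x ∈ C α ζ) : ∃ t, VAev T p t = x := by
  refine C.induct (P := fun x => ∃ t, VAev T p t = x) ?_ ?_ ?_ ?_ ?_ hx
  · exact ⟨⟨Sum.inr 0, fun e => Empty.elim e⟩, by rw [VAev]⟩
  · intro ξ hξ
    obtain ⟨t, ht⟩ := hp ξ hξ
    exact ⟨⟨Sum.inl t, fun e => Empty.elim e⟩, by rw [VAev, ht]⟩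
  · rintro a b - - ⟨s, hs⟩ ⟨t, ht⟩
    exact ⟨⟨Sum.inr 1, fun e => Bool.rec t s e⟩, by rw [VAev]; simp only [hs, ht]⟩
  · rintro a - ⟨s, hs⟩
    exact ⟨⟨Sum.inr 2, fun _ => s⟩, by rw [VAev, hs]⟩
  · rintro δ w - - ⟨s, hs⟩
    exact ⟨⟨Sum.inr (w + 3), fun _ => s⟩, by rw [VAev, hs]⟩

theorem cof_Om (v : ℕ) : (Om (v + 1)).cof = ℵ_ ((v : Ordinal.{0}) + 1) := by
  rw [Om_succ]
  push_cast
  exact cof_omega_add_one _

theorem add_one_lt_Om {v : ℕ} {x : Ordinal.{0}} (h : x < Om (v + 1)) : x + 1 < Om (v + 1) := by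
  apply Om_principal (v + 1) h
  exact lt_of_le_of_lt (by rw [← Om_zero]; exact Om_le_Om (Nat.zero_le v)) (Om_lt_Om (Nat.lt_succ_self v))

theorem VA_bound {v : ℕ} {α ζ : Ordinal.{0}} (hζ : ζ < Om (v + 1)) :
    ∃ η < Om (v + 1), ∀ x ∈ C α ζ, x < Om (v + 1) → x < η := by
  classical
  set T := ζ.ToType with hT
  set p : T → Ordinal.{0} := fun t => (Ordinal.ToType.toOrd t : Ordinal.{0}) with hpdef
  have hp : ∀ ξ < ζ, ∃ t, p t = ξ := by
    intro ξ hξ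
    exact ⟨Ordinal.ToType.mk ⟨ξ, hξ⟩, by rw [hpdef]; simp⟩
  have hfin : ∀ a, Finite (VAar T a) := VAar_finite T
  have hc1 : #(WType (VAar T)) ≤ max #(T ⊕ ℕ) ℵ₀ := WType.cardinalMk_le_max_aleph0_of_finite
  have hℵ : ℵ₀ < ℵ_ ((v : Ordinal.{0}) + 1) := by
    rw [← aleph_zero, aleph_lt_aleph]
    exact lt_of_le_of_lt zero_le (lt_add_one _)
  have hT1 : #T < ℵ_ ((v : Ordinal.{0}) + 1) := by
    rw [hT, mk_toType]
    rw [Om_succ] at hζ
    push_cast at hζ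
    exact lt_omega_iff_card_lt.1 hζ
  have hc2 : #(WType (VAar T)) < (Om (v + 1)).cof := by
    rw [cof_Om]
    refine hc1.trans_lt (max_lt ?_ hℵ)
    rw [mk_sum]
    simp only [Cardinal.lift_id, mk_nat]
    exact add_lt_of_lt hℵ.le hT1 hℵ
  refine ⟨⨆ t : WType (VAar T), (if VAev T p t < Om (v + 1) then VAev T p t + 1 else 0), ?_, ?_⟩
  · apply iSup_lt_of_lt_cof hc2
    intro t
    split_ifs with h
    · exact add_one_lt_Om h
    · exact Om_pos _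
  · intro x hx hxv
    obtain ⟨t, ht⟩ := VA_surj T p hp hx
    have h1 := Ordinal.le_iSup (fun t : WType (VAar T) =>
      (if VAev T p t < Om (v + 1) then VAev T p t + 1 else 0)) t
    rw [ht, if_pos hxv] at h1
    exact (lt_add_one x).trans_le h1

theorem exists_closed {v : ℕ} {α ξ : Ordinal.{0}} (hξ : ξ < Om (v + 1)) :
    ∃ ζ, ξ < ζ ∧ Om v ≤ ζ ∧ ζ < Om (v + 1) ∧ ∀ x ∈ C α ζ, x < Om (v + 1) → x < ζ := by
  have hb : ∀ ζ : Ordinal.{0}, ∃ η, ζ ≤ η ∧ (ζ < Om (v + 1) → η < Om (v + 1) ∧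
      ∀ x ∈ C α ζ, x < Om (v + 1) → x < η) := by
    intro ζ
    by_cases h : ζ < Om (v + 1)
    · obtain ⟨η, h1, h2⟩ := VA_bound (α := α) h
      exact ⟨max ζ η, le_max_left _ _, fun _ => ⟨max_lt h h1, fun x hx hxv =>
        (h2 x hx hxv).trans_le (le_max_right _ _)⟩⟩
    · exact ⟨ζ, le_rfl, fun h' => absurd h' h⟩
  choose nx hnx1 hnx2 using hb
  set z : ℕ → Ordinal.{0} := fun n => Nat.rec (max (ξ + 1) (Om v)) (fun _ y => nx y) n with hz
  have hz0 : z 0 = max (ξ + 1) (Om v) := rfl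
  have hzs : ∀ n, z (n + 1) = nx (z n) := fun n => rfl
  have hzlt : ∀ n, z n < Om (v + 1) := by
    intro n
    induction n with
    | zero => rw [hz0]; exact max_lt (add_one_lt_Om hξ) (Om_lt_Om (Nat.lt_succ_self v))
    | succ n ih => rw [hzs]; exact (hnx2 (z n) ih).1
  have hzm : Monotone z := monotone_nat_of_le_succ fun n => by rw [hzs]; exact hnx1 _
  have hle : ∀ n, z n ≤ ⨆ n, z n := fun n => Ordinal.le_iSup z n
  have hℵ : #ℕ < (Om (v + 1)).cof := by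
    rw [cof_Om, mk_nat, ← aleph_zero, aleph_lt_aleph]
    exact lt_of_le_of_lt zero_le (lt_add_one _)
  have hfin : ∀ x ∈ C α (⨆ n, z n), ∃ n, x ∈ C α (z n) := by
    intro x hx
    refine C.induct (P := fun x => ∃ n, x ∈ C α (z n)) ⟨0, C.zero⟩ ?_ ?_ ?_ ?_ hx
    · intro y hy
      obtain ⟨n, hn⟩ := (Ordinal.lt_iSup_iff).1 hy
      exact ⟨n, C.base hn⟩
    · rintro a b - - ⟨n, hn⟩ ⟨m, hm⟩
      exact ⟨max n m, C.add (C_mono le_rfl (hzm (le_max_left n m)) hn)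
        (C_mono le_rfl (hzm (le_max_right n m)) hm)⟩
    · rintro a - ⟨n, hn⟩
      exact ⟨n, C.mul hn⟩
    · rintro δ w hδ - ⟨n, hn⟩
      exact ⟨n, C.coll w hδ hn⟩
  refine ⟨⨆ n, z n, ?_, ?_, ?_, ?_⟩
  · exact ((lt_add_one ξ).trans_le (by rw [hz0]; exact le_max_left _ _)).trans_le (hle 0)
  · exact (show Om v ≤ z 0 by rw [hz0]; exact le_max_right _ _).trans (hle 0)
  · exact iSup_lt_of_lt_cof hℵ hzlt
  · intro x hx hxv
    obtain ⟨n, hn⟩ := hfin x hx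
    exact ((hnx2 (z n) (hzlt n)).2 x hn hxv).trans_le (by rw [← hzs]; exact hle (n + 1))

theorem valid_of_mem {v : ℕ} {α : Ordinal.{0}} (h : α ∈ C α (Om (v + 1))) : Valid v α := by
  have h1 : ∃ ξ < Om (v + 1), α ∈ C α ξ := by
    refine C.induct (P := fun x => ∃ ξ < Om (v + 1), x ∈ C α ξ) ⟨0, Om_pos _, C.zero⟩ ?_ ?_ ?_ ?_ h
    · intro y hy
      exact ⟨y + 1, add_one_lt_Om hy, C.base (lt_add_one y)⟩
    · rintro a b - - ⟨n, hn0, hn⟩ ⟨m, hm0, hm⟩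
      exact ⟨max n m, max_lt hn0 hm0, C.add (C_mono le_rfl (le_max_left n m) hn)
        (C_mono le_rfl (le_max_right n m) hm)⟩
    · rintro a - ⟨n, hn0, hn⟩
      exact ⟨n, hn0, C.mul hn⟩
    · rintro δ w hδ - ⟨n, hn0, hn⟩
      exact ⟨n, hn0, C.coll w hδ hn⟩
  obtain ⟨ξ, hξ, hα⟩ := h1
  obtain ⟨ζ, h2, h3, h4, h5⟩ := exists_closed (α := α) hξ
  exact ⟨ζ, h3, h4, C_mono le_rfl h2.le hα, h5⟩

end Kriz
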