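import Mathlib

/-!
# Block LX: existence of a maximal linear extension
-/

namespace Kriz

theorem exists_linear_aux {X : Type} {le P : X → X → Prop}
    (hr : ∀ x, P x x) (ht : ∀ x y z, P x y → P y z → P x z)
    (hle : ∀ x y, le x y → P x y) (hanti : ∀ x y, P x y → P y x → le x y)
    (hw : ∀ f : ℕ → X, ∃ m n, m < n ∧ le (f m) (f n)) :
    ∃ r : X → Ordinal.{0}, ∃ γ : Ordinal.{0}, (∀ x y, P x y → r x ≤ r y) ∧
      (∀ x y, r x = r y → le x y) ∧ Set.range r = Set.Iio γ := by
  classical
  letI pre : Preorder X := { le := P, le_refl := hr, le_trans := ht }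
  have hP : ∀ x y : X, x ≤ y ↔ P x y := fun _ _ => Iff.rfl
  let q : X → LinearExtension (Antisymmetrization X (· ≤ ·)) :=
    fun x => toLinearExtension (toAntisymmetrization (· ≤ ·) x)
  have hqmono : ∀ x y, P x y → q x ≤ q y := by
    intro x y hxy
    exact toLinearExtension.monotone
      (toAntisymmetrization_le_toAntisymmetrization_iff.2 ((hP x y).2 hxy))
  have hqsurj : Function.Surjective q := by
    intro z
    obtain ⟨x, hx⟩ := Quotient.exists_rep (s := AntisymmRel.setoid X (· ≤ ·)) z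
    exact ⟨x, hx⟩
  have hqeq : ∀ x y, q x = q y → le x y := by
    intro x y hxy
    have h1 : toAntisymmetrization (· ≤ ·) x = toAntisymmetrization (· ≤ ·) y := hxy
    have h2 : P x y := (hP x y).1 (toAntisymmetrization_le_toAntisymmetrization_iff.1 h1.le)
    have h3 : P y x := (hP y x).1 (toAntisymmetrization_le_toAntisymmetrization_iff.1 h1.ge)
    exact hanti x y h2 h3
  have hwf : WellFounded
      ((· < ·) : LinearExtension (Antisymmetrization X (· ≤ ·)) →
        LinearExtension (Antisymmetrization X (· ≤ ·)) → Prop) := by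
    rw [RelEmbedding.wellFounded_iff_isEmpty]
    refine ⟨fun e => ?_⟩
    choose s hs using hqsurj
    obtain ⟨m, n, hmn, hle'⟩ := hw (fun k => s (e k))
    have h1 : e n < e m := e.map_rel_iff.2 hmn
    have h2 : e m ≤ e n := by
      rw [← hs (e m), ← hs (e n)]
      exact hqmono _ _ (hle _ _ hle')
    exact absurd h1 (not_lt.2 h2)
  haveI : IsWellOrder (LinearExtension (Antisymmetrization X (· ≤ ·))) (· < ·) :=
    { wf := hwf }
  refine ⟨fun x => Ordinal.typein (· < ·) (q x), Ordinal.type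
    ((· < ·) : LinearExtension (Antisymmetrization X (· ≤ ·)) →
      LinearExtension (Antisymmetrization X (· ≤ ·)) → Prop), ?_, ?_, ?_⟩
  · intro x y hxy
    exact (Ordinal.typein_le_typein (· < ·)).2 (not_lt.2 (hqmono x y hxy))
  · intro x y hxy
    exact hqeq x y (Ordinal.typein_injective (· < ·) hxy)
  · ext o
    constructor
    · rintro ⟨x, rfl⟩
      exact Ordinal.typein_lt_type (· < ·) (q x)
    · intro ho
      obtain ⟨z, hz⟩ := Ordinal.typein_surj (· < ·) ho
      obtain ⟨x, rfl⟩ := hqsurj z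
      exact ⟨x, hz⟩

/-- If `κ` is the greatest ordinal with a reflecting map into the well quasiordering `(X, le)`
then some linear extension of `le` has order type `κ`. -/
theorem exists_linear {X : Type} {le : X → X → Prop} (hr : ∀ x, le x x)
    (ht : ∀ x y z, le x y → le y z → le x z) (hw : ∀ f : ℕ → X, ∃ m n, m < n ∧ le (f m) (f n))
    {κ : Ordinal.{0}} (g : {a : Ordinal.{0} // a < κ} → X) (hg : ∀ a b, le (g a) (g b) → a ≤ b)
    (hub : ∀ γ : Ordinal.{0}, (∃ g : {a : Ordinal.{0} // a < γ} → X,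
      ∀ a b, le (g a) (g b) → a ≤ b) → γ ≤ κ) :
    ∃ r : X → Ordinal.{0}, (∀ x y, le x y → r x ≤ r y) ∧ (∀ x y, r x = r y → le x y) ∧
      Set.range r = Set.Iio κ := by
  classical
  obtain ⟨r, γ, h1, h2, h3⟩ := exists_linear_aux (le := le)
    (P := fun x y => le x y ∨ ∃ a b : {a : Ordinal.{0} // a < κ},
      a ≤ b ∧ le x (g a) ∧ le (g b) y)
    (fun x => Or.inl (hr x))
    (by
      rintro x y z (h | ⟨a, b, hab, h, h'⟩) (k | ⟨c, d, hcd, k, k'⟩)
      · exact Or.inl (ht _ _ _ h k)
      · exact Or.inr ⟨c, d, hcd, ht _ _ _ h k, k'⟩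
      · exact Or.inr ⟨a, b, hab, h, ht _ _ _ h' k⟩
      · exact Or.inr ⟨a, d, hab.trans ((hg _ _ (ht _ _ _ h' k)).trans hcd), h, k'⟩)
    (fun x y h => Or.inl h)
    (by
      rintro x y (h | ⟨a, b, hab, h, h'⟩) (k | ⟨c, d, hcd, k, k'⟩)
      · exact h
      · exact h
      · have e : b = a := le_antisymm (hg _ _ (ht _ _ _ h' (ht _ _ _ k h))) hab
        subst e
        exact ht _ _ _ h h'
      · have e1 : b ≤ c := hg _ _ (ht _ _ _ h' k)
        have e2 : d ≤ a := hg _ _ (ht _ _ _ k' h)
        have e : b = a := le_antisymm (e1.trans (hcd.trans e2)) hab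
        subst e
        exact ht _ _ _ h h') hw
  have hγ : γ ≤ κ := by
    refine hub γ ?_
    have hex : ∀ a : {a : Ordinal.{0} // a < γ}, ∃ x, r x = a.1 := by
      intro a
      have : a.1 ∈ Set.range r := by rw [h3]; exact a.2
      exact this
    choose s hs using hex
    refine ⟨s, fun a b hab => ?_⟩
    have h4 := h1 _ _ (Or.inl hab)
    rw [hs, hs] at h4
    exact h4
  have hκ : κ ≤ γ := by
    have hlt : ∀ a b : {a : Ordinal.{0} // a < κ}, a < b → r (g a) < r (g b) := by
      intro a b hab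
      refine lt_of_le_of_ne (h1 _ _ (Or.inr ⟨a, b, hab.le, hr _, hr _⟩)) ?_
      intro he
      exact absurd (hg _ _ (h2 _ _ he.symm)) (not_le.2 hab)
    have hge : ∀ (o : Ordinal.{0}) (ho : o < κ), o ≤ r (g ⟨o, ho⟩) := by
      intro o
      induction o using WellFoundedLT.induction with
      | ind o ih =>
        intro ho
        refine le_of_forall_lt (fun c hc => ?_)
        exact (ih c hc (hc.trans ho)).trans_lt (hlt ⟨c, hc.trans ho⟩ ⟨o, ho⟩ hc)
    refine le_of_forall_lt (fun c hc => ?_)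
    refine (hge c hc).trans_lt ?_
    have : r (g ⟨c, hc⟩) ∈ Set.Iio γ := by rw [← h3]; exact ⟨_, rfl⟩
    exact this
  have he : γ = κ := le_antisymm hγ hκ
  subst he
  exact ⟨r, fun x y h => h1 x y (Or.inl h), h2, h3⟩

end Kriz
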