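import Pool.Agent.Work.MP_0f6836_lc.UB.Ref5
import Pool.Agent.Work.MP_0f6836_lc.UB.LX

/-!
# The maximal order type of Kriz's quasiordering
-/

namespace Kriz

open Ordinal

theorem emb_refl : ∀ (n : ℕ) (t : KT), sizeOf t < n → ∀ l, Emb l t t
  | 0, _, h => absurd h (Nat.not_lt_zero _)
  | n + 1, t, h => fun l => Emb.of_at ⟨id, Function.injective_id, fun _ => le_rfl, fun i =>
      emb_refl n _ ((sizeOf_child (List.get_mem t.ch i)).trans_le (Nat.lt_succ_iff.1 h)) _⟩

theorem Emb.refl (l : ℕ) (t : KT) : Emb l t t := emb_refl _ t (Nat.lt_succ_self _) l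

theorem emb_trans : ∀ (n : ℕ) (u : KT), sizeOf u < n → ∀ l t s, Emb l t s → Emb l s u → Emb l t u
  | 0, _, h => absurd h (Nat.not_lt_zero _)
  | n + 1, u, h => by
    intro l t s h1 h2
    have hu : ∀ c ∈ u.ch, sizeOf c.2 < n := fun c hc =>
      (sizeOf_child hc).trans_le (Nat.lt_succ_iff.1 h)
    rcases emb_iff.1 h2 with h2 | ⟨m, c, hc, hm, h2⟩
    · rcases emb_iff.1 h1 with h1 | ⟨m, c, hc, hm, h1⟩
      · obtain ⟨σ, a1, a2, a3⟩ := h1
        obtain ⟨τ, b1, b2, b3⟩ := h2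
        refine Emb.of_at ⟨τ ∘ σ, b1.comp a1, fun i => (a2 i).trans (b2 _), fun i => ?_⟩
        exact emb_trans n _ (hu _ (List.get_mem u.ch _)) _ _ _ (a3 i) ((b3 _).mono (a2 i))
      · obtain ⟨m', d, hd, hm', h3⟩ := h2.mem hc
        exact Emb.of_child hd (hm.trans hm') (emb_trans n d (hu _ hd) l t c h1 (h3.mono hm))
    · exact Emb.of_child hc hm (emb_trans n c (hu _ hc) l t s h1 h2)

theorem Emb.trans {l : ℕ} {t s u : KT} (h1 : Emb l t s) (h2 : Emb l s u) : Emb l t u :=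
  emb_trans _ u (Nat.lt_succ_self _) l t s h1 h2

/-- `r` represents a linear extension of order type `γ` of Kriz's quasiordering: `r S` is the
position of (the equivalence class of) `S`. -/
def LTree.IsLin (γ : Ordinal.{0}) (r : LTree → Ordinal.{0}) : Prop :=
  (∀ S T : LTree, S.Le T → r S ≤ r T) ∧ (∀ S T : LTree, r S = r T → S.Le T) ∧
    Set.range r = Set.Iio γ

theorem exists_isLin : ∃ r, LTree.IsLin kappa r := by
  obtain ⟨g, hg⟩ := main
  have h1 : ∀ S : LTree, ∃ t, S.Unf S.root t := fun S => LTree.exists_unf _ _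
  choose d hd using h1
  have hpos : ∀ S, (d S).Pos := fun S => LTree.unf_pos (hd S)
  let X := {t : KT // t.Pos}
  obtain ⟨r, hr1, hr2, hr3⟩ := exists_linear (X := X) (le := fun x y => Emb 1 x.1 y.1)
    (fun x => Emb.refl 1 x.1) (fun x y z h h' => h.trans h')
    (fun f => wqo_emb (fun n => (f n).1) (fun n => (f n).2)) (κ := kappa)
    (fun a => ⟨d (g a), hpos _⟩) (fun a b h => hg a b (LTree.le_of_emb (hd _) (hd _) h))
    (fun γ ⟨g', hg'⟩ => le_kappa_emb (fun a => (g' a).1) (fun a => (g' a).2) hg')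
  refine ⟨fun S => r ⟨d S, hpos S⟩, fun S T h => hr1 _ _ (LTree.emb_of_le h (hd S) (hd T)),
    fun S T h => LTree.le_of_emb (hd S) (hd T) (hr2 _ _ h), ?_⟩
  rw [← hr3]
  ext o
  constructor
  · rintro ⟨S, rfl⟩
    exact ⟨_, rfl⟩
  · rintro ⟨x, rfl⟩
    obtain ⟨S, hS⟩ := exists_tree x.1 x.2
    refine ⟨S, ?_⟩
    have hrefl : S.Le S := LTree.le_of_emb (hd S) (hd S) (Emb.refl 1 _)
    exact le_antisymm (hr1 _ _ (LTree.emb_of_le hrefl (hd S) hS))
      (hr1 _ _ (LTree.emb_of_le hrefl hS (hd S)))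

/-- **Main theorem**: Kriz's quasiordering of the finite rooted trees with edges labelled by
positive integers is a well quasiordering, and its maximal order type is `κ`. -/
theorem main_max : (∀ f : ℕ → LTree, ∃ m n, m < n ∧ (f m).Le (f n)) ∧
    IsGreatest {γ : Ordinal.{0} | ∃ r, LTree.IsLin γ r} kappa := by
  refine ⟨wqo, exists_isLin, ?_⟩
  rintro γ ⟨r, hr1, hr2, hr3⟩
  have h1 : ∀ a : {a : Ordinal.{0} // a < γ}, ∃ S, r S = a.1 := by
    intro a
    have : a.1 ∈ Set.range r := by rw [hr3]; exact a.2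
    exact this
  choose g hg using h1
  refine le_kappa g (fun a b h => ?_)
  have := hr1 _ _ h
  rw [hg, hg] at this
  exact this

end Kriz
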