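import Pool.Agent.Work.MP_0f6836_lc.UB.PT

/-!
# Upper bound, block CH: good chains
-/

namespace Kriz

open Ordinal

theorem IG.ge {e : En} {D : List En} (h : IG (e :: D)) : GE e := by
  cases h with
  | mk h1 h2 hv hL hLb hM hMb _ _ _ _ => exact ⟨h1, h2, hv, hL, hLb, hM, hMb⟩

theorem IG.ne_nil {D : List En} (h : IG D) : D ≠ [] := by
  cases h with
  | mk => exact List.cons_ne_nil _ _

theorem GE.gs {e : En} (h : GE e) : GS e.n e.S := ⟨h.L, h.Lb, h.M, h.Mb⟩

theorem CH_T_pr {d : En} {D : List En} (h1 : 1 ≤ d.l) (hv : Valid (d.l - 1) (AA (d :: D))) :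
    Pr (T (d :: D)) ∧ Om (d.l - 1) ≤ T (d :: D) ∧ T (d :: D) < Om d.l := by
  rw [T_cons]
  refine ⟨⟨theta_principal, theta_pos hv⟩, Om_le_theta hv, ?_⟩
  have := theta_lt_Om (v := d.l - 1) (α := AA (d :: D))
  rwa [Nat.sub_add_cancel h1] at this

theorem CH_ps {n : ℕ} {S : List Pc} (hn : 1 ≤ n)
    (hL : ∀ π ∈ S, ∀ D ∈ π.L, Pr (T D) ∧ T D < Om n)
    (hM : ∀ π ∈ S, π.M ≠ [] → Pr (T π.M) ∧ T π.M < Om n) : PS n S := by
  intro π hπ x hx
  have h1 : Pr (1 : Ordinal.{0}) ∧ (1 : Ordinal.{0}) < Om n := by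
    refine ⟨⟨isPrincipal_add_one, zero_lt_one⟩, ?_⟩
    have := Om_lt_Om (v := 0) (w := n) (by omega)
    rwa [Om_zero] at this
  unfold prt at hx
  split_ifs at hx with hM0
  · rcases List.mem_cons.1 hx with rfl | hx
    · exact h1
    · obtain ⟨D, hD, rfl⟩ := List.mem_map.1 hx
      exact hL π hπ D hD
  · rcases List.mem_cons.1 hx with rfl | hx
    · exact h1
    rcases List.mem_cons.1 hx with rfl | hx
    · have := hM π hπ hM0
      exact ⟨G_pr (this.2.trans (Om_lt_Lam n)), G_lt_Om hn this.2⟩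
    · obtain ⟨D, hD, rfl⟩ := List.mem_map.1 hx
      exact hL π hπ D hD

theorem CH_valid {D : List En} (h : IG D) :
    ∀ d D', D = d :: D' → 1 ≤ d.l ∧ Valid (d.l - 1) (AA D) := by
  induction h with
  | @mk e D h1 h2 hv hL hLb hM hMb hD hD0 hs hA ihL ihM ihD =>
    intro d D' hdD
    obtain ⟨rfl, rfl⟩ := List.cons.inj hdD
    refine ⟨h1, ?_⟩
    have hn : 1 ≤ e.n := h1.trans h2
    have key : ∀ D' : List En, IG D' → (∀ d D'', D' = d :: D'' → 1 ≤ d.l ∧
        Valid (d.l - 1) (AA D')) → (∀ d ∈ D'.head?, d.l ≤ e.n) →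
        Pr (T D') ∧ T D' < Om e.n := by
      intro D' hIG hval hhd
      cases D' with
      | nil => exact absurd rfl hIG.ne_nil
      | cons d D'' =>
        obtain ⟨hd1, hdv⟩ := hval d D'' rfl
        obtain ⟨h3, -, h4⟩ := CH_T_pr hd1 hdv
        exact ⟨h3, h4.trans_le (Om_le_Om (hhd d rfl))⟩
    have hPS : PS e.n e.S := CH_ps hn
      (fun π hπ D' hD' => key D' (hL π hπ D' hD') (ihL π hπ D' hD') (hLb π hπ D' hD'))
      (fun π hπ hne => key π.M (hM π hπ hne) (ihM π hπ hne) (hMb π hπ))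
    cases D with
    | nil =>
      have hln : e.l = e.n := hD0 rfl
      have h3 := (hPS.valid hn).2
      rw [AA_cons, T_nil]
      obtain ⟨l, n, S, rfl⟩ := e.eta
      simp only [En.mk_l, En.mk_n, En.mk_S] at *
      subst hln
      rw [aE_stable]
      exact h3
    | cons d D' =>
      obtain ⟨hd1, hdv⟩ := ihD (List.cons_ne_nil _ _) d D' rfl
      obtain ⟨h3, h4⟩ := hA (List.cons_ne_nil _ _)
      have hlt : theta (aE e) (e.l - 1) < Om e.l := by
        have := theta_lt_Om (v := e.l - 1) (α := aE e)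
        rwa [Nat.sub_add_cancel h1] at this
      rw [AA_cons]
      have hgoal : aE e + T (d :: D') ∈ C (aE e + T (d :: D')) (Om (e.l - 1 + 1)) := by
        rw [Nat.sub_add_cancel h1]
        refine C.add (C_mono le_self_add hlt.le (mem_C_theta hv)) ?_
        conv_lhs => rw [T_cons]
        exact C.coll _ (h4.trans_le le_self_add) (C_mono le_self_add hlt.le h3)
      exact valid_of_mem hgoal

/-- `T D` for a good chain with first level `d.l` -/
theorem IG.T_pr {d : En} {D : List En} (h : IG (d :: D)) :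
    Pr (T (d :: D)) ∧ Om (d.l - 1) ≤ T (d :: D) ∧ T (d :: D) < Om d.l :=
  CH_T_pr (CH_valid h d D rfl).1 (CH_valid h d D rfl).2

theorem GS.ps {n : ℕ} {S : List Pc} (h : GS n S) (hn : 1 ≤ n) : PS n S := by
  have key : ∀ D' : List En, IG D' → (∀ d ∈ D'.head?, d.l ≤ n) →
      Pr (T D') ∧ T D' < Om n := by
    intro D' hIG hhd
    cases D' with
    | nil => exact absurd rfl hIG.ne_nil
    | cons d D'' =>
      obtain ⟨h3, -, h4⟩ := hIG.T_pr
      exact ⟨h3, h4.trans_le (Om_le_Om (hhd d rfl))⟩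
  exact CH_ps hn (fun π hπ D hD => key D (h.L π hπ D hD) (h.Lb π hπ D hD))
    (fun π hπ hne => key π.M (h.M π hπ hne) (h.Mb π hπ))

theorem IG.valid {d : En} {D : List En} (h : IG (d :: D)) : Valid (d.l - 1) (AA (d :: D)) :=
  (CH_valid h d D rfl).2

theorem GE.one_le_n {e : En} (h : GE e) : 1 ≤ e.n := h.one_le.trans h.le

theorem GE.ps {e : En} (h : GE e) : PS e.n e.S := h.gs.ps h.one_le_n

theorem aE_st {e : En} (h : e.l = e.n) : aE e = Lam * bS e.S := by
  obtain ⟨l, n, S, rfl⟩ := e.eta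
  simp only [En.mk_l, En.mk_n, En.mk_S] at *
  subst h
  rw [aE_stable]

theorem aE_unst {e : En} (h : e.l ≠ e.n) : aE e =
    max (Lam * bS e.S + Lam) (Nm e.l (bS e.S)) + theta (nu e.n e.S) e.n := by
  obtain ⟨l, n, S, rfl⟩ := e.eta
  simp only [En.mk_l, En.mk_n, En.mk_S] at *
  rw [aE_unstable h]

theorem GE.nu_valid {e : En} (h : GE e) : Valid e.n (nu e.n e.S) :=
  valid_small ((nu_lt_Om h.ps h.one_le_n).trans (Om_lt_Om (Nat.lt_succ_self _)))

/-- the parts of an entry lie in every closure that contains its ordinal -/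
theorem GE.prt_mem {e : En} (h : GE e) {A ζ : Ordinal.{0}} (hζ : ζ ≤ Lam) (hA : Lam ≤ A)
    (ha : aE e ∈ C A ζ) : ∀ π ∈ e.S, ∀ x ∈ prt π, x ∈ C A ζ := by
  by_cases hst : e.l = e.n
  · rw [aE_st hst] at ha
    exact h.ps.mem_of_bS h.one_le_n hζ hA (mem_of_Lam_mul hζ ha)
  · rw [aE_unst hst] at ha
    have hPr : Pr (theta (nu e.n e.S) e.n) := ⟨theta_principal, theta_pos h.nu_valid⟩
    have h1 := (C_split_last (x := 0) hζ hPr (below_zero _) (by rwa [add_zero])).2.1
    have h2 := (theta_small_mem_iff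
      ((nu_lt_Om h.ps h.one_le_n).trans (Om_lt_Om (Nat.lt_succ_self _))) hζ hA).1 h1
    exact h.ps.mem_of_nu h.one_le_n hζ hA h2

theorem IG.tail {e d : En} {D : List En} (h : IG (e :: d :: D)) : IG (d :: D) ∧
    e.l < d.l ∧ (e.l < e.n → d.l ≤ e.n) ∧
    AA (d :: D) ∈ C (aE e) (theta (aE e) (e.l - 1)) ∧ AA (d :: D) < aE e := by
  cases h with
  | mk h1 h2 hv hL hLb hM hMb hD hD0 hs hA =>
    exact ⟨hD (List.cons_ne_nil _ _), (hs d rfl).1, (hs d rfl).2, hA (List.cons_ne_nil _ _)⟩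

theorem IG.last {e : En} (h : IG [e]) : e.l = e.n := by
  cases h with
  | mk h1 h2 hv hL hLb hM hMb hD hD0 hs hA => exact hD0 rfl

theorem IG.split {e : En} {D : List En} (h : IG (e :: D)) {A ζ : Ordinal.{0}} (hζ : ζ ≤ Lam)
    (ha : AA (e :: D) ∈ C A ζ) : aE e ∈ C A ζ ∧ T D ∈ C A ζ := by
  rw [AA_cons] at ha
  by_cases hst : e.l = e.n
  · rw [aE_st hst] at ha ⊢
    have hb : Below Lam (T D) := by
      cases D with
      | nil => rw [T_nil]; exact below_self _
      | cons d D' =>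
        exact below_of_lt (h.tail.1.T_pr.2.2.trans (Om_lt_Lam _))
    exact C_split hζ Pr_Lam hb ha
  · cases D with
    | nil => exact absurd h.last hst
    | cons d D' =>
      obtain ⟨h1, h2, h3, h4, h5⟩ := h.tail
      have hGE := h.ge
      have hlt : e.l < e.n := lt_of_le_of_ne hGE.le hst
      have hT : T (d :: D') < theta (nu e.n e.S) e.n :=
        (h1.T_pr.2.2.trans_le (Om_le_Om (h3 hlt))).trans_le (Om_le_theta hGE.nu_valid)
      rw [aE_unst hst] at ha ⊢
      have hPr : Pr (theta (nu e.n e.S) e.n) := ⟨theta_principal, theta_pos hGE.nu_valid⟩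
      obtain ⟨h6, -, h7⟩ := C_split_last hζ hPr (below_of_lt hT) ha
      exact ⟨h6, h7⟩

/-- dichotomy for a chain whose ordinal lies in a hull -/
theorem IG.dich {d : En} {D : List En} (h : IG (d :: D)) {l : ℕ} {A ζ : Ordinal.{0}}
    (hh : Hull l A ζ) (hT : T (d :: D) ∈ C A ζ) :
    (l < d.l → inh A ζ (AA (d :: D))) ∧ (d.l ≤ l → T (d :: D) < ζ) := by
  have hT1 := h.T_pr
  constructor
  · intro hl
    have h1 : ζ ≤ T (d :: D) :=
      (hh.up.trans (Om_le_Om (by omega))).trans hT1.2.1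
    rw [T_cons] at hT h1
    exact S3 (hh.up.trans (Om_lt_Lam _).le) h.valid hT h1
  · intro hl
    exact hh.sat _ hT (hT1.2.2.trans_le (Om_le_Om hl))

theorem IG.inh_all {d : En} {D : List En} (h : IG (d :: D)) {A ζ : Ordinal.{0}}
    (hζ : ζ ≤ Om (d.l - 1)) (ha : inh A ζ (AA (d :: D))) : ∀ e ∈ d :: D, inh A ζ (aE e) := by
  induction D generalizing d with
  | nil =>
    intro e he
    rw [List.mem_singleton] at he
    subst he
    exact ⟨(h.split (hζ.trans (Om_lt_Lam _).le) ha.1).1,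
      lt_of_le_of_lt (by rw [AA_cons]; exact le_self_add) ha.2⟩
  | cons d' D ih =>
    intro e he
    obtain ⟨h1, h2⟩ := h.split (hζ.trans (Om_lt_Lam _).le) ha.1
    obtain ⟨h3, h4, h5, h6, h7⟩ := h.tail
    rcases List.mem_cons.1 he with rfl | he
    · exact ⟨h1, lt_of_le_of_lt (by rw [AA_cons]; exact le_self_add) ha.2⟩
    · have hζ' : ζ ≤ Om (d'.l - 1) := hζ.trans (Om_le_Om (by omega))
      have h8 : ζ ≤ T (d' :: D) := hζ'.trans h3.T_pr.2.1
      rw [T_cons] at h2 h8
      exact ih h3 hζ' (S3 (hζ.trans (Om_lt_Lam _).le) h3.valid h2 h8) e he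

theorem IG.all_ge {D : List En} (h : IG D) : ∀ e ∈ D, GE e := by
  induction D with
  | nil => intro e he; exact absurd he List.not_mem_nil
  | cons d D ih =>
    intro e he
    rcases List.mem_cons.1 he with rfl | he
    · exact h.ge
    · cases D with
      | nil => exact absurd he List.not_mem_nil
      | cons d' D' => exact ih h.tail.1 e he

theorem IG.pairwise {D : List En} (h : IG D) :
    D.Pairwise fun e e' => e.l < e'.l ∧ inh (aE e) (theta (aE e) (e.l - 1)) (aE e') := by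
  induction D with
  | nil => exact List.Pairwise.nil
  | cons e D ih =>
    cases D with
    | nil => exact List.pairwise_singleton _ _
    | cons d D' =>
      obtain ⟨h3, h4, h5, h6, h7⟩ := h.tail
      have hp := ih h3
      refine List.Pairwise.cons (fun e' he' => ⟨?_, ?_⟩) hp
      · rcases List.mem_cons.1 he' with rfl | he'
        · exact h4
        · exact h4.trans ((List.pairwise_cons.1 hp).1 e' he').1
      · have h1 := h.ge.one_le
        have hlt : theta (aE e) (e.l - 1) < Om e.l := by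
          have := theta_lt_Om (v := e.l - 1) (α := aE e)
          rwa [Nat.sub_add_cancel h1] at this
        exact h3.inh_all (hlt.le.trans (Om_le_Om (by omega))) ⟨h6, h7⟩ e' he'

theorem GE.hull {e : En} (h : GE e) (hS : e.S ≠ []) :
    Hull e.l (aE e) (theta (aE e) (e.l - 1)) where
  up := by
    have := theta_lt_Om (v := e.l - 1) (α := aE e)
    rw [Nat.sub_add_cancel h.one_le] at this
    exact this.le
  low := fun k hk => (Om_le_Om (by omega)).trans (Om_le_theta h.valid)
  sat := fun x hx hlt => lt_theta_of_mem h.valid hx (by rwa [Nat.sub_add_cancel h.one_le])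
  big := by
    by_cases hst : e.l = e.n
    · rw [aE_st hst]
      exact le_mul_of_one_le_right' (h.ps.one_lt_bS h.one_le_n hS).le
    · rw [aE_unst hst]
      exact (le_add_self.trans (le_max_left _ _)).trans le_self_add

theorem hull_bot : Hull 0 (Lam ^ (ω : Ordinal.{0})) 1 where
  up := by rw [Om_zero]
  low := fun k hk => absurd hk (Nat.not_lt_zero k)
  sat := fun x _ hlt => by rwa [Om_zero] at hlt
  big := by
    conv_lhs => rw [← opow_one Lam]
    exact opow_le_opow_right Lam_pos one_lt_omega0.le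

end Kriz
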