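import Pool.Agent.Work.MP_0f6836_lc.UB.ME

/-!
# Upper bound, block CO: covering
-/

namespace Kriz

open Ordinal

theorem cov_aux {ctx : Set En} {m n : ℕ} {t : KT} {R : List Pc} (hctx : ∀ e ∈ ctx, e.l ≤ m)
    (hR : ∀ c', ctx ⊆ c' → ∀ s : KT, ¬ At t s → (∀ y ∈ s.ch, Mem c' y) →
      (∀ e ∈ ctx, ∃ π ∈ e.S, Fit c' π s.ch) → ∃ ρ ∈ R, Fit c' ρ s.ch) :
    ∀ (N : ℕ) (y : ℕ × KT) (c : Set En), sizeOf y.2 < N → ctx ⊆ c → Mem c y → ¬ Rel (m, t) y →
      Mem {e | (e ∈ c ∧ m < e.l) ∨ e = .mk m n R ∨ (e ∈ c ∧ e.l < m)} y := by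
  intro N
  induction N with
  | zero => intro y c hN; exact absurd hN (Nat.not_lt_zero _)
  | succ N ih =>
    intro y c hN hc hy hrel
    by_cases hmy : m ≤ y.1
    · have hemb : ¬ Emb m t y.2 := fun h => hrel ⟨hmy, h⟩
      have hat : ¬ At t y.2 := by
        rintro ⟨σ, h1, h2, h3⟩
        exact hemb (Emb.here σ h1 h2 h3)
      have hch : ∀ y' ∈ y.2.ch, ¬ Rel (m, t) y' := by
        rintro y' hy' ⟨h1, h2⟩
        obtain ⟨j, hj, hj'⟩ := List.getElem_of_mem hy'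
        refine hemb (Emb.down ⟨j, hj⟩ ?_ ?_)
        · rw [List.get_eq_getElem, hj']; exact h1
        · rw [List.get_eq_getElem, hj']; exact h2
      rw [mem_iff] at hy ⊢
      have hc'' : ctx ⊆ cle c y.1 := fun e he => ⟨hc he, (hctx e he).trans hmy⟩
      have hcle : cle {e | (e ∈ c ∧ m < e.l) ∨ e = .mk m n R ∨ (e ∈ c ∧ e.l < m)} y.1 =
          {e | (e ∈ cle c y.1 ∧ m < e.l) ∨ e = .mk m n R ∨ (e ∈ cle c y.1 ∧ e.l < m)} := by
        ext e
        constructor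
        · rintro ⟨⟨he, he1⟩ | rfl | ⟨he, he1⟩, he2⟩
          · exact Or.inl ⟨⟨he, he2⟩, he1⟩
          · exact Or.inr (Or.inl rfl)
          · exact Or.inr (Or.inr ⟨⟨he, he2⟩, he1⟩)
        · rintro (⟨⟨he, he1⟩, he2⟩ | rfl | ⟨⟨he, he1⟩, he2⟩)
          · exact ⟨Or.inl ⟨he, he2⟩, he1⟩
          · exact ⟨Or.inr (Or.inl rfl), hmy⟩
          · exact ⟨Or.inr (Or.inr ⟨he, he2⟩), he1⟩
      rw [hcle]
      have hsl : ∀ D : List En, ∀ y' ∈ y.2.ch, Mem (sctx D (cle c y.1)) y' →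
          Mem (sctx D {e | (e ∈ cle c y.1 ∧ m < e.l) ∨ e = .mk m n R ∨
            (e ∈ cle c y.1 ∧ e.l < m)}) y' := by
        intro D y' hy' hm
        by_cases hD : ∃ d ∈ D, d.l ≤ m
        · obtain ⟨d, hd, hdm⟩ := hD
          refine hm.mono ?_
          rintro e (he | ⟨⟨he, he1⟩ | rfl | ⟨he, he1⟩, he2⟩) _
          · exact Or.inl he
          · exact absurd (he2 d hd) (by omega)
          · exact absurd (he2 d hd) (by simp only [En.mk_l]; omega)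
          · exact Or.inr ⟨he, he2⟩
        · push Not at hD
          have hlt := sizeOf_ch _ _ hy'
          have hctx' : ctx ⊆ sctx D (cle c y.1) := fun e he =>
            Or.inr ⟨hc'' he, fun d hd => lt_of_le_of_lt (hctx e he) (hD d hd)⟩
          refine (ih y' _ (by omega) hctx' hm (hch y' hy')).mono ?_
          rintro e (he | ⟨⟨he, he1⟩ | rfl | ⟨he, he1⟩, he2⟩) _
          · exact Or.inl ⟨Or.inl he, hD e he⟩
          · exact Or.inl ⟨Or.inr ⟨he, he2⟩, he1⟩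
          · exact Or.inr (Or.inl rfl)
          · exact Or.inr (Or.inr ⟨Or.inr ⟨he, he2⟩, he1⟩)
      have himp : ∀ π : Pc, Fit (cle c y.1) π y.2.ch →
          Fit {e | (e ∈ cle c y.1 ∧ m < e.l) ∨ e = .mk m n R ∨ (e ∈ cle c y.1 ∧ e.l < m)}
            π y.2.ch := fun π hf => hf.imp (fun D _ => hsl D) (fun _ => hsl _)
      refine ⟨fun y' hy' => ?_, fun e he hm => ?_⟩
      · have hlt := sizeOf_ch _ _ hy'
        exact ih y' _ (by omega) hc'' (hy.1 y' hy') (hch y' hy')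
      · rcases he with ⟨he, _⟩ | rfl | ⟨he, _⟩
        · obtain ⟨π, hπ, hf⟩ := hy.2 e he hm
          exact ⟨π, hπ, himp π hf⟩
        · obtain ⟨ρ, hρ, hf⟩ := hR (cle c y.1) hc'' y.2 hat hy.1
            (fun e he => hy.2 e (hc he) ((hctx e he).trans hmy))
          exact ⟨ρ, by rw [En.mk_S]; exact hρ, himp ρ hf⟩
        · obtain ⟨π, hπ, hf⟩ := hy.2 e he hm
          exact ⟨π, hπ, himp π hf⟩
    · refine hy.mono ?_
      rintro e (⟨he, he1⟩ | rfl | ⟨he, he1⟩) hle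
      · exact he
      · exact absurd hle hmy
      · exact he

theorem cov {ctx : Set En} {m n : ℕ} {t : KT} {R : List Pc} (hctx : ∀ e ∈ ctx, e.l ≤ m)
    (hR : ∀ c', ctx ⊆ c' → ∀ s : KT, ¬ At t s → (∀ y ∈ s.ch, Mem c' y) →
      (∀ e ∈ ctx, ∃ π ∈ e.S, Fit c' π s.ch) → ∃ ρ ∈ R, Fit c' ρ s.ch) :
    ∀ y c, ctx ⊆ c → Mem c y → ¬ Rel (m, t) y →
      Mem {e | (e ∈ c ∧ m < e.l) ∨ e = .mk m n R ∨ (e ∈ c ∧ e.l < m)} y :=
  fun y c => cov_aux hctx hR _ y c (Nat.lt_succ_self _)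

/-- the conclusion in the form that is used -/
theorem cov_Zn {ctx : Set En} {m n : ℕ} {t : KT} {R : List Pc} (hmn : m ≤ n)
    (hctx : ∀ e ∈ ctx, e.l ≤ m)
    (hL : ∀ π ∈ R, ∀ D ∈ π.L, ∃ d ∈ D, d.l ≤ n) (hM : ∀ π ∈ R, π.M ≠ [] → ∃ d ∈ π.M, d.l ≤ n)
    (hR : ∀ c', ctx ⊆ c' → ∀ s : KT, ¬ At t s → (∀ y ∈ s.ch, Mem c' y) →
      (∀ e ∈ ctx, ∃ π ∈ e.S, Fit c' π s.ch) → ∃ ρ ∈ R, Fit c' ρ s.ch) :
    ∀ y c, ctx ⊆ c → Mem c y → ¬ Rel (m, t) y → Mem (sctx (Zn m n R) c) y := by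
  intro y c hc hy hrel
  have h := cov (n := n) hctx hR y c hc hy hrel
  by_cases hmn' : m = n
  · subst hmn'
    refine h.mono ?_
    rintro e (he | ⟨he, he2⟩) _
    · rw [Zn, if_pos rfl, List.mem_singleton] at he
      exact Or.inr (Or.inl he)
    · refine Or.inr (Or.inr ⟨he, ?_⟩)
      have := he2 (.mk m m R) (by rw [Zn, if_pos rfl]; exact List.mem_singleton_self _)
      simpa only [En.mk_l] using this
  · refine (mem_insert (l := m) (n := n) (S := R) (Or.inr (Or.inl rfl)) hmn hL hM h).mono ?_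
    rintro e (he | ⟨he, he2⟩) _
    · rw [Zn, if_neg hmn', List.mem_cons, List.mem_singleton] at he
      rcases he with rfl | rfl
      · exact Or.inr (Or.inr (Or.inl rfl))
      · exact Or.inl rfl
    · refine Or.inr (Or.inr (Or.inr ⟨he, ?_⟩))
      have := he2 (.mk m n R) (by rw [Zn, if_neg hmn']; exact List.mem_cons_self)
      simpa only [En.mk_l] using this

end Kriz
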