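import Pool.Agent.Work.MP_0f6836_lc.UB.CH

/-!
# Upper bound, block CU: cutting a chain
-/

namespace Kriz

open Ordinal

theorem IG.T_pos {D : List En} (h : D ≠ [] → IG D) : 0 < T D := by
  cases D with
  | nil => rw [T_nil]; exact Lam_pos
  | cons d D => exact (h (by simp)).T_pr.1.2

/-- `aE e ∈ C (AA D) (T D)` and `θ (aE e) < T D` for `D = e :: rest` -/
theorem IG.head_facts {e : En} {D : List En} (h : IG (e :: D)) :
    aE e < AA (e :: D) ∧ aE e ∈ C (AA (e :: D)) (T (e :: D)) ∧
      theta (aE e) (e.l - 1) < T (e :: D) := by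
  have hD : D ≠ [] → IG D := by
    cases h with
    | mk h1 h2 hv hL hLb hM hMb hD hD0 hs hA => exact hD
  have h0 : 0 < T D := IG.T_pos hD
  have h1 : aE e < AA (e :: D) := by
    rw [AA_cons]; exact lt_add_of_pos_right _ h0
  have hT : T (e :: D) = theta (AA (e :: D)) (e.l - 1) := T_cons e D
  have hTL : T (e :: D) ≤ Lam := by rw [hT]; exact theta_le_Lam
  have h2 : aE e ∈ C (AA (e :: D)) (T (e :: D)) :=
    (h.split hTL (by rw [hT]; exact mem_C_theta h.valid)).1
  refine ⟨h1, h2, ?_⟩
  rw [hT]
  exact theta_lt h.valid h1 (by rw [← hT]; exact h2)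

theorem cut_nil (m : ℕ) (Z : List En) : cut [] m Z = Z := rfl

theorem cut_cons_lt {e : En} {m : ℕ} (h : e.l < m) (D Z : List En) :
    cut (e :: D) m Z = e :: cut D m Z := by
  simp [cut, h]

theorem cut_of_le {D Z : List En} {m : ℕ} (h : ∀ e ∈ D, m ≤ e.l) : cut D m Z = Z := by
  have : D.filter (fun e => e.l < m) = [] := by
    rw [List.filter_eq_nil_iff]
    intro a ha
    have := h a ha
    simp; omega
  simp [cut, this]

theorem cut_aux {Z : List En} {m : ℕ} (hZ : IG Z) (hm : ∀ d ∈ Z.head?, d.l = m) (D : List En) :
    (D ≠ [] → IG D) →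
    (∀ e ∈ D, e.l ≤ m → inh (aE e) (theta (aE e) (e.l - 1)) (AA Z)) →
    IG (cut D m Z) ∧ T (cut D m Z) < T D ∧
    (∀ A ζ, (∀ d ∈ D.head?, ζ ≤ Om (d.l - 1)) → (D ≠ [] → inh A ζ (AA D)) → inh A ζ (AA Z) →
      inh A ζ (AA (cut D m Z))) ∧
    (∀ d' ∈ (cut D m Z).head?, (D = [] → d'.l = m) ∧ ∀ d ∈ D.head?, d'.l = min d.l m) := by
  obtain ⟨z, Z', rfl⟩ : ∃ z Z', Z = z :: Z' := by
    cases Z with
    | nil => exact absurd rfl hZ.ne_nil
    | cons z Z' => exact ⟨z, Z', rfl⟩
  have hzm : z.l = m := hm z (by simp)
  induction D with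
  | nil =>
    intro _ _
    rw [cut_nil]
    refine ⟨hZ, ?_, fun A ζ _ _ h => h, ?_⟩
    · rw [T_nil]
      exact hZ.T_pr.2.2.trans (Om_lt_Lam _)
    · intro d' hd'
      simp only [List.head?_cons, Option.mem_some_iff] at hd'
      subst hd'
      exact ⟨fun _ => hzm, fun d hd => by simp at hd⟩
  | cons e D ih =>
    intro hD h
    have hD := hD (by simp)
    have hD' := hD
    obtain ⟨hlt, hmem, hth⟩ := hD.head_facts
    have hT : T (e :: D) = theta (AA (e :: D)) (e.l - 1) := T_cons e D
    rcases le_or_gt m e.l with hme | hme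
    · have hc : cut (e :: D) m (z :: Z') = z :: Z' := by
        apply cut_of_le
        intro a ha
        rcases List.mem_cons.1 ha with rfl | ha
        · exact hme
        · have := (List.pairwise_cons.1 hD.pairwise).1 a ha
          omega
      rw [hc]
      refine ⟨hZ, ?_, fun A ζ _ _ h => h, ?_⟩
      · rcases hme.lt_or_eq with hlt' | heq
        · calc T (z :: Z') < Om z.l := hZ.T_pr.2.2
            _ ≤ Om (e.l - 1) := Om_le_Om (by omega)
            _ ≤ T (e :: D) := hD.T_pr.2.1
        · obtain ⟨h1, h2⟩ := h e (by simp) heq.ge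
          have h3 : AA (z :: Z') ∈ C (AA (e :: D)) (T (e :: D)) :=
            C_mono hlt.le hth.le h1
          rw [T_cons z Z', hT, hzm, heq]
          rw [hT] at h3
          exact theta_lt hD.valid (h2.trans hlt) h3
      · intro d' hd'
        simp only [List.head?_cons, Option.mem_some_iff] at hd'
        subst hd'
        refine ⟨fun h => by simp at h, fun d hd => ?_⟩
        simp only [List.head?_cons, Option.mem_some_iff] at hd
        subst hd
        rw [hzm, min_eq_right hme]
    · rw [cut_cons_lt hme]
      cases hD with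
      | mk h1 h2 hv hL hLb hM hMb hDr hD0 hs hA =>
        obtain ⟨i1, i2, i3, i4⟩ := ih hDr (fun a ha => h a (by simp [ha]))
        have hZe := h e (by simp) hme.le
        -- level of the head of the rest
        have hζr : ∀ d ∈ D.head?, theta (aE e) (e.l - 1) ≤ Om (d.l - 1) := by
          intro d hd
          have h3 : theta (aE e) (e.l - 1) < Om (e.l - 1 + 1) := theta_lt_Om
          have h4 := (hs d hd).1
          exact h3.le.trans (Om_le_Om (by omega))
        have hcutA : inh (aE e) (theta (aE e) (e.l - 1)) (AA (cut D m (z :: Z'))) :=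
          i3 _ _ hζr (fun hne => hA hne) hZe
        obtain ⟨c, Cr, hcr⟩ : ∃ c Cr, cut D m (z :: Z') = c :: Cr := by
          cases hh : cut D m (z :: Z') with
          | nil => rw [hh] at i1; exact absurd rfl i1.ne_nil
          | cons c Cr => exact ⟨c, Cr, rfl⟩
        have hTc : T (cut D m (z :: Z')) = theta (AA (cut D m (z :: Z'))) (c.l - 1) := by
          rw [hcr, T_cons]
        refine ⟨?_, ?_, ?_, ?_⟩
        · refine IG.mk h1 h2 hv hL hLb hM hMb (fun _ => i1) (fun h0 => ?_) ?_ (fun _ => hcutA)
          · rw [h0] at i1; exact absurd rfl i1.ne_nil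
          · intro d hd
            obtain ⟨j1, j2⟩ := i4 d hd
            cases D with
            | nil =>
              have := j1 rfl
              have h0 := hD0 rfl
              omega
            | cons r D =>
              have h5 := j2 r (by simp)
              obtain ⟨h6, h7⟩ := hs r (by simp)
              constructor
              · omega
              · intro h8
                have := h7 h8
                omega
        · rw [T_cons e (cut D m (z :: Z')), hT]
          apply theta_lt hD'.valid
          · rw [AA_cons, AA_cons]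
            exact (add_lt_add_iff_left _).2 i2
          · rw [AA_cons e (cut D m (z :: Z')), ← hT]
            refine C.add hmem ?_
            rw [hTc]
            refine C.coll _ (hcutA.2.trans hlt) (C_mono hlt.le hth.le hcutA.1)
        · intro A ζ hζ hAA hAZ
          have hζe : ζ ≤ Om (e.l - 1) := hζ e (by simp)
          obtain ⟨k1, k2⟩ := hAA (by simp)
          have hζL : ζ ≤ Lam := hζe.trans (Om_lt_Lam _).le
          obtain ⟨k3, k4⟩ := hD'.split hζL k1
          have k5 : inh A ζ (AA (cut D m (z :: Z'))) := by
            apply i3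
            · intro d hd
              have := (hs d hd).1
              exact hζe.trans (Om_le_Om (by omega))
            · intro hne
              cases D with
              | nil => exact absurd rfl hne
              | cons r D =>
                have h6 := (hs r (by simp)).1
                have hr := hDr hne
                rw [T_cons] at k4
                have h7 : Om (r.l - 1) ≤ T (r :: D) := hr.T_pr.2.1
                rw [T_cons] at h7
                exact S3 hζL hr.valid k4 ((hζe.trans (Om_le_Om (by omega))).trans h7)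
            · exact hAZ
          constructor
          · rw [AA_cons]
            refine C.add k3 ?_
            rw [hTc]
            exact C.coll _ k5.2 k5.1
          · refine lt_trans ?_ k2
            rw [AA_cons, AA_cons]
            exact (add_lt_add_iff_left _).2 i2
        · intro d' hd'
          simp only [List.head?_cons, Option.mem_some_iff] at hd'
          subst hd'
          refine ⟨fun h => by simp at h, fun d hd => ?_⟩
          simp only [List.head?_cons, Option.mem_some_iff] at hd
          subst hd
          rw [min_eq_left hme.le]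

theorem cut_ok {D Z : List En} {m : ℕ} (hD : IG D) (hZ : IG Z) (hm : ∀ d ∈ Z.head?, d.l = m)
    (h : ∀ e ∈ D, e.l ≤ m → inh (aE e) (theta (aE e) (e.l - 1)) (AA Z)) :
    IG (cut D m Z) ∧ T (cut D m Z) < T D ∧
    (∀ A ζ, (∀ d ∈ D.head?, ζ ≤ Om (d.l - 1)) → inh A ζ (AA D) → inh A ζ (AA Z) →
      inh A ζ (AA (cut D m Z))) ∧
    (∀ d ∈ D.head?, ∀ d' ∈ (cut D m Z).head?, d'.l = min d.l m) := by
  obtain ⟨h1, h2, h3, h4⟩ := cut_aux hZ hm D (fun _ => hD) h
  exact ⟨h1, h2, fun A ζ a b c => h3 A ζ a (fun _ => b) c, fun d hd d' hd' => (h4 d' hd').2 d hd⟩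

end Kriz
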