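import Pool.Agent.Work.MP_0f6836_lc.UB.UDefs

/-!
# Upper bound: descriptions, their ordinals and their semantics
-/

namespace Kriz

open Ordinal

mutual
/-- entries `(l, n, S)`: level, bound for the levels of the slots, list of pieces -/
inductive En : Type
  | node (l n : ℕ) (S : Pcs)
/-- lists of pieces -/
inductive Pcs : Type
  | nil
  | cons (f : ℕ) (L : Sls) (M : Ch) (r : Pcs)
/-- lists of slots -/
inductive Sls : Type
  | nil
  | cons (D : Ch) (r : Sls)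
/-- chains -/
inductive Ch : Type
  | nil
  | cons (e : En) (r : Ch)
end

/-- pieces: number of free slots, list of slots (each slot is a chain of entries, increasing
levels), multiset slot (`[]` if there is none) -/
structure Pc : Type where
  f : ℕ
  L : List (List En)
  M : List En

def Ch.toL : Ch → List En
  | .nil => []
  | .cons e r => e :: r.toL

def Ch.of : List En → Ch
  | [] => .nil
  | e :: D => .cons e (Ch.of D)

theorem Ch.toL_of : ∀ D : List En, (Ch.of D).toL = D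
  | [] => rfl
  | e :: D => by rw [Ch.of, Ch.toL, Ch.toL_of D]

theorem Ch.of_toL : ∀ D : Ch, Ch.of D.toL = D
  | .nil => rfl
  | .cons e D => by rw [Ch.toL, Ch.of, Ch.of_toL D]

def Sls.toL : Sls → List (List En)
  | .nil => []
  | .cons D r => D.toL :: r.toL

def Sls.of : List (List En) → Sls
  | [] => .nil
  | D :: L => .cons (Ch.of D) (Sls.of L)

theorem Sls.toL_of : ∀ L : List (List En), (Sls.of L).toL = L
  | [] => rfl
  | D :: L => by rw [Sls.of, Sls.toL, Ch.toL_of, Sls.toL_of L]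

theorem Sls.of_toL : ∀ L : Sls, Sls.of L.toL = L
  | .nil => rfl
  | .cons D L => by rw [Sls.toL, Sls.of, Ch.of_toL, Sls.of_toL L]

def Pcs.toL : Pcs → List Pc
  | .nil => []
  | .cons f L M r => ⟨f, L.toL, M.toL⟩ :: r.toL

def Pcs.of : List Pc → Pcs
  | [] => .nil
  | π :: S => .cons π.f (Sls.of π.L) (Ch.of π.M) (Pcs.of S)

theorem Pcs.toL_of : ∀ S : List Pc, (Pcs.of S).toL = S
  | [] => rfl
  | π :: S => by rw [Pcs.of, Pcs.toL, Pcs.toL_of S, Sls.toL_of, Ch.toL_of]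

theorem Pcs.of_toL : ∀ S : Pcs, Pcs.of S.toL = S
  | .nil => rfl
  | .cons f L M S => by
    rw [Pcs.toL, Pcs.of, Pcs.of_toL S, Sls.of_toL, Ch.of_toL]

def En.l : En → ℕ | .node l _ _ => l
def En.n : En → ℕ | .node _ n _ => n
def En.S : En → List Pc | .node _ _ S => S.toL

/-- the entry `(l, n, S)` -/
def En.mk (l n : ℕ) (S : List Pc) : En := .node l n (Pcs.of S)

@[simp] theorem En.mk_l (l n : ℕ) (S : List Pc) : (En.mk l n S).l = l := rfl
@[simp] theorem En.mk_n (l n : ℕ) (S : List Pc) : (En.mk l n S).n = n := rfl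
@[simp] theorem En.mk_S (l n : ℕ) (S : List Pc) : (En.mk l n S).S = S := Pcs.toL_of S

theorem En.eta (e : En) : ∃ l n S, e = En.mk l n S := by
  obtain ⟨l, n, S⟩ := e
  exact ⟨l, n, S.toL, by rw [En.mk, Pcs.of_toL]⟩

noncomputable section

/-- the level of an ordinal below `Λ` -/
def lev (c : Ordinal.{0}) : ℕ := sInf {w : ℕ | c < Om (w + 1)}

/-- a principal ordinal above `c` of the same level -/
def G (c : Ordinal.{0}) : Ordinal.{0} := theta c (lev c)

mutual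
/-- the ordinal `a(e)` of an entry -/
def aE : En → Ordinal.{0}
  | .node l n S =>
    if l = n then Lam * nsum (bL S) else
      max (Lam * nsum (bL S) + Lam) (Nm l (nsum (bL S))) +
        theta (nsum (nL (theta (Lam * nsum (bL S) + Lam) (n - 1)) S)) n
def bL : Pcs → List Ordinal.{0}
  | .nil => []
  | .cons f L M S => (Lam ^ f * G (nsum (1 :: (mL M ++ tL L)))) :: bL S
def nL : Ordinal.{0} → Pcs → List Ordinal.{0}
  | _, .nil => []
  | Y, .cons f L M S => G (nsum (List.replicate f Y ++ 1 :: (mL M ++ tL L))) :: nL Y S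
def tL : Sls → List Ordinal.{0}
  | .nil => []
  | .cons D L => TC D :: tL L
def mL : Ch → List Ordinal.{0}
  | .nil => []
  | .cons e D => [G (theta (aE e + TC D) (e.l - 1))]
/-- the ordinal of a chain -/
def TC : Ch → Ordinal.{0}
  | .nil => Lam
  | .cons e D => theta (aE e + TC D) (e.l - 1)
end

/-- the ordinal of a chain -/
def T (D : List En) : Ordinal.{0} := TC (Ch.of D)

/-- the parts of a piece -/
def prt (π : Pc) : List Ordinal.{0} :=
  1 :: (if π.M = [] then π.L.map T else G (T π.M) :: π.L.map T)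

def pB (π : Pc) : Ordinal.{0} := Lam ^ π.f * G (nsum (prt π))

def pN (Y : Ordinal.{0}) (π : Pc) : Ordinal.{0} := G (nsum (List.replicate π.f Y ++ prt π))

/-- `β(S)` -/
def bS (S : List Pc) : Ordinal.{0} := nsum (S.map pB)

def Yn (n : ℕ) (S : List Pc) : Ordinal.{0} := theta (Lam * bS S + Lam) (n - 1)

def nu (n : ℕ) (S : List Pc) : Ordinal.{0} := nsum (S.map (pN (Yn n S)))

/-- the argument of the ordinal of a chain -/
def AA : List En → Ordinal.{0}
  | [] => 0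
  | e :: D => aE e + T D

end

theorem T_nil : T [] = Lam := by rw [T, Ch.of, TC]

theorem T_cons (e : En) (D : List En) : T (e :: D) = theta (AA (e :: D)) (e.l - 1) := by
  rw [T, Ch.of, TC, AA, T]

theorem AA_cons (e : En) (D : List En) : AA (e :: D) = aE e + T D := rfl

theorem tL_map : ∀ L : List (List En), tL (Sls.of L) = L.map T
  | [] => by rw [Sls.of, tL]; rfl
  | D :: L => by rw [Sls.of, tL, tL_map L]; rfl

theorem mL_tL (M : List En) (L : List (List En)) : mL (Ch.of M) ++ tL (Sls.of L) =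
    if M = [] then L.map T else G (T M) :: L.map T := by
  rw [tL_map]
  cases M with
  | nil => rw [Ch.of, mL, if_pos rfl]; rfl
  | cons e D =>
    rw [if_neg (by simp), T, Ch.of, mL, TC]; rfl

theorem bL_map : ∀ S : List Pc, bL (Pcs.of S) = S.map pB
  | [] => by rw [Pcs.of, bL]; rfl
  | π :: S => by rw [Pcs.of, bL, bL_map S, mL_tL]; rfl

theorem nL_map (Y : Ordinal.{0}) : ∀ S : List Pc, nL Y (Pcs.of S) = S.map (pN Y)
  | [] => by rw [Pcs.of, nL]; rfl
  | π :: S => by rw [Pcs.of, nL, nL_map Y S, mL_tL]; rfl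

theorem aE_mk (l n : ℕ) (S : List Pc) : aE (.mk l n S) = if l = n then Lam * bS S else
    max (Lam * bS S + Lam) (Nm l (bS S)) + theta (nu n S) n := by
  rw [En.mk, aE, bL_map, nL_map]; rfl

theorem aE_stable (l : ℕ) (S : List Pc) : aE (.mk l l S) = Lam * bS S := by
  rw [aE_mk, if_pos rfl]

theorem aE_unstable {l n : ℕ} (h : l ≠ n) (S : List Pc) : aE (.mk l n S) =
    max (Lam * bS S + Lam) (Nm l (bS S)) + theta (nu n S) n := by
  rw [aE_mk, if_neg h]

theorem pB_eq (π : Pc) : pB π = Lam ^ π.f * G (nsum (prt π)) := rfl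

theorem pN_eq (Y : Ordinal.{0}) (π : Pc) :
    pN Y π = G (nsum (List.replicate π.f Y ++ prt π)) := rfl

/-! ## Good chains and good contexts -/

/-- slot chains -/
inductive IG : List En → Prop
  | mk {e : En} {D : List En} (h1 : 1 ≤ e.l) (h2 : e.l ≤ e.n) (hv : Valid (e.l - 1) (aE e))
    (hL : ∀ π ∈ e.S, ∀ D' ∈ π.L, IG D')
    (hLb : ∀ π ∈ e.S, ∀ D' ∈ π.L, ∀ d ∈ D'.head?, d.l ≤ e.n)
    (hM : ∀ π ∈ e.S, π.M ≠ [] → IG π.M)
    (hMb : ∀ π ∈ e.S, ∀ d ∈ π.M.head?, d.l ≤ e.n)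
    (hD : D ≠ [] → IG D) (hD0 : D = [] → e.l = e.n)
    (hs : ∀ d ∈ D.head?, e.l < d.l ∧ (e.l < e.n → d.l ≤ e.n))
    (hA : D ≠ [] → AA D ∈ C (aE e) (theta (aE e) (e.l - 1)) ∧ AA D < aE e) : IG (e :: D)

/-- good entries -/
structure GE (e : En) : Prop where
  one_le : 1 ≤ e.l
  le : e.l ≤ e.n
  valid : Valid (e.l - 1) (aE e)
  L : ∀ π ∈ e.S, ∀ D' ∈ π.L, IG D'
  Lb : ∀ π ∈ e.S, ∀ D' ∈ π.L, ∀ d ∈ D'.head?, d.l ≤ e.n
  M : ∀ π ∈ e.S, π.M ≠ [] → IG π.M
  Mb : ∀ π ∈ e.S, ∀ d ∈ π.M.head?, d.l ≤ e.n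

/-- `x ∈ C(A, ζ)` and `x < A` -/
def inh (A ζ x : Ordinal.{0}) : Prop := x ∈ C A ζ ∧ x < A

/-- hulls of level `l` -/
structure Hull (l : ℕ) (A ζ : Ordinal.{0}) : Prop where
  up : ζ ≤ Om l
  low : ∀ k < l, Om k ≤ ζ
  sat : ∀ x ∈ C A ζ, x < Om l → x < ζ
  big : Lam ≤ A

/-- good contexts (increasing levels) -/
structure GC (c : List En) : Prop where
  ge : ∀ e ∈ c, GE e
  pw : c.Pairwise fun e e' => e.l < e'.l ∧ inh (aE e) (theta (aE e) (e.l - 1)) (aE e')
  bot : ∀ e ∈ c, inh (Lam ^ (ω : Ordinal.{0})) 1 (aE e)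

/-- the hulls of a context -/
def Hs (c : List En) (l : ℕ) (A ζ : Ordinal.{0}) : Prop :=
  (l = 0 ∧ A = Lam ^ (ω : Ordinal.{0}) ∧ ζ = 1) ∨
    ∃ e ∈ c, l = e.l ∧ A = aE e ∧ ζ = theta (aE e) (e.l - 1)

/-! ## Semantics -/

/-- the part of level `≤ m` -/
def cle (c : Set En) (m : ℕ) : Set En := {e | e ∈ c ∧ e.l ≤ m}

/-- the context of a slot -/
def sctx (D : List En) (c : Set En) : Set En := {e | e ∈ D ∨ (e ∈ c ∧ ∀ d ∈ D, e.l < d.l)}

/-- `Mem c (m, s)`: the branch `(m, s)` satisfies all entries of the context `c` -/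
inductive Mem : Set En → ℕ × KT → Prop
  | mk {c : Set En} {m : ℕ} {s : KT} (π : En → Pc) (L0 L2 : En → List (ℕ × KT))
    (os : En → List (Option (ℕ × KT)))
    (h0 : ∀ y ∈ s.ch, Mem (cle c m) y)
    (h1 : ∀ e ∈ c, e.l ≤ m → π e ∈ e.S)
    (h2 : ∀ e ∈ c, e.l ≤ m → s.ch.Perm (L0 e ++ ((os e).reduceOption ++ L2 e)))
    (h3 : ∀ e ∈ c, e.l ≤ m → (L0 e).length ≤ (π e).f)
    (h5 : ∀ e ∈ c, e.l ≤ m → (os e).length = (π e).L.length)
    (h6 : ∀ e ∈ c, e.l ≤ m → ∀ (i : ℕ) (D : List En) (y : ℕ × KT), (π e).L[i]? = some D →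
      (os e)[i]? = some (some y) → Mem (sctx D (cle c m)) y)
    (h7 : ∀ e ∈ c, e.l ≤ m → ∀ y ∈ L2 e, (π e).M ≠ [])
    (h8 : ∀ e ∈ c, e.l ≤ m → ∀ y ∈ L2 e, Mem (sctx (π e).M (cle c m)) y) : Mem c (m, s)

/-- the list of children `L` is decomposed according to the piece `π` in the context `c` -/
def Fit (c : Set En) (π : Pc) (L : List (ℕ × KT)) : Prop :=
  ∃ (L0 L2 : List (ℕ × KT)) (os : List (Option (ℕ × KT))),
    L.Perm (L0 ++ (os.reduceOption ++ L2)) ∧ L0.length ≤ π.f ∧ os.length = π.L.length ∧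
    (∀ (i : ℕ) (D : List En) (y : ℕ × KT), π.L[i]? = some D → os[i]? = some (some y) →
      Mem (sctx D c) y) ∧
    (∀ y ∈ L2, π.M ≠ [] ∧ Mem (sctx π.M c) y)

/-- the new pieces that replace the piece `π`, if `t` is decomposed into `L0`, `os`, `L2` -/
inductive IsNew (π : Pc) (L0 L2 : List (ℕ × KT)) (os : List (Option (ℕ × KT)))
    (Da : ℕ × KT → List En) (Db : ℕ → List En) (Dc : ℕ × KT → List En) : Pc → Prop
  | a {z : ℕ × KT} (h : z ∈ L0) : IsNew π L0 L2 os Da Db Dc (.mk (π.f - 1) (Da z :: π.L) π.M)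
  | b {i : ℕ} {z : ℕ × KT} (h : os[i]? = some (some z)) :
      IsNew π L0 L2 os Da Db Dc (.mk π.f (π.L.set i (Db i)) π.M)
  | c {z : ℕ × KT} (h : z ∈ L2) :
      IsNew π L0 L2 os Da Db Dc (.mk π.f (π.L ++ List.replicate (L2.length - 1) π.M) (Dc z))

/-- the set of entries of a list -/
def st (c : List En) : Set En := {e | e ∈ c}

/-- all parts are principal and below `Ω_n` -/
def PS (n : ℕ) (S : List Pc) : Prop := ∀ π ∈ S, ∀ x ∈ prt π, Pr x ∧ x < Om n

/-- all slots are good, of level `≤ n` -/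
structure GS (n : ℕ) (S : List Pc) : Prop where
  L : ∀ π ∈ S, ∀ D ∈ π.L, IG D
  Lb : ∀ π ∈ S, ∀ D ∈ π.L, ∀ d ∈ D.head?, d.l ≤ n
  M : ∀ π ∈ S, π.M ≠ [] → IG π.M
  Mb : ∀ π ∈ S, ∀ d ∈ π.M.head?, d.l ≤ n

theorem GE.of {l n : ℕ} {S : List Pc} (h1 : 1 ≤ l) (h2 : l ≤ n)
    (hv : Valid (l - 1) (aE (.mk l n S))) (hS : GS n S) : GE (.mk l n S) :=
  ⟨h1, h2, hv, by rw [En.mk_S]; exact hS.L, by rw [En.mk_S]; exact hS.Lb,
    by rw [En.mk_S]; exact hS.M, by rw [En.mk_S]; exact hS.Mb⟩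

theorem GE.gs_mk {l n : ℕ} {S : List Pc} (h : GE (.mk l n S)) : GS n S := by
  have h1 := h.L
  have h2 := h.Lb
  have h3 := h.M
  have h4 := h.Mb
  rw [En.mk_S] at h1 h2 h3 h4
  exact ⟨h1, h2, h3, h4⟩

theorem IG.of {l n : ℕ} {S : List Pc} {D : List En} (h1 : 1 ≤ l) (h2 : l ≤ n)
    (hv : Valid (l - 1) (aE (.mk l n S))) (hS : GS n S) (hD : D ≠ [] → IG D)
    (hD0 : D = [] → l = n) (hs : ∀ d ∈ D.head?, l < d.l ∧ (l < n → d.l ≤ n))
    (hA : D ≠ [] → AA D ∈ C (aE (.mk l n S)) (theta (aE (.mk l n S)) (l - 1)) ∧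
      AA D < aE (.mk l n S)) : IG (.mk l n S :: D) :=
  IG.mk h1 h2 hv (by rw [En.mk_S]; exact hS.L) (by rw [En.mk_S]; exact hS.Lb)
    (by rw [En.mk_S]; exact hS.M) (by rw [En.mk_S]; exact hS.Mb) hD hD0 hs hA

/-- replace the part of level `≥ m` of the chain `D` by `Z` -/
def cut (D : List En) (m : ℕ) (Z : List En) : List En := D.filter (fun e => e.l < m) ++ Z

/-- the new chain -/
def Zn (m n : ℕ) (R : List Pc) : List En := if m = n then [.mk m m R] else [.mk m n R, .mk n n R]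

end Kriz
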