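import Pool.Agent.Work.MP_0f6836_lc.UB.UDefs

/-!
# Block EG: component induction for the closure `C(A, ζ)`
-/

namespace Kriz

open Ordinal

theorem eg_BG_lt {G : Set Ordinal.{0}} (hG : ∀ π ∈ G, Pr π ∧ π < Lam) {b : Ordinal.{0}}
    (h : BG G b) : b < Lam := by
  induction h with
  | zero => exact Lam_pos
  | cons hπ _ ih => exact Lam_principal (hG _ hπ).2 ih

theorem eg_BG_add {G : Set Ordinal.{0}} {a b : Ordinal.{0}} (ha : BG G a) (hb : BG G b) :
    BG G (a + b) := by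
  induction ha with
  | zero => rwa [zero_add]
  | cons hπ _ ih => rw [add_assoc]; exact BG.cons hπ ih

theorem eg_toE {G : Set Ordinal.{0}} {b : Ordinal.{0}} (hb : BG G b) : EG G b := by
  have := EG.step (G := G) EG.zero hb
  rwa [mul_zero, zero_add] at this

theorem eg_EG_add {G : Set Ordinal.{0}} (hG : ∀ π ∈ G, Pr π ∧ π < Lam) {a b : Ordinal.{0}}
    (ha : EG G a) (hb : EG G b) : EG G (a + b) := by
  induction hb generalizing a with
  | zero => rwa [add_zero]
  | @step a' b' ha' hb' ih =>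
    cases ha with
    | zero => rw [zero_add]; exact EG.step ha' hb'
    | @step c d hc hd =>
      by_cases h0 : a' = 0
      · subst h0
        rw [mul_zero, zero_add, add_assoc]
        exact EG.step hc (eg_BG_add hd hb')
      · rw [← add_assoc, add_assoc (Lam * c), add_Lam_mul (eg_BG_lt hG hd) h0, ← mul_add]
        exact EG.step (ih hc) hb'

theorem eg_BG_of_lt {G : Set Ordinal.{0}} {ζ : Ordinal.{0}}
    (hbase : ∀ π, Pr π → π < ζ → π ∈ G) {ξ : Ordinal.{0}} (h : ξ < ζ) : BG G ξ := by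
  induction ξ using WellFoundedLT.induction with
  | ind ξ ih =>
    by_cases h0 : ξ = 0
    · rw [h0]; exact BG.zero
    · obtain ⟨π, x, hπ, hπ0, hx, -, he, hlt, hle⟩ := exists_lead h0
      rw [he]
      exact BG.cons (hbase π ⟨hπ, hπ0⟩ (hle.trans_lt h)) (ih x hlt (hlt.trans h))

theorem C_comp_induct {A ζ : Ordinal.{0}} (hζ : ζ ≤ Lam) {G : Set Ordinal.{0}}
    (hG : ∀ π ∈ G, Pr π ∧ π < Lam)
    (hbase : ∀ π, Pr π → π < ζ → π ∈ G)
    (hcoll : ∀ δ w, Valid w δ → δ < A → δ ∈ C A ζ → EG G δ → theta δ w ∈ G)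
    {x : Ordinal.{0}} (hx : x ∈ C A ζ) : EG G x := by
  have _ := hζ
  refine C.induct (P := fun ξ => EG G ξ) EG.zero (fun ξ hξ => eg_toE (eg_BG_of_lt hbase hξ))
    (fun a b _ _ ha hb => eg_EG_add hG ha hb) (fun a _ ha => ?_) (fun δ w hδ hm ih => ?_) hx
  · have := EG.step ha (BG.zero (G := G))
    rwa [add_zero] at this
  · by_cases hv : Valid w δ
    · have := BG.cons (hcoll δ w hv hδ hm ih) BG.zero
      rw [add_zero] at this
      exact eg_toE this
    · rw [theta_of_not_valid hv]; exact EG.zero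

theorem BG_lead {G : Set Ordinal.{0}} (hG : ∀ π ∈ G, Pr π ∧ π < Lam) {b : Ordinal.{0}}
    (hb : BG G b) : ∀ π x, Pr π → Below π x → b = π + x → π ∈ G ∧ BG G x := by
  induction hb with
  | zero =>
    intro π x h0 _ h
    have : π ≤ 0 := by rw [h]; exact le_self_add
    exact absurd h0.2 (not_lt_of_ge this)
  | @cons ρ b' hρ hb' ih =>
    intro π x hπ hx h
    by_cases hb0 : b' = 0
    · subst hb0
      obtain ⟨h1, h2⟩ := lead_unique (hG _ hρ).1.1 hπ.1 (below_zero ρ) hx h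
      rw [← h1, ← h2]; exact ⟨hρ, BG.zero⟩
    · obtain ⟨π', x'', hπ', hπ0', hx'', hB, he, hlt, hle⟩ := exists_lead hb0
      obtain ⟨h1, h2⟩ := ih π' x'' ⟨hπ', hπ0'⟩ hx'' he
      by_cases hc : ρ < π'
      · have h3 : ρ + b' = b' := hπ'.add_eq_right_of_le hc hle
        rw [h3, he] at h
        obtain ⟨h4, h5⟩ := lead_unique hπ' hπ.1 hx'' hx h
        rw [← h4, ← h5]; exact ⟨h1, h2⟩
      · have h3 : Below ρ b' := hB.mono (not_lt.1 hc)
        obtain ⟨h4, h5⟩ := lead_unique (hG _ hρ).1.1 hπ.1 h3 hx h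
        rw [← h4, ← h5]; exact ⟨hρ, hb'⟩

theorem EG_digit {G : Set Ordinal.{0}} (hG : ∀ π ∈ G, Pr π ∧ π < Lam) {a b : Ordinal.{0}}
    (hb : b < Lam) (h : EG G (Lam * a + b)) : EG G a ∧ BG G b := by
  generalize hc : Lam * a + b = c at h
  cases h with
  | zero =>
    have : Lam * a + b = Lam * 0 + 0 := by rw [hc, mul_zero, add_zero]
    obtain ⟨h2, h3⟩ := Lam_digit_unique hb Lam_pos this
    rw [h2, h3]; exact ⟨EG.zero, BG.zero⟩
  | @step a' b' ha' hb' =>
    obtain ⟨h2, h3⟩ := Lam_digit_unique hb (eg_BG_lt hG hb') hc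
    rw [h2, h3]; exact ⟨ha', hb'⟩

end Kriz
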