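import Pool.Agent.Work.MP_0f6836_lc.UB.CH

/-!
# Block GX: contexts (helper88)
-/

namespace Kriz

open Ordinal

theorem GC.filter {c : List En} (h : GC c) (m : ℕ) : GC (c.filter (fun e => e.l ≤ m)) :=
  ⟨fun e he => h.ge e (List.mem_of_mem_filter he), h.pw.filter _,
    fun e he => h.bot e (List.mem_of_mem_filter he)⟩

/-- the context of a slot -/
theorem GC.slot {c : List En} (h : GC c) {d : En} {D : List En} (hD : IG (d :: D))
    (hb : inh (Lam ^ (ω : Ordinal.{0})) 1 (AA (d :: D)))
    (hc : ∀ e ∈ c, e.l < d.l → inh (aE e) (theta (aE e) (e.l - 1)) (AA (d :: D))) :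
    GC (c.filter (fun e => e.l < d.l) ++ d :: D) := by
  have hpw := hD.pairwise
  have hl : ∀ e' ∈ d :: D, d.l ≤ e'.l := by
    intro e' he'
    rcases List.mem_cons.1 he' with rfl | h1
    · exact le_rfl
    · exact ((List.pairwise_cons.1 hpw).1 e' h1).1.le
  refine ⟨?_, ?_, ?_⟩
  · intro e he
    rcases List.mem_append.1 he with h1 | h1
    · exact h.ge e (List.mem_of_mem_filter h1)
    · exact hD.all_ge e h1
  · refine List.pairwise_append.2 ⟨h.pw.filter _, hpw, ?_⟩
    intro e he e' he'
    obtain ⟨h1, h2⟩ := List.mem_filter.1 he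
    have h2 : e.l < d.l := by simpa using h2
    refine ⟨h2.trans_le (hl e' he'), ?_⟩
    refine hD.inh_all ?_ (hc e h1 h2) e' he'
    have h3 : 1 ≤ e.l := (h.ge e h1).one_le
    have h4 : theta (aE e) (e.l - 1) < Om (e.l - 1 + 1) := theta_lt_Om
    exact h4.le.trans (Om_le_Om (by omega))
  · intro e he
    rcases List.mem_append.1 he with h1 | h1
    · exact h.bot e (List.mem_of_mem_filter h1)
    · refine hD.inh_all ?_ hb e h1
      rw [← Om_zero]
      exact Om_le_Om (Nat.zero_le _)

/-- one can add `(n, n, S)` on top of the unstable last entry `(l, n, S)` -/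
theorem GC.insert {c : List En} {l n : ℕ} {S : List Pc} (h : GC (c ++ [.mk l n S])) (hln : l < n)
    (hS : S ≠ []) (hc : ∀ e ∈ c, e.S ≠ []) : GC (c ++ [.mk l n S] ++ [.mk n n S]) := by
  have hm : En.mk l n S ∈ c ++ [.mk l n S] := List.mem_append_right _ (List.mem_singleton_self _)
  have hge : GE (.mk l n S) := h.ge _ hm
  have hn : 1 ≤ n := hge.one_le.trans hge.le
  have hgs : GS n S := hge.gs_mk
  have hps : PS n S := hgs.ps hn
  have ha : aE (.mk n n S) = Lam * bS S := aE_stable n S
  have ha' := aE_unstable hln.ne S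
  have hlt : aE (.mk n n S) < aE (.mk l n S) := by
    rw [ha, ha']
    calc Lam * bS S < Lam * bS S + Lam := by
          simpa using (add_lt_add_iff_left (Lam * bS S)).2 Lam_pos
      _ ≤ max (Lam * bS S + Lam) (Nm l (bS S)) := le_max_left _ _
      _ ≤ _ := le_self_add
  have hge' : GE (.mk n n S) :=
    GE.of hn le_rfl (by rw [ha]; exact (hps.valid hn).1) hgs
  have key : ∀ A ζ : Ordinal.{0}, ζ ≤ Lam → Lam ≤ A → aE (.mk l n S) ∈ C A ζ →
      aE (.mk n n S) ∈ C A ζ := by
    intro A ζ hζ hA hx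
    rw [ha]
    have hp := hge.prt_mem hζ hA hx
    rw [En.mk_S] at hp
    exact C.mul (hps.bS_mem hn hζ hA hp)
  refine ⟨?_, ?_, ?_⟩
  · intro e he
    rcases List.mem_append.1 he with h1 | h1
    · exact h.ge e h1
    · rw [List.mem_singleton.1 h1]; exact hge'
  · refine List.pairwise_append.2 ⟨h.pw, List.pairwise_singleton _ _, ?_⟩
    intro e he e' he'
    rw [List.mem_singleton.1 he']
    rcases List.mem_append.1 he with h1 | h1
    · have h2 := (List.pairwise_append.1 h.pw).2.2 e h1 _ (List.mem_singleton_self _)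
      have h3 := (h.ge e he).hull (hc e h1)
      refine ⟨h2.1.trans hln, key _ _ theta_lt_Lam.le h3.big h2.2.1, hlt.trans h2.2.2⟩
    · rw [List.mem_singleton.1 h1]
      exact ⟨hln, key _ _ theta_lt_Lam.le (hge.hull (by rw [En.mk_S]; exact hS)).big (mem_C_theta hge.valid), hlt⟩
  · intro e he
    rcases List.mem_append.1 he with h1 | h1
    · exact h.bot e h1
    · rw [List.mem_singleton.1 h1]
      have h2 := h.bot _ hm
      refine ⟨key _ _ ?_ ?_ h2.1, hlt.trans h2.2⟩
      · rw [← Om_zero]; exact (Om_lt_Lam 0).le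
      · calc Lam = Lam ^ (1 : Ordinal.{0}) := (opow_one _).symm
          _ ≤ Lam ^ (ω : Ordinal.{0}) := opow_le_opow_right Lam_pos one_lt_omega0.le

end Kriz
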