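import Pool.Agent.Work.MP_0f6836_lc.UB.De

/-!
# Upper bound, block ME: semantics
-/

namespace Kriz

open Ordinal

theorem sizeOf_ch : ∀ (s : KT) (y : ℕ × KT), y ∈ s.ch → sizeOf y.2 < sizeOf s
  | .nil, y, h => by simp [KT.ch] at h
  | .cons l a r, y, h => by
    rw [KT.ch, List.mem_cons] at h
    rcases h with rfl | h
    · simp only [KT.cons.sizeOf_spec]
      omega
    · have := sizeOf_ch r y h
      simp only [KT.cons.sizeOf_spec]
      omega

theorem mem_iff {c : Set En} {y : ℕ × KT} : Mem c y ↔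
    (∀ y' ∈ y.2.ch, Mem (cle c y.1) y') ∧
      ∀ e ∈ c, e.l ≤ y.1 → ∃ π ∈ e.S, Fit (cle c y.1) π y.2.ch := by
  constructor
  · intro h
    cases h with
    | mk π L0 L2 os h0 h1 h2 h3 h5 h6 h7 h8 =>
      refine ⟨h0, fun e he hm => ⟨π e, h1 e he hm, L0 e, L2 e, os e, h2 e he hm, h3 e he hm,
        h5 e he hm, h6 e he hm, fun y hy => ⟨h7 e he hm y hy, h8 e he hm y hy⟩⟩⟩
  · obtain ⟨m, s⟩ := y
    rintro ⟨h0, h⟩
    have key : ∀ e : En, ∃ (π : Pc) (L0 L2 : List (ℕ × KT)) (os : List (Option (ℕ × KT))),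
        e ∈ c → e.l ≤ m → π ∈ e.S ∧ s.ch.Perm (L0 ++ (os.reduceOption ++ L2)) ∧
        L0.length ≤ π.f ∧ os.length = π.L.length ∧
        (∀ (i : ℕ) (D : List En) (y : ℕ × KT), π.L[i]? = some D → os[i]? = some (some y) →
          Mem (sctx D (cle c m)) y) ∧
        (∀ y ∈ L2, π.M ≠ [] ∧ Mem (sctx π.M (cle c m)) y) := by
      intro e
      by_cases he : e ∈ c ∧ e.l ≤ m
      · obtain ⟨π, hπ, L0, L2, os, g1, g2, g3, g4, g5⟩ := h e he.1 he.2
        exact ⟨π, L0, L2, os, fun _ _ => ⟨hπ, g1, g2, g3, g4, g5⟩⟩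
      · exact ⟨.mk 0 [] [], [], [], [], fun h1 h2 => absurd ⟨h1, h2⟩ he⟩
    choose π L0 L2 os hk using key
    exact Mem.mk π L0 L2 os h0 (fun e he hm => (hk e he hm).1) (fun e he hm => (hk e he hm).2.1)
      (fun e he hm => (hk e he hm).2.2.1) (fun e he hm => (hk e he hm).2.2.2.1)
      (fun e he hm => (hk e he hm).2.2.2.2.1)
      (fun e he hm y hy => ((hk e he hm).2.2.2.2.2 y hy).1)
      (fun e he hm y hy => ((hk e he hm).2.2.2.2.2 y hy).2)

theorem Fit.imp {c c' : Set En} {π : Pc} {L : List (ℕ × KT)} (h : Fit c π L)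
    (h1 : ∀ D ∈ π.L, ∀ y ∈ L, Mem (sctx D c) y → Mem (sctx D c') y)
    (h2 : π.M ≠ [] → ∀ y ∈ L, Mem (sctx π.M c) y → Mem (sctx π.M c') y) : Fit c' π L := by
  obtain ⟨L0, L2, os, g1, g2, g3, g4, g5⟩ := h
  refine ⟨L0, L2, os, g1, g2, g3, fun i D y hD hy => ?_, fun y hy => ?_⟩
  · refine h1 D (List.mem_of_getElem? hD) y ?_ (g4 i D y hD hy)
    rw [g1.mem_iff, List.mem_append, List.mem_append]
    right; left
    rw [List.reduceOption_mem_iff]
    exact List.mem_of_getElem? hy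
  · refine ⟨(g5 y hy).1, h2 (g5 y hy).1 y ?_ (g5 y hy).2⟩
    rw [g1.mem_iff, List.mem_append, List.mem_append]
    right; right
    exact hy

theorem Mem.mono_aux : ∀ (N : ℕ) {c c' : Set En} {y : ℕ × KT}, sizeOf y.2 < N → Mem c y →
    (∀ e ∈ c', e.l ≤ y.1 → e ∈ c) → Mem c' y
  | 0, _, _, _, hN, _, _ => absurd hN (Nat.not_lt_zero _)
  | N + 1, c, c', y, hN, h, hc => by
    rw [mem_iff] at h ⊢
    have hsl : ∀ D : List En, ∀ y' ∈ y.2.ch, Mem (sctx D (cle c y.1)) y' →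
        Mem (sctx D (cle c' y.1)) y' := by
      intro D y' hy' hm
      have hlt := sizeOf_ch _ _ hy'
      refine Mem.mono_aux N (by omega) hm ?_
      rintro e (he | ⟨he, he2⟩) _
      · exact Or.inl he
      · exact Or.inr ⟨⟨hc e he.1 he.2, he.2⟩, he2⟩
    refine ⟨fun y' hy' => ?_, fun e he hm => ?_⟩
    · have hlt := sizeOf_ch _ _ hy'
      refine Mem.mono_aux N (by omega) (h.1 y' hy') ?_
      rintro e he _
      exact ⟨hc e he.1 he.2, he.2⟩
    · obtain ⟨π, hπ, hf⟩ := h.2 e (hc e he hm) hm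
      exact ⟨π, hπ, hf.imp (fun D _ => hsl D) (fun _ => hsl _)⟩

theorem Mem.mono {c c' : Set En} {y : ℕ × KT} (h : Mem c y)
    (hc : ∀ e ∈ c', e.l ≤ y.1 → e ∈ c) : Mem c' y :=
  Mem.mono_aux _ (Nat.lt_succ_self _) h hc

theorem mem_insert_aux {l n : ℕ} {S : List Pc} (hln : l ≤ n)
    (hL : ∀ π ∈ S, ∀ D ∈ π.L, ∃ d ∈ D, d.l ≤ n) (hM : ∀ π ∈ S, π.M ≠ [] → ∃ d ∈ π.M, d.l ≤ n) :
    ∀ (N : ℕ) (c : Set En), En.mk l n S ∈ c →
    ∀ y : ℕ × KT, sizeOf y.2 < N → Mem c y → Mem (insert (.mk n n S) c) y := by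
  intro N
  induction N with
  | zero => intro c _ y hN; exact absurd hN (Nat.not_lt_zero _)
  | succ N ih =>
    intro c h y hN hy
    by_cases hny : n ≤ y.1
    · rw [mem_iff] at hy ⊢
      have hcle : cle (insert (En.mk n n S) c) y.1 = insert (En.mk n n S) (cle c y.1) := by
        ext e
        constructor
        · rintro ⟨rfl | he, he2⟩
          · exact Or.inl rfl
          · exact Or.inr ⟨he, he2⟩
        · rintro (rfl | he)
          · exact ⟨Or.inl rfl, hny⟩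
          · exact ⟨Or.inr he.1, he.2⟩
      have hmem : En.mk l n S ∈ cle c y.1 := ⟨h, hln.trans hny⟩
      rw [hcle]
      -- slots with a level `≤ n`
      have hlow : ∀ D : List En, (∃ d ∈ D, d.l ≤ n) → ∀ y', Mem (sctx D (cle c y.1)) y' →
          Mem (sctx D (insert (En.mk n n S) (cle c y.1))) y' := by
        rintro D ⟨d, hd, hdn⟩ y' hm
        refine hm.mono ?_
        rintro e (he | ⟨rfl | he, he2⟩) _
        · exact Or.inl he
        · exact absurd (he2 d hd) (by simp only [En.mk_l]; omega)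
        · exact Or.inr ⟨he, he2⟩
      have hsl : ∀ D : List En, ∀ y' ∈ y.2.ch, Mem (sctx D (cle c y.1)) y' →
          Mem (sctx D (insert (En.mk n n S) (cle c y.1))) y' := by
        intro D y' hy' hm
        by_cases hD : ∃ d ∈ D, d.l ≤ n
        · exact hlow D hD y' hm
        · push Not at hD
          have hlt := sizeOf_ch _ _ hy'
          have := ih (sctx D (cle c y.1))
            (Or.inr ⟨hmem, fun d hd => lt_of_le_of_lt hln (hD d hd)⟩) y' (by omega) hm
          refine this.mono ?_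
          rintro e (he | ⟨rfl | he, he2⟩) _
          · exact Or.inr (Or.inl he)
          · exact Or.inl rfl
          · exact Or.inr (Or.inr ⟨he, he2⟩)
      refine ⟨fun y' hy' => ?_, fun e he hm => ?_⟩
      · have hlt := sizeOf_ch _ _ hy'
        exact ih _ hmem y' (by omega) (hy.1 y' hy')
      · rcases he with rfl | he
        · obtain ⟨π, hπ, hf⟩ := hy.2 _ h (hln.trans hny)
          rw [En.mk_S] at hπ
          exact ⟨π, by rw [En.mk_S]; exact hπ, hf.imp (fun D hD y' _ => hlow D (hL π hπ D hD) y')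
            (fun hne y' _ => hlow _ (hM π hπ hne) y')⟩
        · obtain ⟨π, hπ, hf⟩ := hy.2 e he hm
          exact ⟨π, hπ, hf.imp (fun D _ => hsl D) (fun _ => hsl _)⟩
    · refine hy.mono ?_
      rintro e (rfl | he) hle
      · exact absurd hle hny
      · exact he

/-- `c` contains the unstable entry `(l, n, S)`: one can add `(n, n, S)` -/
theorem mem_insert {c : Set En} {l n : ℕ} {S : List Pc} (h : En.mk l n S ∈ c) (hln : l ≤ n)
    (hL : ∀ π ∈ S, ∀ D ∈ π.L, ∃ d ∈ D, d.l ≤ n) (hM : ∀ π ∈ S, π.M ≠ [] → ∃ d ∈ π.M, d.l ≤ n)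
    {y : ℕ × KT} (hy : Mem c y) : Mem (insert (.mk n n S) c) y :=
  mem_insert_aux hln hL hM _ c h y (Nat.lt_succ_self _) hy

end Kriz
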