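import Pool.Agent.Work.MP_0f6836_lc.UB.UDefs

/-!
# Upper bound, block ML: the multiset order
-/

namespace Kriz

theorem MLe.perm {L L' M M' : List (ℕ × KT)} (h : MLe L M) (hL : L.Perm L') (hM : M.Perm M') :
    MLe L' M' := by
  obtain ⟨N, hN, hF⟩ := h
  obtain ⟨w, hw, hw'⟩ := List.perm_comp_forall₂ hL.symm hF
  exact ⟨w, hw'.subperm.trans (hN.trans hM.subperm), hw⟩

theorem MLe.mono {L M M' : List (ℕ × KT)} (h : MLe L M) (hM : M.Subperm M') : MLe L M' := by
  obtain ⟨N, hN, hF⟩ := h
  exact ⟨N, hN.trans hM, hF⟩

theorem MLe.nil (M : List (ℕ × KT)) : MLe [] M := ⟨[], List.nil_subperm, List.Forall₂.nil⟩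

theorem MLe.append {L L' M M' : List (ℕ × KT)} (h : MLe L M) (h' : MLe L' M') :
    MLe (L ++ L') (M ++ M') := by
  obtain ⟨N, ⟨N1, hN1, hN2⟩, hF⟩ := h
  obtain ⟨N', ⟨N1', hN1', hN2'⟩, hF'⟩ := h'
  exact ⟨N ++ N', ⟨N1 ++ N1', hN1.append hN1', hN2.append hN2'⟩, List.rel_append hF hF'⟩

theorem MLe.cons {L M : List (ℕ × KT)} {z y : ℕ × KT} (hzy : Rel z y) (h : MLe L M) :
    MLe (z :: L) (y :: M) := by
  obtain ⟨N, ⟨N1, hN1, hN2⟩, hF⟩ := h
  exact ⟨y :: N, ⟨y :: N1, hN1.cons y, hN2.cons_cons y⟩, List.Forall₂.cons hzy hF⟩

/-- a permutation gives an injection of positions -/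
theorem perm_inj {α : Type} {l l' : List α} (h : l.Perm l') :
    ∃ σ : Fin l.length → Fin l'.length, Function.Injective σ ∧ ∀ i, l.get i = l'.get (σ i) := by
  classical
  induction h with
  | nil => exact ⟨id, fun _ _ h => h, fun _ => rfl⟩
  | @cons x l1 l2 _ ih =>
    obtain ⟨σ, hσ, h⟩ := ih
    refine ⟨fun i => Fin.cases (motive := fun _ => Fin (l2.length + 1)) 0 (fun i => (σ i).succ) i,
      ?_, ?_⟩
    · intro i j
      refine Fin.cases ?_ (fun i => ?_) i <;> refine Fin.cases ?_ (fun j => ?_) j
      · intro _; rfl
      · intro h; exact absurd h.symm (Fin.succ_ne_zero _)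
      · intro h; exact absurd h (Fin.succ_ne_zero _)
      · intro h
        exact congrArg Fin.succ (hσ (Fin.succ_injective _ h))
    · intro i
      refine Fin.cases ?_ (fun i => ?_) i
      · rfl
      · exact h i
  | swap x y l =>
    refine ⟨fun i => Fin.cases (motive := fun _ => Fin (l.length + 2)) 1
      (fun i => Fin.cases (motive := fun _ => Fin (l.length + 2)) 0 (fun i => i.succ.succ) i) i,
      ?_, ?_⟩
    · intro i j
      refine Fin.cases ?_ (fun i => ?_) i <;> refine Fin.cases ?_ (fun j => ?_) j
      · intro _; rfl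
      · refine Fin.cases ?_ (fun j => ?_) j
        · intro h
          have h1 : (1 : ℕ) = 0 := congrArg Fin.val h
          exact absurd h1 one_ne_zero
        · intro h
          have h1 : (1 : ℕ) = j.1 + 1 + 1 := congrArg Fin.val h
          omega
      · refine Fin.cases ?_ (fun i => ?_) i
        · intro h
          have h1 : (0 : ℕ) = 1 := congrArg Fin.val h
          exact absurd h1 zero_ne_one
        · intro h
          have h1 : i.1 + 1 + 1 = (1 : ℕ) := congrArg Fin.val h
          omega
      · refine Fin.cases ?_ (fun i => ?_) i <;> refine Fin.cases ?_ (fun j => ?_) j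
        · intro _; rfl
        · intro h
          have h1 : (0 : ℕ) = j.1 + 1 + 1 := congrArg Fin.val h
          omega
        · intro h
          have h1 : i.1 + 1 + 1 = (0 : ℕ) := congrArg Fin.val h
          omega
        · intro h
          exact h
    · intro i
      refine Fin.cases ?_ (fun i => ?_) i
      · rfl
      · refine Fin.cases ?_ (fun i => ?_) i
        · rfl
        · rfl
  | trans _ _ ih1 ih2 =>
    obtain ⟨σ, hσ, h⟩ := ih1
    obtain ⟨τ, hτ, h'⟩ := ih2
    exact ⟨fun i => τ (σ i), hτ.comp hσ, fun i => (h i).trans (h' (σ i))⟩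

theorem sublist_inj {α : Type} {l l' : List α} (h : l.Sublist l') :
    ∃ σ : Fin l.length → Fin l'.length, Function.Injective σ ∧ ∀ i, l.get i = l'.get (σ i) := by
  obtain ⟨f, hf⟩ := List.sublist_iff_exists_fin_orderEmbedding_get_eq.1 h
  exact ⟨f, f.injective, hf⟩

theorem at_of_MLe {t s : KT} (h : MLe t.ch s.ch) : At t s := by
  obtain ⟨M, ⟨M1, hp, hs⟩, hF⟩ := h
  obtain ⟨σ, hσ, h1⟩ := perm_inj hp.symm
  obtain ⟨τ, hτ, h2⟩ := sublist_inj hs
  have hlen := hF.length_eq
  have hR : ∀ i : Fin t.ch.length, Rel (t.ch.get i) (s.ch.get (τ (σ (Fin.cast hlen i)))) := by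
    intro i
    rw [← h2, ← h1]
    exact List.Forall₂.get hF i.2 (by rw [← hlen]; exact i.2)
  refine ⟨fun i => τ (σ (Fin.cast hlen i)), ?_, fun i => (hR i).1, fun i => (hR i).2⟩
  intro i j hij
  have h3 := congrArg Fin.val (hσ (hτ hij))
  exact Fin.ext h3

open Classical in
theorem MLe_of_many : ∀ {L M : List (ℕ × KT)},
    (∀ z ∈ L, L.length ≤ (M.filter (fun y => decide (Rel z y))).length) → MLe L M
  | [], M, _ => MLe.nil M
  | z :: L, M, h => by
    have h1 := h z List.mem_cons_self
    rw [List.length_cons] at h1
    obtain ⟨y, hy⟩ := List.exists_mem_of_length_pos (by omega :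
      0 < (M.filter (fun y => decide (Rel z y))).length)
    rw [List.mem_filter] at hy
    have hp : M.Perm (y :: M.erase y) := List.perm_cons_erase hy.1
    have h2 : MLe L (M.erase y) := by
      refine MLe_of_many fun z' hz' => ?_
      have h3 := h z' (List.mem_cons_of_mem _ hz')
      rw [(hp.filter _).length_eq, List.filter_cons, List.length_cons] at h3
      split_ifs at h3 with h4
      · rw [List.length_cons] at h3
        omega
      · omega
    exact (MLe.cons (of_decide_eq_true hy.2) h2).perm (List.Perm.refl _) hp.symm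

open Classical in
/-- greedy choice: if the multiset order fails then some `z ∈ L` has fewer than `|L|` elements of
`M` above it -/
theorem exists_few {L M : List (ℕ × KT)} (h : ¬ MLe L M) :
    ∃ z ∈ L, (M.filter (fun y => decide (Rel z y))).length < L.length := by
  by_contra hc
  push Not at hc
  exact h (MLe_of_many hc)

/-- position-wise matching of partial lists -/
theorem MLe_reduceOption {os os' : List (Option (ℕ × KT))} (hlen : os.length = os'.length)
    (h : ∀ i (hi : i < os.length) z, os[i] = some z →
      ∃ y, os'[i]? = some (some y) ∧ Rel z y) : MLe os.reduceOption os'.reduceOption := by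
  induction os generalizing os' with
  | nil => exact MLe.nil _
  | cons o os ih =>
    cases os' with
    | nil => simp at hlen
    | cons o' os' =>
      have hlen' : os.length = os'.length := by simpa using hlen
      have ih' : MLe os.reduceOption os'.reduceOption := by
        refine ih hlen' fun i hi z hz => ?_
        obtain ⟨y, hy, hzy⟩ := h (i + 1) (by simpa using hi) z (by simpa using hz)
        exact ⟨y, by simpa using hy, hzy⟩
      cases o with
      | none =>
        rw [List.reduceOption_cons_of_none]
        refine ih'.mono ?_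
        cases o' with
        | none => rw [List.reduceOption_cons_of_none]
        | some y =>
          rw [List.reduceOption_cons_of_some]
          exact (List.sublist_cons_self _ _).subperm
      | some z =>
        obtain ⟨y, hy, hzy⟩ := h 0 (by simp) z (by simp)
        have hy' : o' = some y := by simpa using hy
        subst hy'
        rw [List.reduceOption_cons_of_some, List.reduceOption_cons_of_some]
        exact MLe.cons hzy ih'

end Kriz
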