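import Pool.Agent.Work.MP_0f6836_lc.UB.EGB

/-!
# Block NM: the norms `N_l`
-/

namespace Kriz

open Ordinal

theorem nm_self {l : ℕ} {x A : Ordinal.{0}} (hx : x ∈ C A (Om l)) : x ∈ C (Nm l x) (Om l) :=
  csInf_mem (s := {B | x ∈ C B (Om l)}) ⟨A, hx⟩

theorem nm_le {l : ℕ} {x B : Ordinal.{0}} (h : x ∈ C B (Om l)) : Nm l x ≤ B :=
  csInf_le' h

theorem mem_C_iff_Nm_le {l : ℕ} {x B A : Ordinal.{0}} (hx : x ∈ C A (Om l)) :
    x ∈ C B (Om l) ↔ Nm l x ≤ B :=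
  ⟨nm_le, fun h => C_mono h le_rfl (nm_self hx)⟩

/-- finiteness of derivations -/
theorem exists_lt_of_mem {A ζ x : Ordinal.{0}} (hA : ∀ B < A, B + 1 < A) (hA0 : 0 < A)
    (hx : x ∈ C A ζ) : ∃ B < A, x ∈ C B ζ := by
  refine C.induct (P := fun x => ∃ B < A, x ∈ C B ζ) ⟨0, hA0, C.zero⟩
    (fun ξ hξ => ⟨0, hA0, C.base hξ⟩) ?_ ?_ ?_ hx
  · rintro a b - - ⟨B, hB, ha⟩ ⟨B', hB', hb⟩
    exact ⟨max B B', max_lt hB hB', C.add (C_mono (le_max_left _ _) le_rfl ha)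
      (C_mono (le_max_right _ _) le_rfl hb)⟩
  · rintro a - ⟨B, hB, ha⟩
    exact ⟨B, hB, C.mul ha⟩
  · rintro δ w hδ - ⟨B, hB, hm⟩
    refine ⟨max B (δ + 1), max_lt hB (hA δ hδ), C.coll w ?_ (C_mono (le_max_left _ _) le_rfl hm)⟩
    exact (lt_add_one δ).trans_le (le_max_right _ _)

theorem Nm_lt {l : ℕ} {A x : Ordinal.{0}} (hA : ∀ B < A, B + 1 < A) (hA0 : 0 < A)
    (hx : x ∈ C A (Om l)) : Nm l x < A := by
  obtain ⟨B, hB, h⟩ := exists_lt_of_mem hA hA0 hx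
  exact (nm_le h).trans_lt hB

theorem nm_eq_max {l : ℕ} {x y z A : Ordinal.{0}} (hy : y ∈ C A (Om l)) (hz : z ∈ C A (Om l))
    (h : ∀ B, x ∈ C B (Om l) ↔ y ∈ C B (Om l) ∧ z ∈ C B (Om l)) :
    Nm l x = max (Nm l y) (Nm l z) := by
  apply le_antisymm
  · apply nm_le
    rw [h]
    exact ⟨C_mono (le_max_left _ _) le_rfl (nm_self hy),
      C_mono (le_max_right _ _) le_rfl (nm_self hz)⟩
  · have hx : x ∈ C (Nm l x) (Om l) := nm_self ((h A).2 ⟨hy, hz⟩)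
    obtain ⟨h1, h2⟩ := (h _).1 hx
    exact max_le (nm_le h1) (nm_le h2)

theorem nm_zero {l : ℕ} {x : Ordinal.{0}} (h : x ∈ C 0 (Om l)) : Nm l x = 0 :=
  le_antisymm (nm_le h) zero_le

theorem nm_max_mem {A ζ a b : Ordinal.{0}} (ha : a ∈ C A ζ) (hb : b ∈ C A ζ) :
    max a b ∈ C A ζ := by
  rcases le_total a b with h | h
  · rwa [max_eq_right h]
  · rwa [max_eq_left h]

/-- `theta 0 0 = 1` -/
theorem nm_theta_zero : theta 0 0 = 1 := by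
  have h1 : (1 : Ordinal.{0}) ∈ cand 0 0 (fun δ _ w => theta δ w) := by
    refine ⟨Om_zero.le, ?_, InC.zero, ?_⟩
    · have := Om_lt_Om (v := 0) (w := 1) one_pos
      rwa [Om_zero] at this
    · intro ξ hξ _
      have h0 : ξ = 0 := by
        refine C.induct (α := 0) (ζ := 1) (P := fun ξ => ξ = 0) rfl
          (fun ξ hξ => Order.lt_one_iff.1 hξ) ?_ ?_ ?_ hξ
        · rintro a b - - rfl rfl; exact add_zero 0
        · rintro a - rfl; exact mul_zero _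
        · intro δ w hδ; exact absurd hδ (not_lt_of_ge zero_le)
      rw [h0]; exact zero_lt_one
  apply le_antisymm
  · rw [theta_eq]; exact csInf_le' h1
  · have : Valid 0 0 := ⟨1, h1⟩
    exact Om_zero ▸ Om_le_theta this

theorem nm_one_mem {A ζ : Ordinal.{0}} (hA : 0 < A) : (1 : Ordinal.{0}) ∈ C A ζ := by
  rw [← nm_theta_zero]
  exact C.coll 0 hA C.zero

/-- the norm of a value of `theta` -/
theorem nm_theta {l w : ℕ} {δ A : Ordinal.{0}} (hv : Valid w δ) (hlw : l ≤ w)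
    (hδ : δ ∈ C A (Om l)) : Nm l (theta δ w) = max (δ + 1) (Nm l δ) := by
  have hL : Om l ≤ Lam := (Om_lt_Lam l).le
  have key : ∀ B, theta δ w ∈ C B (Om l) ↔ δ < B ∧ δ ∈ C B (Om l) := by
    intro B
    constructor
    · intro h
      obtain ⟨h1, h2⟩ := S3 hL hv h ((Om_le_Om hlw).trans (Om_le_theta hv))
      exact ⟨h2, h1⟩
    · rintro ⟨h1, h2⟩
      exact C.coll w h1 h2
  apply le_antisymm
  · apply nm_le
    rw [key]
    exact ⟨(lt_add_one δ).trans_le (le_max_left _ _),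
      C_mono (le_max_right _ _) le_rfl (nm_self hδ)⟩
  · have hx : theta δ w ∈ C (Nm l (theta δ w)) (Om l) := by
      refine nm_self (A := max (δ + 1) A) ?_
      rw [key]
      exact ⟨(lt_add_one δ).trans_le (le_max_left _ _), C_mono (le_max_right _ _) le_rfl hδ⟩
    obtain ⟨h1, h2⟩ := (key _).1 hx
    exact max_le (Order.add_one_le_of_lt h1) (nm_le h2)

theorem nm_BG {l : ℕ} {A ζ : Ordinal.{0}} (hζ : ζ ≤ Om l) {G : Set Ordinal.{0}}
    (hG : ∀ π ∈ G, Pr π ∧ π < Lam) (hG' : ∀ π ∈ G, π ∈ C A ζ ∧ Nm l π ∈ C A ζ)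
    {b : Ordinal.{0}} (hb : BG G b) : b ∈ C A ζ ∧ Nm l b ∈ C A ζ := by
  have hL : Om l ≤ Lam := (Om_lt_Lam l).le
  induction b using WellFoundedLT.induction with
  | ind b ih =>
    by_cases h0 : b = 0
    · subst h0
      exact ⟨C.zero, by rw [nm_zero C.zero]; exact C.zero⟩
    · obtain ⟨π, x, hπ, hπ0, hx, -, he, hlt, hle⟩ := exists_lead h0
      obtain ⟨h1, h2⟩ := BG_lead hG hb π x ⟨hπ, hπ0⟩ hx he
      obtain ⟨h3, h4⟩ := ih x hlt h2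
      obtain ⟨h5, h6⟩ := hG' π h1
      have e : Nm l b = max (Nm l π) (Nm l x) := by
        refine nm_eq_max (A := A) (C_mono le_rfl hζ h5) (C_mono le_rfl hζ h3) ?_
        intro B
        rw [he]
        exact ⟨S2 hL hπ hπ0 (hG π h1).2 hx, fun h => C.add h.1 h.2⟩
      refine ⟨?_, ?_⟩
      · rw [he]; exact C.add h5 h3
      · rw [e]; exact nm_max_mem h6 h4

theorem nm_EG {l : ℕ} {A ζ : Ordinal.{0}} (hζ : ζ ≤ Om l) {G : Set Ordinal.{0}}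
    (hG : ∀ π ∈ G, Pr π ∧ π < Lam) (hG' : ∀ π ∈ G, π ∈ C A ζ ∧ Nm l π ∈ C A ζ)
    {x : Ordinal.{0}} (hx : EG G x) : x ∈ C A ζ ∧ Nm l x ∈ C A ζ := by
  have hL : Om l ≤ Lam := (Om_lt_Lam l).le
  induction hx with
  | zero => exact ⟨C.zero, by rw [nm_zero C.zero]; exact C.zero⟩
  | @step a b ha hb ih =>
    obtain ⟨h1, h2⟩ := ih
    obtain ⟨h3, h4⟩ := nm_BG hζ hG hG' hb
    have e : Nm l (Lam * a + b) = max (Nm l a) (Nm l b) := by
      refine nm_eq_max (A := A) (C_mono le_rfl hζ h1) (C_mono le_rfl hζ h3) ?_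
      intro B
      exact ⟨S1 hL (eg_BG_lt hG hb), fun h => C.add (C.mul h.1) h.2⟩
    exact ⟨C.add (C.mul h1) h3, by rw [e]; exact nm_max_mem h2 h4⟩

theorem Nm_mem {l : ℕ} {x A ζ : Ordinal.{0}} (hζ : ζ ≤ Om l) (hx : x ∈ C A ζ) (hA : 0 < A) :
    Nm l x ∈ C A ζ := by
  have hL : ζ ≤ Lam := hζ.trans (Om_lt_Lam l).le
  let G : Set Ordinal.{0} := {π | (Pr π ∧ π < Lam) ∧ π ∈ C A ζ ∧ Nm l π ∈ C A ζ}
  have hG : ∀ π ∈ G, Pr π ∧ π < Lam := fun π h => h.1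
  have hG' : ∀ π ∈ G, π ∈ C A ζ ∧ Nm l π ∈ C A ζ := fun π h => h.2
  refine (nm_EG hζ hG hG' (C_comp_induct hL hG ?_ ?_ hx)).2
  · intro π hπ hlt
    refine ⟨⟨hπ, hlt.trans_le hL⟩, C.base hlt, ?_⟩
    rw [nm_zero (C.base (hlt.trans_le hζ))]
    exact C.zero
  · intro δ w hv hδ hm hE
    refine ⟨⟨⟨theta_principal, theta_pos hv⟩, theta_lt_Lam⟩, C.coll w hδ hm, ?_⟩
    rcases lt_or_ge w l with hwl | hwl
    · rw [nm_zero (C.base (theta_lt_Om.trans_le (Om_le_Om hwl)))]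
      exact C.zero
    · rw [nm_theta hv hwl (C_mono le_rfl hζ hm)]
      exact nm_max_mem (C.add hm (nm_one_mem hA)) (nm_EG hζ hG hG' hE).2

end Kriz
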