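import Pool.Agent.Work.MP_0f6836_lc.UB.UDefs

/-!
# Block NS1: arithmetic of `ins`
-/

namespace Kriz

open Ordinal

theorem ins_lt_ins {π x y : Ordinal.{0}} (hπ : 0 < π) (h : x < y) : ins π x < ins π y := by
  unfold ins
  rcases (Ordinal.div_le_left h.le π).lt_or_eq with h1 | h1
  · have h2 : π * (x / π + 1) + x % π < π * (x / π + 1 + 1) := by
      rw [mul_add_one π (x / π + 1)]
      exact add_lt_add_right (Ordinal.mod_lt _ hπ.ne') _
    refine h2.trans_le (le_trans ?_ le_self_add)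
    exact mul_le_mul_right (add_le_add_left (Order.add_one_le_of_lt h1) 1) π
  · rw [h1]
    refine add_lt_add_right ?_ _
    by_contra hc
    push Not at hc
    have h3 : y ≤ x := by
      rw [← Ordinal.div_add_mod x π, ← Ordinal.div_add_mod y π, h1]
      exact add_le_add_right hc _
    exact absurd h (not_lt.2 h3)

theorem lt_ins {π x : Ordinal.{0}} (hπ : 0 < π) : x < ins π x := by
  unfold ins
  conv_lhs => rw [← Ordinal.div_add_mod x π]
  refine lt_of_lt_of_le ?_ le_self_add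
  rw [mul_add_one]
  exact add_lt_add_right (Ordinal.mod_lt _ hπ.ne') _

theorem ns1_dvd {π ρ : Ordinal.{0}} (hπ : Pr π) (hρ : Pr ρ) (h : π < ρ) : π ∣ ρ := by
  rcases isPrincipal_add_iff_zero_or_omega0_opow.1 hπ.1 with h0 | ⟨a, ha⟩
  · exact absurd h0 hπ.2.ne'
  · rcases isPrincipal_add_iff_zero_or_omega0_opow.1 hρ.1 with h0 | ⟨b, hb⟩
    · exact absurd h0 hρ.2.ne'
    · rw [← ha, ← hb] at h ⊢
      have hab : a < b := by
        by_contra hc
        push Not at hc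
        exact absurd h (not_lt.2 (Ordinal.opow_le_opow_right omega0_pos hc))
      exact Ordinal.opow_dvd_opow _ hab.le

theorem ins_lt_of_lt {π ρ x : Ordinal.{0}} (hπ : Pr π) (hρ : Pr ρ) (h : π < ρ) (hx : x < ρ) :
    ins π x < ρ := by
  unfold ins
  rw [mul_add_one]
  have h1 : π * (x / π) < ρ := (Ordinal.mul_div_le x π).trans_lt hx
  have h2 : x % π < ρ := (Ordinal.mod_lt _ hπ.2.ne').trans h
  exact hρ.1 (hρ.1 h1 h) h2

/-- if `π < ρ` the quotient by `ρ` does not change -/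
theorem ins_eq_of_lt {π ρ x : Ordinal.{0}} (hπ : Pr π) (hρ : Pr ρ) (h : π < ρ) :
    ins π x = ρ * (x / ρ) + ins π (x % ρ) ∧ ins π (x % ρ) < ρ := by
  refine ⟨?_, ins_lt_of_lt hπ hρ h (Ordinal.mod_lt _ hρ.2.ne')⟩
  obtain ⟨ρ', rfl⟩ := ns1_dvd hπ hρ h
  have hx := Ordinal.div_add_mod x (π * ρ')
  generalize x / (π * ρ') = q at hx ⊢
  generalize x % (π * ρ') = r at hx ⊢
  have h1 : x / π = ρ' * q + r / π := by
    rw [← hx, mul_assoc, Ordinal.mul_add_div _ hπ.2.ne']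
  have h2 : x % π = r % π := by
    rw [← hx, mul_assoc, Ordinal.mul_add_mod_self]
  unfold ins
  rw [h1, h2, add_assoc, mul_add, mul_assoc, add_assoc]

theorem ns1_div_mod {ρ q r : Ordinal.{0}} (hr : r < ρ) :
    (ρ * q + r) / ρ = q ∧ (ρ * q + r) % ρ = r := by
  have h0 : ρ ≠ 0 := (pos_of_gt hr).ne'
  constructor
  · rw [Ordinal.mul_add_div _ h0, Ordinal.div_eq_zero_of_lt hr, add_zero]
  · rw [Ordinal.mul_add_mod_self, Ordinal.mod_eq_of_lt hr]

theorem ns1_comm {π ρ : Ordinal.{0}} (hπ : Pr π) (hρ : Pr ρ) (h : π < ρ) (x : Ordinal.{0}) :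
    ins π (ins ρ x) = ins ρ (ins π x) := by
  obtain ⟨h1, h2⟩ := ins_eq_of_lt (x := x) hπ hρ h
  obtain ⟨h3, -⟩ := ins_eq_of_lt (x := ins ρ x) hπ hρ h
  have hr : x % ρ < ρ := Ordinal.mod_lt _ hρ.2.ne'
  have h4 : ins ρ x / ρ = x / ρ + 1 ∧ ins ρ x % ρ = x % ρ := ns1_div_mod hr
  have h5 : ins π x / ρ = x / ρ ∧ ins π x % ρ = ins π (x % ρ) := by
    rw [h1]; exact ns1_div_mod h2
  rw [h3, h4.1, h4.2]
  have h6 : ins ρ (ins π x) = ρ * (ins π x / ρ + 1) + ins π x % ρ := rfl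
  rw [h6, h5.1, h5.2]

theorem ins_comm {π ρ : Ordinal.{0}} (hπ : Pr π) (hρ : Pr ρ) (x : Ordinal.{0}) :
    ins π (ins ρ x) = ins ρ (ins π x) := by
  rcases lt_trichotomy π ρ with h | h | h
  · exact ns1_comm hπ hρ h x
  · rw [h]
  · exact (ns1_comm hρ hπ h x).symm

/-- finitely many principal ordinals `< π` are together smaller than `π` -/
theorem foldr_ins_lt {π : Ordinal.{0}} (hπ : Pr π) {N : List Ordinal.{0}}
    (hN : ∀ σ ∈ N, Pr σ ∧ σ < π) (x : Ordinal.{0}) : N.foldr ins x < ins π x := by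
  have key : N.foldr ins x = π * (x / π) + N.foldr ins (x % π) ∧
      N.foldr ins (x % π) < π := by
    induction N with
    | nil => exact ⟨(Ordinal.div_add_mod x π).symm, Ordinal.mod_lt _ hπ.2.ne'⟩
    | cons σ N ih =>
      obtain ⟨h1, h2⟩ := ih (fun τ hτ => hN τ (List.mem_cons_of_mem _ hτ))
      obtain ⟨hσ, hlt⟩ := hN σ List.mem_cons_self
      rw [List.foldr_cons, List.foldr_cons]
      refine ⟨?_, ins_lt_of_lt hσ hπ hlt h2⟩
      rw [h1, (ins_eq_of_lt (x := π * (x / π) + N.foldr ins (x % π)) hσ hπ hlt).1,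
        (ns1_div_mod h2).1, (ns1_div_mod h2).2]
  rw [key.1]
  unfold ins
  refine lt_of_lt_of_le ?_ le_self_add
  rw [mul_add_one]
  exact add_lt_add_right key.2 _

end Kriz
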