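import Pool.Agent.Work.MP_0f6836_lc.UB.NS1

/-!
# Block NS2: `nsum`
-/

namespace Kriz

open Ordinal

theorem nsum_cons (π : Ordinal.{0}) (P : List Ordinal.{0}) : nsum (π :: P) = ins π (nsum P) := rfl

theorem nsum_append (N P : List Ordinal.{0}) : nsum (N ++ P) = N.foldr ins (nsum P) := by
  rw [nsum, List.foldr_append]; rfl

theorem nsum_perm {P Q : List Ordinal.{0}} (hP : ∀ π ∈ P, Pr π) (h : P.Perm Q) :
    nsum P = nsum Q := by
  induction h with
  | nil => rfl
  | cons x _ ih =>
    rw [nsum_cons, nsum_cons, ih (fun π hπ => hP π (List.mem_cons_of_mem _ hπ))]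
  | swap x y l =>
    rw [nsum_cons, nsum_cons, nsum_cons, nsum_cons, ins_comm (hP y (by simp)) (hP x (by simp))]
  | trans h1 h2 ih1 ih2 =>
    rw [ih1 hP, ih2 (fun π hπ => hP π (h1.mem_iff.2 hπ))]

theorem nsum_lt {P : List Ordinal.{0}} {ρ : Ordinal.{0}} (hρ : Pr ρ)
    (h : ∀ π ∈ P, Pr π ∧ π < ρ) : nsum P < ρ := by
  induction P with
  | nil => exact hρ.2
  | cons x P ih =>
    rw [nsum_cons]
    exact ins_lt_of_lt (h x (by simp)).1 hρ (h x (by simp)).2
      (ih fun π hπ => h π (List.mem_cons_of_mem _ hπ))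

theorem ins_le_ins {π x y : Ordinal.{0}} (hπ : 0 < π) (h : x ≤ y) : ins π x ≤ ins π y := by
  rcases h.eq_or_lt with rfl | h
  · exact le_rfl
  · exact (ins_lt_ins hπ h).le

theorem nsum_le_nsum {P P' : List Ordinal.{0}}
    (hP : ∀ σ ∈ P, Pr σ) (hP' : ∀ σ ∈ P', Pr σ) (hle : List.Forall₂ (· ≤ ·) P' P) :
    nsum P' ≤ nsum P := by
  induction hle with
  | nil => exact le_rfl
  | @cons a b l₁ l₂ hab hl ih =>
    rw [nsum_cons, nsum_cons]
    have h1 := ih (fun σ hσ => hP σ (List.mem_cons_of_mem _ hσ))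
      (fun σ hσ => hP' σ (List.mem_cons_of_mem _ hσ))
    have ha := hP' a (by simp)
    have hb := hP b (by simp)
    refine (ins_le_ins ha.2 h1).trans ?_
    rcases hab.eq_or_lt with rfl | hab
    · exact le_rfl
    · have := foldr_ins_lt hb (N := [a]) (by simpa using ⟨ha, hab⟩) (nsum l₂)
      exact this.le

/-- replace `π` by finitely many smaller principal ordinals and decrease the others weakly -/
theorem nsum_lt_nsum {P P' N : List Ordinal.{0}} {π : Ordinal.{0}} (hπ : Pr π)
    (hP : ∀ σ ∈ P, Pr σ) (hP' : ∀ σ ∈ P', Pr σ) (hle : List.Forall₂ (· ≤ ·) P' P)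
    (hN : ∀ σ ∈ N, Pr σ ∧ σ < π) : nsum (N ++ P') < nsum (π :: P) := by
  rw [nsum_append, nsum_cons]
  exact (foldr_ins_lt hπ hN _).trans_le (ins_le_ins hπ.2 (nsum_le_nsum hP hP' hle))

theorem le_nsum {P : List Ordinal.{0}} {π : Ordinal.{0}} (hP : ∀ σ ∈ P, Pr σ) (h : π ∈ P) :
    π ≤ nsum P := by
  induction P with
  | nil => simp at h
  | cons x P ih =>
    rw [nsum_cons]
    rcases List.mem_cons.1 h with rfl | h
    · unfold ins
      exact (le_mul_of_one_le_right' (by simp)).trans le_self_add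
    · exact (ih (fun σ hσ => hP σ (List.mem_cons_of_mem _ hσ)) h).trans
        (lt_ins (hP x (by simp)).2).le

theorem add_one_lt_nsum {P : List Ordinal.{0}} (hP : ∀ σ ∈ P, Pr σ ∧ 1 < σ) {x : Ordinal.{0}}
    (h : x < nsum P) : x + 1 < nsum P := by
  induction P generalizing x with
  | nil => exact absurd h (not_lt_of_ge zero_le)
  | cons σ P ih =>
    have hσ := hP σ (by simp)
    have ih : ∀ {z}, z < nsum P → z + 1 < nsum P := fun h =>
      ih (fun σ hσ => hP σ (List.mem_cons_of_mem _ hσ)) h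
    rw [nsum_cons] at h ⊢
    generalize nsum P = y at h ih ⊢
    unfold ins at h ⊢
    by_cases h0 : y % σ = 0
    · rw [h0, add_zero] at h ⊢
      rw [mul_add_one] at h ⊢
      by_cases hx : x < σ * (y / σ)
      · have : x + 1 ≤ σ * (y / σ) := Order.add_one_le_of_lt hx
        exact this.trans_lt (lt_add_of_pos_right _ hσ.1.2)
      · obtain ⟨w, rfl⟩ := exists_add_of_le (not_lt.1 hx)
        rw [add_assoc]
        exact (add_lt_add_iff_left _).2 (hσ.1.1 ((add_lt_add_iff_left _).1 h) hσ.2)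
    · by_cases hx : x < σ * (y / σ + 1)
      · have h1 : x + 1 ≤ σ * (y / σ + 1) := Order.add_one_le_of_lt hx
        exact h1.trans_lt (lt_add_of_pos_right _ (pos_iff_ne_zero.2 h0))
      · obtain ⟨w, rfl⟩ := exists_add_of_le (not_lt.1 hx)
        rw [add_assoc]
        have hw := (add_lt_add_iff_left _).1 h
        refine (add_lt_add_iff_left _).2 ?_
        have h2 : σ * (y / σ) + w < y := by
          conv_rhs => rw [← Ordinal.div_add_mod y σ]
          exact (add_lt_add_iff_left _).2 hw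
        have h3 := ih h2
        have h4 : σ * (y / σ) + (w + 1) < σ * (y / σ) + y % σ := by
          rw [Ordinal.div_add_mod, ← add_assoc]; exact h3
        exact (add_lt_add_iff_left _).1 h4

end Kriz
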