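import Pool.Agent.Work.MP_0f6836_lc.UB.UDefs

/-!
# Upper bound, block O2: from recursive embeddings to official embeddings
-/

namespace Kriz

/-- the tree with a given list of branches -/
def KT.ofList : List (ℕ × KT) → KT
  | [] => KT.nil
  | p :: L => KT.cons p.1 p.2 (KT.ofList L)

theorem KT.ch_ofList : ∀ L : List (ℕ × KT), (KT.ofList L).ch = L
  | [] => rfl
  | p :: L => by
    show (p.1, p.2) :: (KT.ofList L).ch = p :: L
    rw [KT.ch_ofList L]

theorem KT.pos_of_ch : ∀ t : KT, (∀ p ∈ t.ch, 0 < p.1 ∧ p.2.Pos) → t.Pos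
  | .nil, _ => True.intro
  | .cons l s r, h => by
    have h1 := h (l, s) List.mem_cons_self
    exact ⟨h1.1, h1.2, KT.pos_of_ch r fun p hp => h p (List.mem_cons_of_mem _ hp)⟩

theorem get_eq_of_ofFn {α : Type} {n : ℕ} (M : List α) (f : Fin n → α) (hM : M = List.ofFn f)
    (h : M.length = n) (i : Fin M.length) : M.get i = f (Fin.cast h i) := by
  subst hM
  simp only [List.get_eq_getElem, List.getElem_ofFn]
  rfl

namespace LTree

theorem Anc.total {T : LTree} {x y z : T.V} (hx : T.Anc x z) (hy : T.Anc y z) :
    T.Anc x y ∨ T.Anc y x := by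
  obtain ⟨n, hn⟩ := hx
  obtain ⟨m, hm⟩ := hy
  rcases le_total n m with h | h
  · right
    refine ⟨m - n, ?_⟩
    rw [← hn, ← Function.iterate_add_apply, Nat.sub_add_cancel h, hm]
  · left
    refine ⟨n - m, ?_⟩
    rw [← hm, ← Function.iterate_add_apply, Nat.sub_add_cancel h, hn]

theorem child_unique {T : LTree} {a c c' z : T.V} (hc : T.IsChild c a) (hc' : T.IsChild c' a)
    (h : T.Anc c z) (h' : T.Anc c' z) : c = c' := by
  rcases h.total h' with h1 | h1
  · rcases anc_cases h1 with h2 | h2
    · exact h2
    · rw [hc'.2] at h2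
      exact absurd h2 hc.not_anc
  · rcases anc_cases h1 with h2 | h2
    · exact h2.symm
    · rw [hc.2] at h2
      exact absurd h2 hc'.not_anc

theorem child_wf (T : LTree) : WellFounded (fun b a : T.V => T.Anc a b ∧ b ≠ a) := by
  have := T.fin
  have h1 : IsTrans T.V (fun b a : T.V => T.Anc a b ∧ b ≠ a) := ⟨by
    rintro a b c ⟨h1, h2⟩ ⟨h3, h4⟩
    refine ⟨h3.trans h1, ?_⟩
    rintro rfl
    exact h2 (h3.antisymm h1)⟩
  have h2 : Std.Irrefl (fun b a : T.V => T.Anc a b ∧ b ≠ a) := ⟨fun a h => h.2 rfl⟩
  exact Finite.wellFounded_of_trans_of_irrefl _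

theorem exists_unf (T : LTree) (a : T.V) : ∃ t, T.Unf a t := by
  induction a using T.child_wf.induction with
  | _ a ih =>
    have := T.fin
    obtain ⟨n, ⟨E⟩⟩ := Finite.exists_equiv_fin {b // T.IsChild b a}
    have h1 : ∀ i : Fin n, ∃ t, T.Unf (E.symm i).1 t := fun i =>
      ih _ ⟨(E.symm i).2.anc, (E.symm i).2.ne⟩
    choose t ht using h1
    have hch := KT.ch_ofList (List.ofFn fun i => (T.label (E.symm i).1, t i))
    have hlen : (KT.ofList (List.ofFn fun i => (T.label (E.symm i).1, t i))).ch.length = n := by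
      rw [hch, List.length_ofFn]
    have hget := get_eq_of_ofFn _ _ hch hlen
    refine ⟨_, Unf.mk a _ (fun i => (E.symm (Fin.cast hlen i)).1) ?_ ?_ ?_ ?_ ?_⟩
    · intro i j hij
      have h2 := congrArg Fin.val (E.symm.injective (Subtype.ext hij))
      exact Fin.ext h2
    · intro i
      exact (E.symm (Fin.cast hlen i)).2
    · intro b hb
      refine ⟨Fin.cast hlen.symm (E ⟨b, hb⟩), ?_⟩
      simp
    · intro i
      rw [hget i]
    · intro i
      rw [hget i]
      exact ht _

/-- labels in the description are positive -/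
theorem unf_pos {T : LTree} {a : T.V} {t : KT} (h : T.Unf a t) : t.Pos := by
  induction h with
  | mk a t e he h1 h2 h3 h4 ih =>
    refine KT.pos_of_ch t fun p hp => ?_
    obtain ⟨i, hi⟩ := List.get_of_mem hp
    rw [← hi]
    exact ⟨by rw [h3 i]; exact T.label_pos _ (h1 i).1, ih i⟩

/-- the properties of the embedding of the subtree of `a` into the subtree of `b` -/
structure SubEmb (S T : LTree) (l : ℕ) (a : S.V) (b : T.V) (f : S.V → T.V) : Prop where
  anc : T.Anc b (f a)
  lab : ∀ z, T.Anc b z → z ≠ b → T.Anc z (f a) → l ≤ T.label z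
  inj : ∀ u v, S.Anc a u → S.Anc a v → f u = f v → u = v
  inf : ∀ u v w, S.Anc a u → S.Anc a v → S.IsInf w u v → T.IsInf (f w) (f u) (f v)
  edge : ∀ v, S.Anc a v → v ≠ a → ∀ z, T.Anc (f (S.parent v)) z → z ≠ f (S.parent v) →
    T.Anc z (f v) → S.label v ≤ T.label z

theorem SubEmb.anc_all {S T : LTree} {l : ℕ} {a : S.V} {b : T.V} {f : S.V → T.V}
    (h : SubEmb S T l a b f) {u : S.V} (hu : S.Anc a u) : T.Anc b (f u) :=
  h.anc.trans (h.inf a u a (Anc.refl S a) hu (isInf_anc hu)).2.1

theorem isInf_symm {T : LTree} {w u v : T.V} (h : T.IsInf w u v) : T.IsInf w v u :=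
  ⟨h.2.1, h.1, fun z h1 h2 => h.2.2 z h2 h1⟩

theorem isInf_eq {T : LTree} {w a v : T.V} (hv : T.Anc a v) (h : T.IsInf w a v) : w = a :=
  h.1.antisymm (h.2.2 a (Anc.refl T a) hv)

/-- the labels on the path from the parent of a child -/
theorem lab_child {T : LTree} {l : ℕ} {b c d : T.V} (hc : T.IsChild c b) (hl : l ≤ T.label c)
    (hd : T.Anc c d) (h : ∀ z, T.Anc c z → z ≠ c → T.Anc z d → l ≤ T.label z) :
    ∀ z, T.Anc b z → z ≠ b → T.Anc z d → l ≤ T.label z := by
  intro z h1 h2 h3
  by_cases hzc : z = c
  · rw [hzc]; exact hl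
  · rcases h3.total hd with h4 | h4
    · rcases anc_cases h4 with h5 | h5
      · exact absurd h5 hzc
      · rw [hc.2] at h5
        exact absurd (h5.antisymm h1) h2
    · exact h z h4 hzc h3

theorem exists_subEmb {S T : LTree} {l : ℕ} {t s : KT} (h : Emb l t s) :
    ∀ (a : S.V) (b : T.V), S.Unf a t → T.Unf b s → ∃ f, SubEmb S T l a b f := by
  classical
  induction h with
  | @down l t s j hl h' ih =>
    intro a b ha hb
    cases hb with
    | mk _ _ e' he' g1 g2 g3 g4 =>
      obtain ⟨f, hf⟩ := ih a (e' j) ha (g4 j)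
      refine ⟨f, ⟨(g1 j).anc.trans hf.anc, ?_, hf.inj, hf.inf, hf.edge⟩⟩
      exact lab_child (g1 j) (by rw [← g3 j]; exact hl) hf.anc hf.lab
  | @here l t s σ hσ h1 h2 ih =>
    intro a b ha hb
    cases ha with
    | mk _ _ e he k1 k2 k3 k4 =>
    cases hb with
    | mk _ _ e' he' g1 g2 g3 g4 =>
      have H : ∀ i, ∃ f, SubEmb S T (t.ch.get i).1 (e i) (e' (σ i)) f :=
        fun i => ih i (e i) (e' (σ i)) (k4 i) (g4 (σ i))
      choose F hF using H
      obtain ⟨f, hf⟩ : ∃ f : S.V → T.V, f = fun v => if h : ∃ i, S.Anc (e i) v then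
          F h.choose v else b := ⟨_, rfl⟩
      have huniq : ∀ {i j v}, S.Anc (e i) v → S.Anc (e j) v → i = j := by
        intro i j v hi hj
        exact he (child_unique (k1 i) (k1 j) hi hj)
      have hne : ∀ {i v}, S.Anc (e i) v → v ≠ a := by
        rintro i v hi rfl
        exact (k1 i).not_anc hi
      have fa : f a = b := by
        rw [hf]
        have : ¬ ∃ i, S.Anc (e i) a := fun ⟨i, hi⟩ => (k1 i).not_anc hi
        simp only [dif_neg this]
      have fi : ∀ {i v}, S.Anc (e i) v → f v = F i v := by
        intro i v hi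
        have h0 : ∃ i, S.Anc (e i) v := ⟨i, hi⟩
        rw [hf]
        simp only [dif_pos h0]
        rw [huniq h0.choose_spec hi]
      have hcase : ∀ {v}, S.Anc a v → v = a ∨ ∃ i, S.Anc (e i) v := by
        intro v hv
        by_cases hva : v = a
        · exact Or.inl hva
        · obtain ⟨c, hc, hcv⟩ := exists_child hv hva
          obtain ⟨i, rfl⟩ := k2 c hc
          exact Or.inr ⟨i, hcv⟩
      have hanc : ∀ {i v}, S.Anc (e i) v → T.Anc (e' (σ i)) (f v) := by
        intro i v hi
        rw [fi hi]
        exact (hF i).anc_all hi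
      have hancb : ∀ {v}, S.Anc a v → T.Anc b (f v) := by
        intro v hv
        rcases hcase hv with rfl | ⟨i, hi⟩
        · rw [fa]; exact Anc.refl T b
        · exact (g1 (σ i)).anc.trans (hanc hi)
      refine ⟨f, ⟨?_, ?_, ?_, ?_, ?_⟩⟩
      · rw [fa]; exact Anc.refl T b
      · intro z z1 z2 z3
        rw [fa] at z3
        exact absurd (z3.antisymm z1) z2
      · intro u v hu hv huv
        rcases hcase hu with rfl | ⟨i, hi⟩
        · rcases hcase hv with rfl | ⟨j, hj⟩
          · rfl
          · have h3 := hanc hj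
            rw [← huv, fa] at h3
            exact absurd h3 (g1 (σ j)).not_anc
        · rcases hcase hv with rfl | ⟨j, hj⟩
          · have h3 := hanc hi
            rw [huv, fa] at h3
            exact absurd h3 (g1 (σ i)).not_anc
          · have h3 := hanc hi
            rw [huv] at h3
            have h4 : i = j := hσ (he' (child_unique (g1 (σ i)) (g1 (σ j)) h3 (hanc hj)))
            subst h4
            rw [fi hi, fi hj] at huv
            exact (hF i).inj u v hi hj huv
      · intro u v w hu hv hw
        rcases hcase hu with rfl | ⟨i, hi⟩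
        · rw [isInf_eq hv hw, fa]
          exact isInf_anc (hancb hv)
        · rcases hcase hv with rfl | ⟨j, hj⟩
          · rw [isInf_eq hu (isInf_symm hw), fa]
            exact isInf_symm (isInf_anc (hancb hu))
          · by_cases hij : i = j
            · subst hij
              have hwi : S.Anc (e i) w := hw.2.2 _ hi hj
              rw [fi hi, fi hj, fi hwi]
              exact (hF i).inf u v w hi hj hw
            · have haw : S.Anc a w := hw.2.2 a hu hv
              rcases hcase haw with rfl | ⟨k, hk⟩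
              · rw [fa]
                refine ⟨hancb hu, hancb hv, fun z z1 z2 => ?_⟩
                have hnot : ¬ T.Anc (e' (σ i)) z := fun h3 => hij
                  (hσ (he' (child_unique (g1 (σ i)) (g1 (σ j)) (h3.trans z2) (hanc hj))))
                rcases z1.total (hanc hi) with h3 | h3
                · rcases anc_cases h3 with h4 | h4
                  · exact absurd (by rw [h4]; exact Anc.refl T _) hnot
                  · rwa [(g1 (σ i)).2] at h4
                · exact absurd h3 hnot
              · have h3 : k = i := huniq (hk.trans hw.1) hi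
                have h4 : k = j := huniq (hk.trans hw.2.1) hj
                exact absurd (h3.symm.trans h4) hij
      · intro v hv hva
        rcases hcase hv with h3 | ⟨i, hi⟩
        · exact absurd h3 hva
        · rcases anc_cases hi with h4 | h4
          · subst h4
            rw [(k1 i).2, fa, fi hi, ← k3 i]
            exact lab_child (g1 (σ i)) (by rw [← g3 (σ i)]; exact h1 i) (hF i).anc (hF i).lab
          · have hvi : v ≠ e i := by
              rintro rfl
              exact not_anc_parent (k1 i).1 h4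
            intro z z1 z2 z3
            rw [fi h4] at z1 z2
            rw [fi hi] at z3
            exact (hF i).edge v hi hvi z z1 z2 z3

theorem le_of_emb {S T : LTree} {t s : KT} (ht : S.Unf S.root t) (hs : T.Unf T.root s)
    (h : Emb 1 t s) : S.Le T := by
  obtain ⟨f, hf⟩ := exists_subEmb h S.root T.root ht hs
  exact ⟨f, fun u v huv => hf.inj u v (anc_root S u) (anc_root S v) huv,
    fun u v w hw => hf.inf u v w (anc_root S u) (anc_root S v) hw,
    fun v hv => hf.edge v (anc_root S v) hv⟩

end LTree

end Kriz
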