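import Pool.Agent.Work.MP_0f6836_lc.UB.SM
import Pool.Agent.Work.MP_0f6836_lc.UB.NS2

/-!
# Block PD: the new pieces have smaller ordinals (helper39)
-/

set_option autoImplicit false

namespace Kriz

open Ordinal

theorem PD_Pr_Lam : Pr Lam := ⟨Lam_principal, Lam_pos⟩

theorem PD_Lam_pow_pos (f : ℕ) : 0 < Lam ^ f := pow_pos Lam_pos f

theorem PD_forall₂_refl {P : List Ordinal.{0}} : List.Forall₂ (· ≤ ·) P P := by
  induction P with
  | nil => exact List.Forall₂.nil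
  | cons a P ih => exact List.Forall₂.cons le_rfl ih

theorem PD_forall₂_append {A A' B B' : List Ordinal.{0}} (h : List.Forall₂ (· ≤ ·) A' A)
    (h' : List.Forall₂ (· ≤ ·) B' B) : List.Forall₂ (· ≤ ·) (A' ++ B') (A ++ B) := by
  induction h with
  | nil => exact h'
  | cons h1 _ ih => exact List.Forall₂.cons h1 ih

theorem PD_forall₂_replicate {Y Y' : Ordinal.{0}} (h : Y' ≤ Y) (n : ℕ) :
    List.Forall₂ (· ≤ ·) (List.replicate n Y') (List.replicate n Y) := by
  induction n with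
  | zero => exact List.Forall₂.nil
  | succ n ih => exact List.Forall₂.cons h ih

/-- general comparison -/
theorem PD_key {A B P P' N : List Ordinal.{0}} {x : Ordinal.{0}} (hA : A.Perm (x :: P))
    (hB : B.Perm (N ++ P')) (hPA : ∀ σ ∈ A, Pr σ) (hP' : ∀ σ ∈ P', Pr σ)
    (hle : List.Forall₂ (· ≤ ·) P' P) (hN : ∀ σ ∈ N, Pr σ ∧ σ < x) : nsum B < nsum A := by
  have hxP : ∀ σ ∈ x :: P, Pr σ := fun σ hσ => hPA σ (hA.mem_iff.2 hσ)
  have hB' : ∀ σ ∈ B, Pr σ := by
    intro σ hσ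
    rcases List.mem_append.1 (hB.mem_iff.1 hσ) with h | h
    · exact (hN σ h).1
    · exact hP' σ h
  rw [nsum_perm hPA hA, nsum_perm hB' hB]
  exact nsum_lt_nsum (hxP x List.mem_cons_self) (fun σ hσ => hxP σ (List.mem_cons_of_mem _ hσ))
    hP' hle hN

/-- the parts without the list `L` -/
noncomputable def PD_hd (M : List En) : List Ordinal.{0} := if M = [] then [1] else [1, G (T M)]

theorem PD_prt (f : ℕ) (L : List (List En)) (M : List En) :
    prt (.mk f L M) = PD_hd M ++ L.map T := by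
  unfold prt PD_hd Pc.M Pc.L
  split_ifs <;> rfl

theorem PD_prt' (π : Pc) : prt π = PD_hd π.M ++ π.L.map T := by
  cases π with
  | mk f L M => exact PD_prt f L M

/-- split at the index `i` -/
theorem PD_split {L : List (List En)} {i : ℕ} {D D' : List En} (hi : L[i]? = some D) :
    ∃ L1 L2, L = L1 ++ D :: L2 ∧ L.set i D' = L1 ++ D' :: L2 := by
  induction L generalizing i with
  | nil => simp at hi
  | cons a L ih =>
    cases i with
    | zero =>
      rw [List.getElem?_cons_zero, Option.some.injEq] at hi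
      subst hi
      exact ⟨[], L, rfl, rfl⟩
    | succ i =>
      rw [List.getElem?_cons_succ] at hi
      obtain ⟨L1, L2, h1, h2⟩ := ih hi
      refine ⟨a :: L1, L2, ?_, ?_⟩
      · rw [h1]; rfl
      · rw [List.set_cons_succ, h2]; rfl

theorem PD_perm_mid {X Y Z : List Ordinal.{0}} {a : Ordinal.{0}} :
    (X ++ (Y ++ a :: Z)).Perm (a :: (X ++ (Y ++ Z))) := by
  rw [← List.append_assoc, ← List.append_assoc]
  exact List.perm_middle

theorem PD_nsum_lt_Lam {P : List Ordinal.{0}} (h : ∀ σ ∈ P, Pr σ ∧ σ < Lam) : nsum P < Lam :=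
  nsum_lt PD_Pr_Lam h

/-- the sum of the parts, case b, with a prefix -/
theorem PD_b {π : Pc} {i : ℕ} {D D' : List En} {X X' : List Ordinal.{0}}
    (hX : ∀ σ ∈ X, Pr σ) (hX' : ∀ σ ∈ X', Pr σ) (hXX : List.Forall₂ (· ≤ ·) X' X)
    (hi : π.L[i]? = some D) (hπ : ∀ x ∈ prt π, Pr x ∧ x < Lam) (hD' : Pr (T D'))
    (hlt : T D' < T D) :
    nsum (X' ++ prt (.mk π.f (π.L.set i D') π.M)) < nsum (X ++ prt π) := by
  obtain ⟨L1, L2, h1, h2⟩ := PD_split (D' := D') hi
  have e1 : X ++ prt π = (X ++ PD_hd π.M) ++ (L1.map T ++ T D :: L2.map T) := by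
    rw [PD_prt', h1, List.map_append, List.map_cons, List.append_assoc]
  have e2 : X' ++ prt (.mk π.f (π.L.set i D') π.M) =
      (X' ++ PD_hd π.M) ++ (L1.map T ++ T D' :: L2.map T) := by
    rw [PD_prt, h2, List.map_append, List.map_cons, List.append_assoc]
  have hall : ∀ σ ∈ X ++ prt π, Pr σ := by
    intro σ hσ
    rcases List.mem_append.1 hσ with h | h
    · exact hX σ h
    · exact (hπ σ h).1
  have hp1 : (X ++ prt π).Perm (T D :: ((X ++ PD_hd π.M) ++ (L1.map T ++ L2.map T))) := by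
    rw [e1]; exact PD_perm_mid
  have hp2 : (X' ++ prt (.mk π.f (π.L.set i D') π.M)).Perm
      ([T D'] ++ ((X' ++ PD_hd π.M) ++ (L1.map T ++ L2.map T))) := by
    rw [e2]; exact PD_perm_mid
  refine PD_key hp1 hp2 hall ?_ ?_ ?_
  · intro σ hσ
    rw [List.append_assoc] at hσ
    rcases List.mem_append.1 hσ with h | h
    · exact hX' σ h
    · apply hall σ
      rw [hp1.mem_iff]
      apply List.mem_cons_of_mem
      rw [List.append_assoc]
      exact List.mem_append_right _ h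
  · exact PD_forall₂_append (PD_forall₂_append hXX PD_forall₂_refl) PD_forall₂_refl
  · intro σ hσ
    rw [List.mem_singleton] at hσ
    rw [hσ]
    exact ⟨hD', hlt⟩

/-- the sum of the parts, case c, with a prefix -/
theorem PD_c {π : Pc} {q : ℕ} {D' : List En} {X X' : List Ordinal.{0}}
    (hX : ∀ σ ∈ X, Pr σ) (hX' : ∀ σ ∈ X', Pr σ) (hXX : List.Forall₂ (· ≤ ·) X' X)
    (hM : π.M ≠ []) (hM1 : Pr (T π.M) ∧ T π.M < Lam)
    (hπ : ∀ x ∈ prt π, Pr x ∧ x < Lam) (hD : D' ≠ []) (hlt : T D' < T π.M) :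
    nsum (X' ++ prt (.mk π.f (π.L ++ List.replicate q π.M) D')) < nsum (X ++ prt π) := by
  have e1 : X ++ prt π = (X ++ [1]) ++ ([] ++ G (T π.M) :: π.L.map T) := by
    rw [PD_prt', PD_hd, if_neg hM]
    simp
  have e2 : (X' ++ prt (.mk π.f (π.L ++ List.replicate q π.M) D')).Perm
      ((G (T D') :: List.replicate q (T π.M)) ++ ((X' ++ [1]) ++ π.L.map T)) := by
    rw [PD_prt, PD_hd, if_neg hD, List.map_append, List.map_replicate]
    have h1 : X' ++ ([1, G (T D')] ++ (π.L.map T ++ List.replicate q (T π.M))) =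
        (X' ++ [1]) ++ ([] ++ G (T D') :: (π.L.map T ++ List.replicate q (T π.M))) := by simp
    rw [h1]
    refine PD_perm_mid.trans ?_
    rw [List.cons_append]
    refine List.Perm.cons _ ?_
    rw [List.nil_append, ← List.append_assoc]
    exact List.perm_append_comm
  have hall : ∀ σ ∈ X ++ prt π, Pr σ := by
    intro σ hσ
    rcases List.mem_append.1 hσ with h | h
    · exact hX σ h
    · exact (hπ σ h).1
  have hp1 : (X ++ prt π).Perm (G (T π.M) :: ((X ++ [1]) ++ ([] ++ π.L.map T))) := by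
    rw [e1]; exact PD_perm_mid
  rw [List.nil_append] at hp1
  have hD1 : T D' < Lam := hlt.trans hM1.2
  refine PD_key hp1 e2 hall ?_ ?_ ?_
  · intro σ hσ
    rw [List.append_assoc] at hσ
    rcases List.mem_append.1 hσ with h | h
    · exact hX' σ h
    · apply hall σ
      rw [hp1.mem_iff]
      apply List.mem_cons_of_mem
      rw [List.append_assoc]
      exact List.mem_append_right _ h
  · exact PD_forall₂_append (PD_forall₂_append hXX PD_forall₂_refl) PD_forall₂_refl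
  · intro σ hσ
    rcases List.mem_cons.1 hσ with h | h
    · rw [h]
      exact ⟨G_pr hD1, G_lt_G hlt hM1.2⟩
    · rw [List.eq_of_mem_replicate h]
      exact ⟨hM1.1, lt_G hM1.2⟩

theorem PD_parts_lt {π : Pc} (hπ : ∀ x ∈ prt π, Pr x ∧ x < Lam) {X : List Ordinal.{0}}
    (hX : ∀ σ ∈ X, Pr σ ∧ σ < Lam) : nsum (X ++ prt π) < Lam := by
  apply PD_nsum_lt_Lam
  intro σ hσ
  rcases List.mem_append.1 hσ with h | h
  · exact hX σ h
  · exact hπ σ h

theorem PD_pB_lt {f : ℕ} {c d : Ordinal.{0}} (h : c < d) (hd : d < Lam) :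
    Lam ^ f * G c < Lam ^ f * G d :=
  mul_lt_mul_of_pos_left (G_lt_G h hd) (PD_Lam_pow_pos f)

theorem pB_new_a {π : Pc} {D : List En} (hf : 1 ≤ π.f) (hπ : ∀ x ∈ prt π, Pr x ∧ x < Lam)
    (_hD : Pr (T D) ∧ T D < Lam) : pB (.mk (π.f - 1) (D :: π.L) π.M) < pB π := by
  rw [pB_eq, pB_eq π]
  have h1 : nsum (prt π) < Lam := PD_nsum_lt_Lam hπ
  have h2 : 1 ≤ G (nsum (prt π)) := Order.one_le_iff_pos.2 (G_pr h1).2
  have h3 : Lam ^ π.f = Lam ^ (π.f - 1) * Lam := by
    rw [← pow_succ, Nat.sub_add_cancel hf]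
  calc Lam ^ (π.f - 1) * G (nsum (prt (.mk (π.f - 1) (D :: π.L) π.M)))
      < Lam ^ (π.f - 1) * Lam := mul_lt_mul_of_pos_left (G_lt_Lam _) (PD_Lam_pow_pos _)
    _ = Lam ^ π.f * 1 := by rw [h3, mul_one]
    _ ≤ Lam ^ π.f * G (nsum (prt π)) := mul_le_mul_right h2 _

theorem pB_new_b {π : Pc} {i : ℕ} {D D' : List En} (hi : π.L[i]? = some D)
    (hπ : ∀ x ∈ prt π, Pr x ∧ x < Lam) (hD' : Pr (T D')) (hlt : T D' < T D) :
    pB (.mk π.f (π.L.set i D') π.M) < pB π := by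
  rw [pB_eq, pB_eq π]
  have h1 : nsum (prt π) < Lam := PD_nsum_lt_Lam hπ
  have h2 := PD_b (X := []) (X' := []) (by simp) (by simp) List.Forall₂.nil hi hπ hD' hlt
  rw [List.nil_append, List.nil_append] at h2
  exact PD_pB_lt h2 h1

theorem pB_new_c {π : Pc} {q : ℕ} {D' : List En} (hM : π.M ≠ []) (hM1 : Pr (T π.M) ∧ T π.M < Lam)
    (hπ : ∀ x ∈ prt π, Pr x ∧ x < Lam) (hD : D' ≠ []) (hlt : T D' < T π.M) :
    pB (.mk π.f (π.L ++ List.replicate q π.M) D') < pB π := by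
  rw [pB_eq, pB_eq π]
  have h1 : nsum (prt π) < Lam := PD_nsum_lt_Lam hπ
  have h2 := PD_c (q := q) (X := []) (X' := []) (by simp) (by simp) List.Forall₂.nil hM hM1 hπ hD
    hlt
  rw [List.nil_append, List.nil_append] at h2
  exact PD_pB_lt h2 h1

theorem pN_mono {π : Pc} {Y Y' : Ordinal.{0}} (hY : Pr Y ∧ Y < Lam) (hY' : Pr Y')
    (hπ : ∀ x ∈ prt π, Pr x ∧ x < Lam) (hle : Y' ≤ Y) : pN Y' π ≤ pN Y π := by
  rw [pN_eq, pN_eq]
  have h1 : nsum (List.replicate π.f Y' ++ prt π) ≤ nsum (List.replicate π.f Y ++ prt π) := by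
    apply nsum_le_nsum
    · intro σ hσ
      rcases List.mem_append.1 hσ with h | h
      · rw [List.eq_of_mem_replicate h]; exact hY.1
      · exact (hπ σ h).1
    · intro σ hσ
      rcases List.mem_append.1 hσ with h | h
      · rw [List.eq_of_mem_replicate h]; exact hY'
      · exact (hπ σ h).1
    · exact PD_forall₂_append (PD_forall₂_replicate hle _) PD_forall₂_refl
  have h2 : nsum (List.replicate π.f Y ++ prt π) < Lam := PD_parts_lt hπ (fun σ h => by
    rw [List.eq_of_mem_replicate h]; exact hY)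
  rcases h1.lt_or_eq with h | h
  · exact (G_lt_G h h2).le
  · rw [h]

theorem pN_new_a {π : Pc} {Y Y' : Ordinal.{0}} {D : List En} (hf : 1 ≤ π.f)
    (hY : Pr Y ∧ Y < Lam) (hY' : Pr Y') (hle : Y' ≤ Y)
    (hπ : ∀ x ∈ prt π, Pr x ∧ x < Lam) (hD : Pr (T D)) (hlt : T D < Y) :
    pN Y' (.mk (π.f - 1) (D :: π.L) π.M) < pN Y π := by
  rw [pN_eq, pN_eq Y π]
  have h2 : nsum (List.replicate π.f Y ++ prt π) < Lam := PD_parts_lt hπ (fun σ h => by
    rw [List.eq_of_mem_replicate h]; exact hY)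
  refine G_lt_G ?_ h2
  have e1 : List.replicate π.f Y = Y :: List.replicate (π.f - 1) Y := by
    rw [← List.replicate_succ, Nat.sub_add_cancel hf]
  have hp1 : (List.replicate π.f Y ++ prt π).Perm
      (Y :: (List.replicate (π.f - 1) Y ++ prt π)) := by
    rw [e1]; exact List.Perm.refl _
  have hp2 : (List.replicate (π.f - 1) Y' ++ prt (.mk (π.f - 1) (D :: π.L) π.M)).Perm
      ([T D] ++ (List.replicate (π.f - 1) Y' ++ prt π)) := by
    rw [PD_prt, PD_prt', List.map_cons]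
    exact PD_perm_mid
  refine PD_key hp1 hp2 ?_ ?_ ?_ ?_
  · intro σ hσ
    rcases List.mem_append.1 hσ with h | h
    · rw [List.eq_of_mem_replicate h]; exact hY.1
    · exact (hπ σ h).1
  · intro σ hσ
    rcases List.mem_append.1 hσ with h | h
    · rw [List.eq_of_mem_replicate h]; exact hY'
    · exact (hπ σ h).1
  · exact PD_forall₂_append (PD_forall₂_replicate hle _) PD_forall₂_refl
  · intro σ hσ
    rw [List.mem_singleton] at hσ
    rw [hσ]
    exact ⟨hD, hlt⟩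

theorem pN_new_b {π : Pc} {Y Y' : Ordinal.{0}} {i : ℕ} {D D' : List En}
    (hY : Pr Y ∧ Y < Lam) (hY' : Pr Y') (hle : Y' ≤ Y) (hi : π.L[i]? = some D)
    (hπ : ∀ x ∈ prt π, Pr x ∧ x < Lam) (hD' : Pr (T D')) (hlt : T D' < T D) :
    pN Y' (.mk π.f (π.L.set i D') π.M) < pN Y π := by
  rw [pN_eq, pN_eq Y π]
  have h2 : nsum (List.replicate π.f Y ++ prt π) < Lam := PD_parts_lt hπ (fun σ h => by
    rw [List.eq_of_mem_replicate h]; exact hY)
  refine G_lt_G ?_ h2
  exact PD_b (fun σ h => by rw [List.eq_of_mem_replicate h]; exact hY.1)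
    (fun σ h => by rw [List.eq_of_mem_replicate h]; exact hY') (PD_forall₂_replicate hle _)
    hi hπ hD' hlt

theorem pN_new_c {π : Pc} {Y Y' : Ordinal.{0}} {q : ℕ} {D' : List En}
    (hY : Pr Y ∧ Y < Lam) (hY' : Pr Y') (hle : Y' ≤ Y) (hM : π.M ≠ [])
    (hM1 : Pr (T π.M) ∧ T π.M < Lam)
    (hπ : ∀ x ∈ prt π, Pr x ∧ x < Lam) (hD : D' ≠ []) (hlt : T D' < T π.M) :
    pN Y' (.mk π.f (π.L ++ List.replicate q π.M) D') < pN Y π := by
  rw [pN_eq, pN_eq Y π]
  have h2 : nsum (List.replicate π.f Y ++ prt π) < Lam := PD_parts_lt hπ (fun σ h => by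
    rw [List.eq_of_mem_replicate h]; exact hY)
  refine G_lt_G ?_ h2
  exact PD_c (fun σ h => by rw [List.eq_of_mem_replicate h]; exact hY.1)
    (fun σ h => by rw [List.eq_of_mem_replicate h]; exact hY') (PD_forall₂_replicate hle _)
    hM hM1 hπ hD hlt

theorem bS_lt_bS {S1 S2 N : List Pc} {π : Pc} (hS : ∀ σ ∈ S1 ++ π :: S2, Pr (pB σ))
    (hN : ∀ σ ∈ N, Pr (pB σ) ∧ pB σ < pB π) : bS (N ++ (S1 ++ S2)) < bS (S1 ++ π :: S2) := by
  unfold bS
  have hp1 : ((S1 ++ π :: S2).map pB).Perm (pB π :: (S1 ++ S2).map pB) := by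
    rw [← List.map_cons]
    exact List.Perm.map _ List.perm_middle
  have hp2 : ((N ++ (S1 ++ S2)).map pB).Perm (N.map pB ++ (S1 ++ S2).map pB) := by
    rw [List.map_append]
  refine PD_key hp1 hp2 ?_ ?_ PD_forall₂_refl ?_
  · intro σ hσ
    obtain ⟨x, hx, rfl⟩ := List.mem_map.1 hσ
    exact hS x hx
  · intro σ hσ
    obtain ⟨x, hx, rfl⟩ := List.mem_map.1 hσ
    apply hS x
    rw [List.mem_append] at hx ⊢
    exact hx.imp id (fun h => List.mem_cons_of_mem _ h)
  · intro σ hσ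
    obtain ⟨x, hx, rfl⟩ := List.mem_map.1 hσ
    exact hN x hx

theorem nu_lt_nu {n : ℕ} {S1 S2 N : List Pc} {π : Pc}
    (hS : ∀ σ ∈ S1 ++ π :: S2, Pr (pN (Yn n (S1 ++ π :: S2)) σ))
    (hS' : ∀ σ ∈ S1 ++ S2, Pr (pN (Yn n (N ++ (S1 ++ S2))) σ) ∧
      pN (Yn n (N ++ (S1 ++ S2))) σ ≤ pN (Yn n (S1 ++ π :: S2)) σ)
    (hN : ∀ σ ∈ N, Pr (pN (Yn n (N ++ (S1 ++ S2))) σ) ∧
      pN (Yn n (N ++ (S1 ++ S2))) σ < pN (Yn n (S1 ++ π :: S2)) π) :
    nu n (N ++ (S1 ++ S2)) < nu n (S1 ++ π :: S2) := by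
  unfold nu
  set Y' := Yn n (N ++ (S1 ++ S2)) with hY'
  set Y := Yn n (S1 ++ π :: S2) with hY
  have hp1 : ((S1 ++ π :: S2).map (pN Y)).Perm (pN Y π :: (S1 ++ S2).map (pN Y)) := by
    rw [← List.map_cons]
    exact List.Perm.map _ List.perm_middle
  have hp2 : ((N ++ (S1 ++ S2)).map (pN Y')).Perm
      (N.map (pN Y') ++ (S1 ++ S2).map (pN Y')) := by
    rw [List.map_append]
  refine PD_key hp1 hp2 ?_ ?_ ?_ ?_
  · intro σ hσ
    obtain ⟨x, hx, rfl⟩ := List.mem_map.1 hσ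
    exact hS x hx
  · intro σ hσ
    obtain ⟨x, hx, rfl⟩ := List.mem_map.1 hσ
    exact (hS' x hx).1
  · rw [List.forall₂_map_left_iff, List.forall₂_map_right_iff]
    apply List.forall₂_same.2
    intro x hx
    exact (hS' x hx).2
  · intro σ hσ
    obtain ⟨x, hx, rfl⟩ := List.mem_map.1 hσ
    exact hN x hx

end Kriz
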