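import Pool.Agent.Work.MP_0f6836_lc.UB.ME
import Pool.Agent.Work.MP_0f6836_lc.UB.ML

/-!
# Upper bound, block PR: refinement of a piece
-/

namespace Kriz

open Ordinal

theorem L_mk' (f : ℕ) (L : List (List En)) (M : List En) : (Pc.mk f L M).L = L := rfl

theorem f_mk' (f : ℕ) (L : List (List En)) (M : List En) : (Pc.mk f L M).f = f := rfl

open Classical in
theorem exists_newP {π : Pc} {L0 L2 : List (ℕ × KT)} {os : List (Option (ℕ × KT))}
    {Da : ℕ × KT → List En} {Db : ℕ → List En} {Dc : ℕ × KT → List En} :
    ∃ N : List Pc, ∀ ρ, ρ ∈ N ↔ IsNew π L0 L2 os Da Db Dc ρ := by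
  refine ⟨L0.map (fun z => .mk (π.f - 1) (Da z :: π.L) π.M) ++
    (((List.range os.length).filter (fun i => decide (∃ z, os[i]? = some (some z)))).map
      (fun i => .mk π.f (π.L.set i (Db i)) π.M) ++
    L2.map (fun z => .mk π.f (π.L ++ List.replicate (L2.length - 1) π.M) (Dc z))), fun ρ => ?_⟩
  rw [List.mem_append, List.mem_append, List.mem_map, List.mem_map, List.mem_map]
  constructor
  · rintro (⟨z, hz, rfl⟩ | ⟨i, hi, rfl⟩ | ⟨z, hz, rfl⟩)
    · exact IsNew.a hz
    · rw [List.mem_filter] at hi
      obtain ⟨z, hz⟩ := of_decide_eq_true hi.2
      exact IsNew.b hz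
    · exact IsNew.c hz
  · intro h
    cases h with
    | a h => exact Or.inl ⟨_, h, rfl⟩
    | @b i z h =>
      refine Or.inr (Or.inl ⟨i, ?_, rfl⟩)
      rw [List.mem_filter, List.mem_range]
      refine ⟨?_, decide_eq_true ⟨z, h⟩⟩
      rw [List.getElem?_eq_some_iff] at h
      exact h.1
    | c h => exact Or.inr (Or.inr ⟨_, h, rfl⟩)

theorem reduceOption_map_some {α : Type} (P : List α) : (P.map some).reduceOption = P := by
  induction P with
  | nil => rfl
  | cons a P ih => rw [List.map_cons, List.reduceOption_cons_of_some, ih]

theorem reduceOption_replicate_none' {α : Type} (n : ℕ) :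
    (List.replicate n (none : Option α)).reduceOption = [] := by
  induction n with
  | zero => rfl
  | succ n ih => rw [List.replicate_succ, List.reduceOption_cons_of_none, ih]

theorem reduceOption_append' {α : Type} (l l' : List (Option α)) :
    (l ++ l').reduceOption = l.reduceOption ++ l'.reduceOption := by
  simp only [List.reduceOption, List.filterMap_append]

open Classical in
theorem fit_new {c : Set En} {π : Pc} {t s : KT} {L0 L2 : List (ℕ × KT)}
    {os : List (Option (ℕ × KT))}
    {Da : ℕ × KT → List En} {Db : ℕ → List En} {Dc : ℕ × KT → List En}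
    (ht : t.ch.Perm (L0 ++ (os.reduceOption ++ L2))) (h0 : L0.length ≤ π.f)
    (hos : os.length = π.L.length) (hall : ∀ y ∈ s.ch, Mem c y)
    (ha : ∀ z ∈ L0, ∀ y, Mem c y → ¬ Rel z y → Mem (sctx (Da z) c) y)
    (hb : ∀ i D z, π.L[i]? = some D → os[i]? = some (some z) → ∀ y, Mem (sctx D c) y →
      ¬ Rel z y → Mem (sctx (Db i) c) y)
    (hc : ∀ z ∈ L2, ∀ y, Mem (sctx π.M c) y → ¬ Rel z y → Mem (sctx (Dc z) c) y)
    (hM : ∀ z ∈ L2, Dc z ≠ []) (hs : ¬ At t s) (hf : Fit c π s.ch) :
    ∃ ρ, IsNew π L0 L2 os Da Db Dc ρ ∧ Fit c ρ s.ch := by
  obtain ⟨L0', L2', os', g1, g2, g3, g4, g5⟩ := hf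
  by_cases hA : MLe L0 L0'
  · by_cases hB : MLe os.reduceOption os'.reduceOption
    · by_cases hC : MLe L2 L2'
      · exact absurd (at_of_MLe ((hA.append (hB.append hC)).perm ht.symm g1.symm)) hs
      · -- third kind
        obtain ⟨z, hz, hz2⟩ := exists_few hC
        refine ⟨_, IsNew.c hz, L0', L2'.filter (fun y => !decide (Rel z y)),
          os' ++ ((L2'.filter (fun y => decide (Rel z y))).map some ++
            List.replicate (L2.length - 1 -
              (L2'.filter (fun y => decide (Rel z y))).length) none), ?_, g2, ?_, ?_, ?_⟩
        · refine g1.trans (List.Perm.append_left _ ?_)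
          rw [reduceOption_append', reduceOption_append', reduceOption_map_some,
            reduceOption_replicate_none', List.append_nil, List.append_assoc]
          refine List.Perm.append_left _ ?_
          exact (List.filter_append_perm (fun y => decide (Rel z y)) L2').symm
        · simp only [L_mk', List.length_append, List.length_map, List.length_replicate]
          omega
        · intro i D y hD hy
          simp only [L_mk'] at hD
          by_cases hi : i < π.L.length
          · rw [List.getElem?_append_left hi] at hD
            rw [List.getElem?_append_left (by omega)] at hy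
            exact g4 i D y hD hy
          · rw [List.getElem?_append_right (by omega)] at hD
            rw [List.getElem?_append_right (by omega)] at hy
            have hD' := List.eq_of_mem_replicate (List.mem_of_getElem? hD)
            have hy' := List.mem_of_getElem? hy
            rw [List.mem_append, List.mem_map] at hy'
            subst hD'
            rcases hy' with ⟨y', hy', h⟩ | hy'
            · rw [Option.some.injEq] at h
              subst h
              rw [List.mem_filter] at hy'
              exact (g5 _ hy'.1).2
            · have := List.eq_of_mem_replicate hy'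
              exact absurd this (by simp)
        · intro y hy
          rw [List.mem_filter] at hy
          simp only [Bool.not_eq_true', decide_eq_false_iff_not] at hy
          exact ⟨hM z hz, hc z hz y (g5 y hy.1).2 hy.2⟩
    · -- second kind
      have hex : ∃ (i : ℕ) (z : ℕ × KT), os[i]? = some (some z) ∧
          ∀ y, os'[i]? = some (some y) → ¬ Rel z y := by
        by_contra hcon
        push Not at hcon
        refine hB (MLe_reduceOption (by omega) fun i hi z hz => ?_)
        exact hcon i z (by rw [List.getElem?_eq_getElem hi, hz])
      obtain ⟨i, z, hz, hy⟩ := hex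
      refine ⟨_, IsNew.b hz, L0', L2', os', g1, g2, ?_, ?_, g5⟩
      · simp only [L_mk', List.length_set]
        exact g3
      · intro j D y hD hy'
        simp only [L_mk'] at hD
        have hi : i < π.L.length := by
          rw [← hos]
          rw [List.getElem?_eq_some_iff] at hz
          exact hz.1
        by_cases hij : i = j
        · subst hij
          rw [List.getElem?_set_self hi, Option.some.injEq] at hD
          subst hD
          exact hb i π.L[i] z (List.getElem?_eq_getElem hi) hz y
            (g4 i _ y (List.getElem?_eq_getElem hi) hy') (hy y hy')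
        · rw [List.getElem?_set_ne hij] at hD
          exact g4 j D y hD hy'
  · -- first kind
    obtain ⟨z, hz, hz2⟩ := exists_few hA
    by_cases hlen : L0'.length ≤ π.f - 1
    · refine ⟨_, IsNew.a hz, L0', L2', none :: os', ?_, hlen, ?_, ?_, g5⟩
      · rw [List.reduceOption_cons_of_none]; exact g1
      · simp only [L_mk', List.length_cons]; omega
      · intro i D y hD hy
        cases i with
        | zero => simp at hy
        | succ i =>
          simp only [L_mk'] at hD
          rw [List.getElem?_cons_succ] at hD hy
          exact g4 i D y hD hy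
    · have hex : ∃ y ∈ L0', ¬ Rel z y := by
        by_contra hcon
        push Not at hcon
        rw [List.filter_eq_self.2 (fun y hy => decide_eq_true (hcon y hy))] at hz2
        omega
      obtain ⟨y, hy, hzy⟩ := hex
      have hperm := List.perm_cons_erase hy
      refine ⟨_, IsNew.a hz, L0'.erase y, L2', some y :: os', ?_, ?_, ?_, ?_, g5⟩
      · rw [List.reduceOption_cons_of_some]
        refine g1.trans ((hperm.append_right _).trans ?_)
        rw [List.cons_append, List.cons_append]
        exact List.perm_middle.symm
      · have := hperm.length_eq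
        rw [List.length_cons] at this
        simp only [f_mk']
        omega
      · simp only [L_mk', List.length_cons]; omega
      · intro i D y' hD hy'
        cases i with
        | zero =>
          simp only [L_mk', List.getElem?_cons_zero, Option.some.injEq] at hD hy'
          subst hD hy'
          refine ha z hz _ (hall _ ?_) hzy
          rw [g1.mem_iff, List.mem_append]
          exact Or.inl hy
        | succ i =>
          simp only [L_mk'] at hD
          rw [List.getElem?_cons_succ] at hD hy'
          exact g4 i D y' hD hy'

open Classical in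
theorem fit_new_nil {c : Set En} {t s : KT} {Dc : ℕ × KT → List En}
    (hall : ∀ y ∈ s.ch, Mem c y)
    (hc : ∀ z ∈ t.ch, ∀ y, Mem c y → ¬ Rel z y → Mem (sctx (Dc z) c) y)
    (hM : ∀ z ∈ t.ch, Dc z ≠ []) (hs : ¬ At t s) :
    ∃ z ∈ t.ch, Fit c (.mk (t.ch.length - 1) [] (Dc z)) s.ch := by
  obtain ⟨z, hz, hz2⟩ := exists_few (fun h => hs (at_of_MLe h))
  refine ⟨z, hz, s.ch.filter (fun y => decide (Rel z y)),
    s.ch.filter (fun y => !decide (Rel z y)), [], ?_, ?_, rfl, ?_, ?_⟩
  · exact (List.filter_append_perm (fun y => decide (Rel z y)) s.ch).symm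
  · simp only [f_mk']; omega
  · intro i D y hD _
    simp [L_mk'] at hD
  · intro y hy
    rw [List.mem_filter] at hy
    simp only [Bool.not_eq_true', decide_eq_false_iff_not] at hy
    exact ⟨hM z hz, hc z hz y (hall y hy.1) hy.2⟩

end Kriz
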