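import Pool.Agent.Work.MP_0f6836_lc.UB.SM
import Pool.Agent.Work.MP_0f6836_lc.UB.NM
import Pool.Agent.Work.MP_0f6836_lc.UB.NS2

/-!
# Block PT: `β(S)`, `ν(n, S)` (helper67)
-/

namespace Kriz

open Ordinal

theorem pt_Pr_Om (n : ℕ) : Pr (Om n) := ⟨Om_principal n, Om_pos n⟩

theorem pt_one_mem_prt (π : Pc) : (1 : Ordinal.{0}) ∈ prt π := by
  unfold prt
  exact List.mem_cons_self

theorem pt_Pr_pow (f : ℕ) : Pr (Lam ^ f) := by
  induction f with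
  | zero =>
    rw [pow_zero]
    exact ⟨isPrincipal_add_one, zero_lt_one⟩
  | succ f ih =>
    rw [pow_succ]
    exact Pr_mul ih Pr_Lam

theorem pt_pow_mul_mem {A ζ c : Ordinal.{0}} (f : ℕ) (h : c ∈ C A ζ) : Lam ^ f * c ∈ C A ζ := by
  induction f with
  | zero => rwa [pow_zero, one_mul]
  | succ f ih =>
    rw [pow_succ', mul_assoc]
    exact C.mul ih

theorem pt_mem_of_pow_mul {A ζ c : Ordinal.{0}} (hζ : ζ ≤ Lam) (f : ℕ)
    (h : Lam ^ f * c ∈ C A ζ) : c ∈ C A ζ := by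
  induction f with
  | zero => rwa [pow_zero, one_mul] at h
  | succ f ih =>
    rw [pow_succ', mul_assoc] at h
    exact ih (mem_of_Lam_mul hζ h)

theorem pt_Lam_mem {A ζ : Ordinal.{0}} (hA : 0 < A) : Lam ∈ C A ζ := by
  have h := C.mul (one_mem_C (ζ := ζ) hA)
  rwa [mul_one] at h

theorem PS.lt {n : ℕ} {S : List Pc} (h : PS n S) (_hn : 1 ≤ n) :
    ∀ π ∈ S, nsum (prt π) < Om n ∧ 0 < nsum (prt π) := by
  intro π hπ
  refine ⟨nsum_lt (pt_Pr_Om n) (h π hπ), ?_⟩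
  exact zero_lt_one.trans_le (le_nsum (fun σ hσ => (h π hπ σ hσ).1) (pt_one_mem_prt π))

theorem PS.lt_Lam {n : ℕ} {S : List Pc} (h : PS n S) (hn : 1 ≤ n) :
    ∀ π ∈ S, nsum (prt π) < Lam := fun π hπ => (h.lt hn π hπ).1.trans (Om_lt_Lam n)

theorem PS.pB {n : ℕ} {S : List Pc} (h : PS n S) (hn : 1 ≤ n) :
    ∀ π ∈ S, Pr (Kriz.pB π) ∧ 1 < Kriz.pB π := by
  intro π hπ
  rw [pB_eq]
  refine ⟨Pr_mul (pt_Pr_pow _) (G_pr (h.lt_Lam hn π hπ)), ?_⟩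
  have h1 : 1 < G (nsum (prt π)) := one_lt_G (h.lt_Lam hn π hπ) (h.lt hn π hπ).2
  refine h1.trans_le ?_
  have h2 : 1 ≤ Lam ^ π.f := Order.one_le_iff_pos.2 (pt_Pr_pow π.f).2
  calc G (nsum (prt π)) = 1 * G (nsum (prt π)) := (one_mul _).symm
    _ ≤ Lam ^ π.f * G (nsum (prt π)) := by gcongr

theorem pt_Pr_Lam_omega : Pr (Lam ^ (ω : Ordinal.{0})) := by
  obtain ⟨e, he⟩ := Pr_iff.1 Pr_Lam
  rw [he, ← opow_mul]
  exact Pr_iff.2 ⟨_, rfl⟩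

theorem pt_one_lt_Lam : 1 < Lam := by
  have := Om_lt_Lam 0
  rwa [Om_zero] at this

theorem PS.bS_lt {n : ℕ} {S : List Pc} (h : PS n S) (hn : 1 ≤ n) :
    bS S < Lam ^ (ω : Ordinal.{0}) := by
  unfold bS
  refine nsum_lt pt_Pr_Lam_omega ?_
  intro x hx
  obtain ⟨π, hπ, rfl⟩ := List.mem_map.1 hx
  refine ⟨(h.pB hn π hπ).1, ?_⟩
  rw [pB_eq]
  have h1 : Lam ^ π.f * G (nsum (prt π)) < Lam ^ π.f * Lam :=
    mul_lt_mul_of_pos_left (G_lt_Lam _) (pt_Pr_pow π.f).2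
  refine h1.trans ?_
  rw [← pow_succ, ← opow_natCast]
  exact (opow_lt_opow_iff_right pt_one_lt_Lam).2 (natCast_lt_omega0 _)

theorem PS.one_lt_bS {n : ℕ} {S : List Pc} (h : PS n S) (hn : 1 ≤ n) (hS : S ≠ []) :
    1 < bS S := by
  obtain ⟨π, hπ⟩ := List.exists_mem_of_ne_nil S hS
  refine (h.pB hn π hπ).2.trans_le ?_
  unfold bS
  refine le_nsum ?_ (List.mem_map.2 ⟨π, hπ, rfl⟩)
  intro σ hσ
  obtain ⟨τ, hτ, rfl⟩ := List.mem_map.1 hσ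
  exact (h.pB hn τ hτ).1

theorem PS.closed {n : ℕ} {S : List Pc} (h : PS n S) (hn : 1 ≤ n) {x : Ordinal.{0}}
    (hx : x < Lam * bS S) : x + Lam < Lam * bS S := by
  have hL : Lam ≠ 0 := Lam_pos.ne'
  have hall : ∀ σ ∈ S.map Kriz.pB, Pr σ ∧ 1 < σ := by
    intro σ hσ
    obtain ⟨τ, hτ, rfl⟩ := List.mem_map.1 hσ
    exact h.pB hn τ hτ
  have h1 : x / Lam < bS S := (div_lt hL).2 hx
  have h2 : x / Lam + 1 < bS S := add_one_lt_nsum hall h1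
  have h3 : x / Lam + 1 + 1 < bS S := add_one_lt_nsum hall h2
  have h4 : x < Lam * (x / Lam + 1) := by
    have := lt_mul_succ_div x hL
    simpa using this
  have h5 : x + Lam ≤ Lam * (x / Lam + 1) + Lam := by gcongr
  refine h5.trans_lt ?_
  calc Lam * (x / Lam + 1) + Lam = Lam * (x / Lam + 1 + 1) := by rw [mul_add Lam (x / Lam + 1), mul_one]
    _ < Lam * bS S := mul_lt_mul_of_pos_left h3 Lam_pos

theorem PS.bS_mem {n : ℕ} {S : List Pc} (h : PS n S) (hn : 1 ≤ n) {A ζ : Ordinal.{0}}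
    (hζ : ζ ≤ Lam) (hA : Lam ≤ A) (hm : ∀ π ∈ S, ∀ x ∈ prt π, x ∈ C A ζ) : bS S ∈ C A ζ := by
  unfold bS
  refine nsum_mem hζ ?_
  intro x hx
  obtain ⟨π, hπ, rfl⟩ := List.mem_map.1 hx
  refine ⟨(h.pB hn π hπ).1, ?_⟩
  rw [pB_eq]
  refine pt_pow_mul_mem _ ((G_mem_iff (h.lt_Lam hn π hπ) hζ hA).2 ?_)
  exact nsum_mem hζ fun y hy => ⟨(h π hπ y hy).1, hm π hπ y hy⟩

theorem PS.mem_of_bS {n : ℕ} {S : List Pc} (h : PS n S) (hn : 1 ≤ n) {A ζ : Ordinal.{0}}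
    (hζ : ζ ≤ Lam) (hA : Lam ≤ A) (hm : bS S ∈ C A ζ) : ∀ π ∈ S, ∀ x ∈ prt π, x ∈ C A ζ := by
  intro π hπ
  have hall : ∀ σ ∈ S.map Kriz.pB, Pr σ := by
    intro σ hσ
    obtain ⟨τ, hτ, rfl⟩ := List.mem_map.1 hσ
    exact (h.pB hn τ hτ).1
  have h1 : Kriz.pB π ∈ C A ζ := mem_of_nsum hζ hall hm _ (List.mem_map.2 ⟨π, hπ, rfl⟩)
  rw [pB_eq] at h1
  have h2 := (G_mem_iff (h.lt_Lam hn π hπ) hζ hA).1 (pt_mem_of_pow_mul hζ _ h1)
  exact mem_of_nsum hζ (fun y hy => (h π hπ y hy).1) h2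

/-- validity of stable entries -/
theorem PS.valid {n : ℕ} {S : List Pc} (h : PS n S) (hn : 1 ≤ n) :
    Valid (n - 1) (Lam * bS S) ∧ Valid (n - 1) (Lam * bS S + Lam) := by
  have hn1 : n - 1 + 1 = n := Nat.sub_add_cancel hn
  have hb : ∀ A : Ordinal.{0}, Lam ≤ A → bS S ∈ C A (Om n) := fun A hA =>
    h.bS_mem hn (Om_lt_Lam n).le hA fun π hπ x hx => C.base (h π hπ x hx).2
  constructor
  · apply valid_of_mem
    rw [hn1]
    by_cases hS : S = []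
    · subst hS
      have h0 : bS [] = 0 := rfl
      rw [h0, mul_zero]
      exact C.zero
    · exact C.mul (hb _ (le_mul_of_one_le_right' (h.one_lt_bS hn hS).le))
  · apply valid_of_mem
    rw [hn1]
    have hA : Lam ≤ Lam * bS S + Lam := le_add_self
    exact C.add (C.mul (hb _ hA)) (pt_Lam_mem (Lam_pos.trans_le hA))

theorem Yn_pr {n : ℕ} {S : List Pc} (h : PS n S) (hn : 1 ≤ n) : Pr (Yn n S) ∧ 1 < Yn n S ∧
    Om (n - 1) ≤ Yn n S ∧ Yn n S < Om n := by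
  have hv := (h.valid hn).2
  have hn1 : n - 1 + 1 = n := Nat.sub_add_cancel hn
  unfold Yn
  refine ⟨⟨theta_principal, theta_pos hv⟩, one_lt_theta hv (Lam_pos.trans_le le_add_self),
    Om_le_theta hv, ?_⟩
  have := theta_lt_Om (v := n - 1) (α := Lam * bS S + Lam)
  rwa [hn1] at this

theorem pt_nN_lt {n : ℕ} {S : List Pc} (h : PS n S) (hn : 1 ≤ n) {π : Pc} (hπ : π ∈ S) :
    nsum (List.replicate π.f (Yn n S) ++ prt π) < Om n := by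
  refine nsum_lt (pt_Pr_Om n) ?_
  intro x hx
  rcases List.mem_append.1 hx with h1 | h1
  · rw [List.eq_of_mem_replicate h1]
    exact ⟨(Yn_pr h hn).1, (Yn_pr h hn).2.2.2⟩
  · exact h π hπ x h1

theorem nu_lt_Om {n : ℕ} {S : List Pc} (h : PS n S) (hn : 1 ≤ n) : nu n S < Om n := by
  unfold nu
  refine nsum_lt (pt_Pr_Om n) ?_
  intro x hx
  obtain ⟨π, hπ, rfl⟩ := List.mem_map.1 hx
  rw [pN_eq]
  have h1 := pt_nN_lt h hn hπ
  exact ⟨G_pr (h1.trans (Om_lt_Lam n)), G_lt_Om hn h1⟩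

theorem pt_pN_pr {n : ℕ} {S : List Pc} (h : PS n S) (hn : 1 ≤ n) {π : Pc} (hπ : π ∈ S) :
    Pr (pN (Yn n S) π) := by
  rw [pN_eq]
  exact G_pr ((pt_nN_lt h hn hπ).trans (Om_lt_Lam n))

theorem Yn_mem {n : ℕ} {S : List Pc} (h : PS n S) (hn : 1 ≤ n) {A ζ : Ordinal.{0}}
    (hζ : ζ ≤ Lam) (hA : Lam * bS S + Lam < A) (hm : ∀ π ∈ S, ∀ x ∈ prt π, x ∈ C A ζ) :
    Yn n S ∈ C A ζ := by
  have hA' : Lam ≤ A := le_add_self.trans hA.le
  unfold Yn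
  exact C.coll _ hA (C.add (C.mul (h.bS_mem hn hζ hA' hm)) (pt_Lam_mem (Lam_pos.trans_le hA')))

theorem nu_mem {n : ℕ} {S : List Pc} (h : PS n S) (hn : 1 ≤ n) {A ζ : Ordinal.{0}}
    (hζ : ζ ≤ Lam) (hA : Lam * bS S + Lam < A) (hm : ∀ π ∈ S, ∀ x ∈ prt π, x ∈ C A ζ) :
    nu n S ∈ C A ζ := by
  have hA' : Lam ≤ A := le_add_self.trans hA.le
  unfold nu
  refine nsum_mem hζ ?_
  intro x hx
  obtain ⟨π, hπ, rfl⟩ := List.mem_map.1 hx
  refine ⟨pt_pN_pr h hn hπ, ?_⟩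
  rw [pN_eq]
  refine (G_mem_iff ((pt_nN_lt h hn hπ).trans (Om_lt_Lam n)) hζ hA').2 (nsum_mem hζ ?_)
  intro y hy
  rcases List.mem_append.1 hy with h1 | h1
  · rw [List.eq_of_mem_replicate h1]
    exact ⟨(Yn_pr h hn).1, Yn_mem h hn hζ hA hm⟩
  · exact ⟨(h π hπ y h1).1, hm π hπ y h1⟩

theorem PS.mem_of_nu {n : ℕ} {S : List Pc} (h : PS n S) (hn : 1 ≤ n) {A ζ : Ordinal.{0}}
    (hζ : ζ ≤ Lam) (hA : Lam ≤ A) (hm : nu n S ∈ C A ζ) :
    ∀ π ∈ S, ∀ x ∈ prt π, x ∈ C A ζ := by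
  intro π hπ x hx
  have hall : ∀ σ ∈ S.map (pN (Yn n S)), Pr σ := by
    intro σ hσ
    obtain ⟨τ, hτ, rfl⟩ := List.mem_map.1 hσ
    exact pt_pN_pr h hn hτ
  have h1 : pN (Yn n S) π ∈ C A ζ := mem_of_nsum hζ hall hm _ (List.mem_map.2 ⟨π, hπ, rfl⟩)
  rw [pN_eq] at h1
  have h2 := (G_mem_iff ((pt_nN_lt h hn hπ).trans (Om_lt_Lam n)) hζ hA).1 h1
  refine mem_of_nsum hζ ?_ h2 x (List.mem_append.2 (Or.inr hx))
  intro y hy
  rcases List.mem_append.1 hy with h3 | h3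
  · rw [List.eq_of_mem_replicate h3]
    exact (Yn_pr h hn).1
  · exact (h π hπ y h3).1

/-- validity of unstable entries -/
theorem PS.valid_unstable {m n : ℕ} {S : List Pc} (h : PS n S) (hm : 1 ≤ m) (hmn : m ≤ n)
    {A : Ordinal.{0}} (hB : bS S ∈ C A (Om m)) :
    Valid (m - 1) (max (Lam * bS S + Lam) (Nm m (bS S)) + theta (nu n S) n) := by
  have hn : 1 ≤ n := hm.trans hmn
  have hm1 : m - 1 + 1 = m := Nat.sub_add_cancel hm
  apply valid_of_mem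
  rw [hm1]
  have hnu : nu n S < Om (n + 1) := (nu_lt_Om h hn).trans (Om_lt_Om (Nat.lt_succ_self n))
  have hth : 0 < theta (nu n S) n := theta_pos (valid_small hnu)
  have h1 : max (Lam * bS S + Lam) (Nm m (bS S)) <
      max (Lam * bS S + Lam) (Nm m (bS S)) + theta (nu n S) n := lt_add_of_pos_right _ hth
  have h2 : Lam * bS S + Lam <
      max (Lam * bS S + Lam) (Nm m (bS S)) + theta (nu n S) n := (le_max_left _ _).trans_lt h1
  have h3 : Nm m (bS S) ≤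
      max (Lam * bS S + Lam) (Nm m (bS S)) + theta (nu n S) n := ((le_max_right _ _).trans_lt h1).le
  have hα : Lam ≤ max (Lam * bS S + Lam) (Nm m (bS S)) + theta (nu n S) n :=
    le_add_self.trans h2.le
  have hmem : ∀ B : Ordinal.{0}, Nm m (bS S) ≤ B → bS S ∈ C B (Om m) := fun B hle =>
    C_mono hle le_rfl (nm_self hB)
  set α := max (Lam * bS S + Lam) (Nm m (bS S)) + theta (nu n S) n with hαdef
  have hbm : bS S ∈ C α (Om m) := hmem α h3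
  have hNm : Nm m (bS S) ∈ C α (Om m) := Nm_mem le_rfl hbm (Lam_pos.trans_le hα)
  have hL : Lam * bS S + Lam ∈ C α (Om m) := C.add (C.mul hbm) (pt_Lam_mem (Lam_pos.trans_le hα))
  have hmax : max (Lam * bS S + Lam) (Nm m (bS S)) ∈ C α (Om m) := by
    rcases max_choice (Lam * bS S + Lam) (Nm m (bS S)) with he | he
    · rw [he]; exact hL
    · rw [he]; exact hNm
  have hparts := h.mem_of_bS hn (Om_lt_Lam m).le hα hbm
  have hnum : nu n S ∈ C α (Om m) := nu_mem h hn (Om_lt_Lam m).le h2 hparts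
  have hnul : nu n S < α := (hnu.trans (Om_lt_Lam _)).trans_le hα
  have hfin : max (Lam * bS S + Lam) (Nm m (bS S)) + theta (nu n S) n ∈ C α (Om m) :=
    C.add hmax (C.coll n hnul hnum)
  rw [hαdef] at hfin ⊢
  exact hfin

end Kriz
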