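import Pool.Agent.Work.MP_0f6836_lc.UB.CH

/-!
# Upper bound, block ZZ: the new chain
-/

namespace Kriz

open Ordinal

theorem Zn_head {m n : ℕ} {R : List Pc} : ∀ d ∈ (Zn m n R).head?, d.l = m := by
  intro d hd
  rw [Zn] at hd
  split_ifs at hd with h
  · simp only [List.head?_cons, Option.mem_def, Option.some.injEq] at hd
    rw [← hd, En.mk_l]
  · simp only [List.head?_cons, Option.mem_def, Option.some.injEq] at hd
    rw [← hd, En.mk_l]

theorem AA_stable (n : ℕ) (R : List Pc) : AA [.mk n n R] = Lam * bS R + Lam := by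
  rw [AA_cons, aE_stable, T_nil]

theorem T_stable (n : ℕ) (R : List Pc) : T [.mk n n R] = Yn n R := by
  rw [T_cons, AA_stable]; rfl

theorem Zn_IG_stable {n : ℕ} {R : List Pc} (hn : 1 ≤ n) (hR : GS n R) : IG [.mk n n R] := by
  refine IG.of hn le_rfl ?_ hR (fun h => absurd rfl h)
    (fun _ => rfl) ?_ (fun h => absurd rfl h)
  · rw [aE_stable]
    exact ((hR.ps hn).valid hn).1
  · intro d hd
    simp at hd

theorem Lam_mem_C {A ζ : Ordinal.{0}} (hA : 0 < A) : Lam ∈ C A ζ := by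
  have := C.mul (one_mem_C (ζ := ζ) hA)
  rwa [mul_one] at this

theorem Zn_IG {m n : ℕ} {R : List Pc} (hm : 1 ≤ m) (hmn : m ≤ n) (hR : GS n R)
    {A : Ordinal.{0}} (hB : bS R ∈ C A (Om m)) : IG (Zn m n R) := by
  have hn : 1 ≤ n := hm.trans hmn
  by_cases h : m = n
  · subst h
    rw [Zn, if_pos rfl]
    exact Zn_IG_stable hn hR
  · rw [Zn, if_neg h]
    have hlt : m < n := lt_of_le_of_ne hmn h
    have hps := hR.ps hn
    have haE : aE (.mk m n R) = max (Lam * bS R + Lam) (Nm m (bS R)) + theta (nu n R) n :=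
      aE_unstable h R
    have hv : Valid (m - 1) (aE (.mk m n R)) := by
      rw [haE]; exact hps.valid_unstable hm hmn hB
    have hnu : Valid n (nu n R) := valid_small ((nu_lt_Om hps hn).trans (Om_lt_Om (Nat.lt_succ_self n)))
    refine IG.of hm hmn hv hR
      (fun _ => Zn_IG_stable hn hR) (fun h => absurd h (List.cons_ne_nil _ _)) ?_ (fun _ => ?_)
    · intro d hd
      simp only [List.head?_cons, Option.mem_def, Option.some.injEq] at hd
      subst hd
      exact ⟨hlt, fun _ => le_rfl⟩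
    · rw [AA_stable]
      have hX : Lam * bS R + Lam ≤ max (Lam * bS R + Lam) (Nm m (bS R)) := le_max_left _ _
      have hlt' : Lam * bS R + Lam < aE (.mk m n R) := by
        rw [haE]
        exact hX.trans_lt (lt_add_of_pos_right _ (theta_pos hnu))
      have hLam : Lam ≤ aE (.mk m n R) := by
        refine le_trans ?_ hlt'.le
        exact le_add_self
      refine ⟨?_, hlt'⟩
      have hζ : theta (aE (.mk m n R)) ((En.mk m n R).l - 1) ≤ Lam := theta_lt_Lam.le
      have hmem : aE (.mk m n R) ∈ C (aE (.mk m n R))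
          (theta (aE (.mk m n R)) ((En.mk m n R).l - 1)) := mem_C_theta hv
      have hs := C_split_last (x := 0) hζ ⟨theta_principal, theta_pos hnu⟩ (below_zero _)
        (A := aE (.mk m n R)) (y := max (Lam * bS R + Lam) (Nm m (bS R)))
        (π := theta (nu n R) n) (by rw [add_zero, ← haE]; exact hmem)
      have hnu' := (theta_small_mem_iff ((nu_lt_Om hps hn).trans (Om_lt_Om (Nat.lt_succ_self n)))
        hζ hLam).1 hs.2.1
      have hprt := hps.mem_of_nu hn hζ hLam hnu'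
      have hpos : 0 < aE (.mk m n R) := Lam_pos.trans_le hLam
      exact C.add (C.mul (hps.bS_mem hn hζ hLam hprt)) (Lam_mem_C hpos)

theorem Zn_mem {m n : ℕ} {R : List Pc} (hm : 1 ≤ m) (hmn : m ≤ n) (hR : GS n R)
    {A ζ : Ordinal.{0}} (hζ : ζ ≤ Om m) (hA : Lam * bS R + Lam < A)
    (h : ∀ π ∈ R, ∀ x ∈ prt π, x ∈ C A ζ) : AA (Zn m n R) ∈ C A ζ := by
  have hn : 1 ≤ n := hm.trans hmn
  have hps := hR.ps hn
  have hζ' : ζ ≤ Lam := hζ.trans (Om_lt_Lam m).le
  have hLam : Lam ≤ A := le_trans le_add_self hA.le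
  have hpos : 0 < A := Lam_pos.trans_le hLam
  have hbS : bS R ∈ C A ζ := hps.bS_mem hn hζ' hLam h
  have hX : Lam * bS R + Lam ∈ C A ζ := C.add (C.mul hbS) (Lam_mem_C hpos)
  by_cases hne : m = n
  · subst hne
    rw [Zn, if_pos rfl, AA_stable]
    exact hX
  · rw [Zn, if_neg hne, AA_cons, aE_unstable hne, T_stable]
    refine C.add (C.add ?_ ?_) (Yn_mem hps hn hζ' hA h)
    · rcases max_choice (Lam * bS R + Lam) (Nm m (bS R)) with h1 | h1
      · rw [h1]; exact hX
      · rw [h1]; exact Nm_mem hζ hbS hpos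
    · exact (theta_small_mem_iff ((nu_lt_Om hps hn).trans (Om_lt_Om (Nat.lt_succ_self n)))
        hζ' hLam).2 (nu_mem hps hn hζ' hA h)

theorem Zn_lt {m n : ℕ} {R : List Pc} (hm : 1 ≤ m) (hmn : m ≤ n) (hR : GS n R)
    {A ζ : Ordinal.{0}} (hζ : ζ ≤ Om m) (hA : Lam * bS R + Lam < A)
    (h : ∀ π ∈ R, ∀ x ∈ prt π, x ∈ C A ζ) (hlim : ∀ u < A, u + 1 < A)
    (hadd : m < n → ∀ u < A, u + (theta (nu n R) n + Yn n R) < A) :
    AA (Zn m n R) < A := by
  have hn : 1 ≤ n := hm.trans hmn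
  have hps := hR.ps hn
  have hζ' : ζ ≤ Lam := hζ.trans (Om_lt_Lam m).le
  have hLam : Lam ≤ A := le_trans le_add_self hA.le
  have hpos : 0 < A := Lam_pos.trans_le hLam
  by_cases hne : m = n
  · subst hne
    rw [Zn, if_pos rfl, AA_stable]
    exact hA
  · rw [Zn, if_neg hne, AA_cons, aE_unstable hne, T_stable, add_assoc]
    refine hadd (lt_of_le_of_ne hmn hne) _ (max_lt hA ?_)
    exact Nm_lt hlim hpos (C_mono le_rfl hζ (hps.bS_mem hn hζ' hLam h))

end Kriz
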