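import Pool.Agent.Work.MP_0f6836_lc.UB.CU
import Pool.Agent.Work.MP_0f6836_lc.UB.ZZ
import Pool.Agent.Work.MP_0f6836_lc.UB.CO
import Pool.Agent.Work.MP_0f6836_lc.UB.PR
import Pool.Agent.Work.MP_0f6836_lc.UB.PD
import Pool.Agent.Work.MP_0f6836_lc.UB.GX
import Pool.Agent.Work.MP_0f6836_lc.UB.SG
import Pool.Agent.Work.MP_0f6836_lc.UB.O2

/-!
# Upper bound: refinement, preparations
-/

namespace Kriz

open Ordinal

theorem sizeOf_child : ∀ {t : KT} {z : ℕ × KT}, z ∈ t.ch → sizeOf z.2 < sizeOf t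
  | .nil, z, h => by simp [KT.ch] at h
  | .cons l s r, z, h => by
    simp only [KT.ch, List.mem_cons] at h
    rcases h with rfl | h
    · simp only [KT.cons.sizeOf_spec]; omega
    · have := sizeOf_child h; simp only [KT.cons.sizeOf_spec]; omega

theorem pos_ch : ∀ {t : KT} {z : ℕ × KT}, t.Pos → z ∈ t.ch → 1 ≤ z.1 ∧ z.2.Pos
  | .nil, z, _, h => by simp [KT.ch] at h
  | .cons l s r, z, hp, h => by
    simp only [KT.ch, List.mem_cons] at h
    rcases h with rfl | h
    · exact ⟨hp.1, hp.2.1⟩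
    · exact pos_ch hp.2.2 h

/-- `Z` is a refinement of the context `ctx` by `(m, t)` -/
structure RefOK (m : ℕ) (t : KT) (ctx Z : List En) : Prop where
  ig : IG Z
  head : ∀ d ∈ Z.head?, d.l = m
  hull : ∀ l A ζ, Hs ctx l A ζ → inh A ζ (AA Z)
  cov : ∀ c, st ctx ⊆ c → ∀ y, Mem c y → ¬ Rel (m, t) y → Mem (sctx Z c) y

def RefS (N : ℕ) : Prop := ∀ t : KT, sizeOf t < N → t.Pos → ∀ m, 1 ≤ m → ∀ ctx, GC ctx →
  (∀ e ∈ ctx, e.l ≤ m) → Mem (st ctx) (m, t) → ∃ Z, RefOK m t ctx Z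

theorem hs_hull {c : List En} {l : ℕ} {A ζ : Ordinal.{0}} (h : GC c) (hS : ∀ e ∈ c, e.S ≠ [])
    (hh : Hs c l A ζ) : Hull l A ζ := by
  rcases hh with ⟨rfl, rfl, rfl⟩ | ⟨e, he, rfl, rfl, rfl⟩
  · exact hull_bot
  · exact (h.ge e he).hull (hS e he)

theorem hs_top {c : List En} {e0 : En} (h : GC (c ++ [e0])) {l : ℕ} {A ζ : Ordinal.{0}}
    (hh : Hs (c ++ [e0]) l A ζ) : aE e0 ∈ C A ζ ∧ aE e0 ≤ A ∧ l ≤ e0.l := by
  rcases hh with ⟨rfl, rfl, rfl⟩ | ⟨e, he, rfl, rfl, rfl⟩
  · have := h.bot e0 (by simp)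
    exact ⟨this.1, this.2.le, Nat.zero_le _⟩
  · rcases List.mem_append.1 he with he | he
    · have := (List.pairwise_append.1 h.pw).2.2 e he e0 (by simp)
      exact ⟨this.2.1, this.2.2.le, this.1.le⟩
    · rw [List.mem_singleton] at he
      subst he
      exact ⟨mem_C_theta (h.ge _ (by simp)).valid, le_rfl, le_rfl⟩

theorem hs_filter {c : List En} {m l : ℕ} {A ζ : Ordinal.{0}} (hh : Hs c l A ζ) (hl : l ≤ m) :
    Hs (c.filter (fun e => e.l ≤ m)) l A ζ := by
  rcases hh with h | ⟨e, he, rfl, rfl, rfl⟩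
  · exact Or.inl h
  · exact Or.inr ⟨e, List.mem_filter.2 ⟨he, by simpa using hl⟩, rfl, rfl, rfl⟩

theorem T_mem_of_inh {A ζ : Ordinal.{0}} {d : En} {D : List En} (h : inh A ζ (AA (d :: D))) :
    T (d :: D) ∈ C A ζ := by
  rw [T_cons]; exact C.coll _ h.2 h.1

theorem T_mem_hull {ctx : List En} {m : ℕ} {Z : List En} (hZ : IG Z)
    (hd : ∀ d ∈ Z.head?, d.l = m)
    (h : ∀ l A ζ, Hs (ctx.filter (fun e => e.l ≤ m)) l A ζ → inh A ζ (AA Z))
    {l : ℕ} {A ζ : Ordinal.{0}} (hh : Hs ctx l A ζ) (hu : Hull l A ζ) : T Z ∈ C A ζ := by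
  cases Z with
  | nil => exact absurd rfl hZ.ne_nil
  | cons d D =>
    have hm : d.l = m := hd d (by simp)
    by_cases hl : l ≤ m
    · exact T_mem_of_inh (h l A ζ (hs_filter hh hl))
    · refine C.base ((hZ.T_pr).2.2.trans_le ?_)
      rw [hm]
      exact hu.low m (by omega)

theorem lt_all_iff {d : En} {D : List En} (hD : IG (d :: D)) (k : ℕ) :
    (∀ d' ∈ d :: D, k < d'.l) ↔ k < d.l := by
  constructor
  · intro h; exact h d (by simp)
  · intro h d' hd'
    rcases List.mem_cons.1 hd' with rfl | hd'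
    · exact h
    · have := (List.pairwise_cons.1 hD.pairwise).1 d' hd'
      exact h.trans this.1

theorem st_slot {ctx : List En} {d : En} {D : List En} (hD : IG (d :: D)) :
    sctx (d :: D) (st ctx) = st (ctx.filter (fun e => e.l < d.l) ++ d :: D) := by
  ext e
  simp only [sctx, st, Set.mem_ofPred_eq, List.mem_append, List.mem_filter, lt_all_iff hD,
    decide_eq_true_eq]
  tauto

theorem st_filter (ctx : List En) (m : ℕ) :
    st (ctx.filter (fun e => e.l ≤ m)) = cle (st ctx) m := by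
  ext e
  simp [st, cle]

theorem cle_eq {ctx : List En} {m : ℕ} (h : ∀ e ∈ ctx, e.l ≤ m) : cle (st ctx) m = st ctx := by
  ext e
  simp only [cle, st, Set.mem_ofPred_eq]
  exact ⟨fun h => h.1, fun h' => ⟨h', h e h'⟩⟩

/-- refinement for a free place -/
theorem free_ref {N : ℕ} (IH : RefS N) {ctx : List En} (hc : GC ctx)
    (hS : ∀ e ∈ ctx, e.S ≠ []) {z : ℕ × KT} (hz1 : 1 ≤ z.1) (hzp : z.2.Pos)
    (hzN : sizeOf z.2 < N) (hz : Mem (st ctx) z) :
    ∃ Z, IG Z ∧ (∀ d ∈ Z.head?, d.l = z.1) ∧ (∀ l A ζ, Hs ctx l A ζ → T Z ∈ C A ζ) ∧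
      (∀ l A ζ, Hs ctx l A ζ → l ≤ z.1 → inh A ζ (AA Z)) ∧
      (∀ c, st ctx ⊆ c → ∀ y, Mem c y → ¬ Rel z y → Mem (sctx Z c) y) := by
  obtain ⟨m, t⟩ := z
  obtain ⟨Z, hZ⟩ := IH t hzN hzp m hz1 (ctx.filter (fun e => e.l ≤ m)) (hc.filter m)
    (fun e he => by simpa using (List.mem_filter.1 he).2)
    (hz.mono (fun e he _ => by
      rw [st_filter] at he; exact he.1))
  refine ⟨Z, hZ.ig, hZ.head, fun l A ζ hh => T_mem_hull hZ.ig hZ.head hZ.hull hh
    (hs_hull hc hS hh), fun l A ζ hh hl => hZ.hull l A ζ (hs_filter hh hl),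
    fun c hcc y hy hr => hZ.cov c (fun e he => hcc ?_) y hy hr⟩
  rw [st_filter] at he; exact he.1

/-- refinement of a slot -/
theorem slot_ref {N : ℕ} (IH : RefS N) {ctx : List En} (hc : GC ctx)
    (hS : ∀ e ∈ ctx, e.S ≠ []) {D : List En} (hD : IG D)
    (hT : ∀ l A ζ, Hs ctx l A ζ → T D ∈ C A ζ) {z : ℕ × KT} (hz1 : 1 ≤ z.1) (hzp : z.2.Pos)
    (hzN : sizeOf z.2 < N) (hz : Mem (sctx D (st ctx)) z) :
    ∃ D', IG D' ∧ T D' < T D ∧ (∀ d ∈ D.head?, ∀ d' ∈ D'.head?, d'.l ≤ d.l) ∧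
      (∀ l A ζ, Hs ctx l A ζ → T D' ∈ C A ζ) ∧
      (∀ c, st ctx ⊆ c → ∀ y, Mem (sctx D c) y → ¬ Rel z y → Mem (sctx D' c) y) := by
  cases D with
  | nil => exact absurd rfl hD.ne_nil
  | cons d D =>
  obtain ⟨m, t⟩ := z
  have hdich : ∀ l A ζ, Hs ctx l A ζ → (l < d.l → inh A ζ (AA (d :: D))) ∧
      (d.l ≤ l → T (d :: D) < ζ) := fun l A ζ hh =>
    hD.dich (hs_hull hc hS hh) (hT l A ζ hh)
  have hGD : GC (ctx.filter (fun e => e.l < d.l) ++ d :: D) := by
    refine hc.slot hD ?_ ?_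
    · exact (hdich 0 _ _ (Or.inl ⟨rfl, rfl, rfl⟩)).1 (by have := hD.ge.one_le; omega)
    · intro e he hl
      exact (hdich _ _ _ (Or.inr ⟨e, he, rfl, rfl, rfl⟩)).1 hl
  obtain ⟨Z, hZ⟩ := IH t hzN hzp m hz1
    ((ctx.filter (fun e => e.l < d.l) ++ d :: D).filter (fun e => e.l ≤ m)) (hGD.filter m)
    (fun e he => by simpa using (List.mem_filter.1 he).2)
    (hz.mono (fun e he _ => by
      rw [st_filter] at he; rw [st_slot hD]; exact he.1))
  have hcut := cut_ok hD hZ.ig hZ.head (fun e he hl => by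
    refine hZ.hull e.l _ _ (Or.inr ⟨e, ?_, rfl, rfl, rfl⟩)
    exact List.mem_filter.2 ⟨List.mem_append.2 (Or.inr he), by simpa using hl⟩)
  obtain ⟨hig, hlt, hinh, hhead⟩ := hcut
  refine ⟨cut (d :: D) m Z, hig, hlt, ?_, ?_, ?_⟩
  · intro d' hd' d'' hd''
    rw [hhead d' hd' d'' hd'']
    exact min_le_left _ _
  · intro l A ζ hh
    have hu := hs_hull hc hS hh
    have hζL : ζ ≤ Lam := hu.up.trans (Om_le_Lam _)
    by_cases h1 : d.l ≤ l
    · exact C.base (hlt.trans ((hdich l A ζ hh).2 h1))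
    · have h1 : l < d.l := not_le.1 h1
      have hi := (hdich l A ζ hh).1 h1
      generalize hE : cut (d :: D) m Z = E at *
      cases E with
      | nil => exact absurd rfl hig.ne_nil
      | cons d1 E =>
        by_cases h2 : l ≤ m
        · refine T_mem_of_inh (hinh A ζ ?_ hi ?_)
          · intro d' hd'
            simp only [List.head?_cons, Option.mem_def, Option.some.injEq] at hd'
            subst hd'
            exact hu.up.trans (Om_le_Om (by omega))
          · refine hZ.hull l A ζ (hs_filter ?_ h2)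
            rcases hh with hh | ⟨e, he, rfl, rfl, rfl⟩
            · exact Or.inl hh
            · refine Or.inr ⟨e, List.mem_append.2 (Or.inl (List.mem_filter.2 ⟨he, ?_⟩)), rfl, rfl,
                rfl⟩
              simpa using h1
        · refine C.base (hig.T_pr.2.2.trans_le ?_)
          rw [hhead d (by simp) d1 (by simp)]
          exact (Om_le_Om (min_le_right _ _)).trans (hu.low m (by omega))
  · intro c hcc y hy hr
    have h1 := hZ.cov (sctx (d :: D) c) ?_ y hy hr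
    · refine h1.mono ?_
      rintro e (he | ⟨he, he2⟩) -
      · rcases List.mem_append.1 he with he | he
        · obtain ⟨he1, he2⟩ := List.mem_filter.1 he
          have he2 : e.l < m := by simpa using he2
          refine Or.inr ⟨Or.inl he1, fun d' hd' => ?_⟩
          cases Z with
          | nil => simp at hd'
          | cons d0 Z =>
            have := hZ.head d0 (by simp)
            exact (lt_all_iff hZ.ig e.l).2 (by omega) d' hd'
        · exact Or.inl he
      · cases Z with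
        | nil => exact absurd rfl hZ.ig.ne_nil
        | cons d0 Z =>
          have h2 := hZ.head d0 (by simp)
          have h3 : e.l < d0.l := he2 d0 (List.mem_append.2 (Or.inr (by simp)))
          refine Or.inr ⟨Or.inr ⟨he, fun d' hd' => ?_⟩, (lt_all_iff hZ.ig e.l).2 h3⟩
          by_cases h4 : d'.l < m
          · exact he2 d' (List.mem_append.2 (Or.inl (List.mem_filter.2 ⟨hd', by simpa using h4⟩)))
          · omega
    · intro e he
      rw [st_filter] at he
      have he := he.1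
      rw [← st_slot hD] at he
      rcases he with he | ⟨he, he2⟩
      · exact Or.inl he
      · exact Or.inr ⟨hcc he, he2⟩

end Kriz
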