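import Pool.Agent.Work.MP_0f6836_lc.UB.Ref1

/-!
# Upper bound: the new pieces
-/

namespace Kriz

open Ordinal

/-- the data of the refinement of a piece -/
structure ND (ctx : List En) (π : Pc) (L0 L2 : List (ℕ × KT)) (os : List (Option (ℕ × KT)))
    (Da : ℕ × KT → List En) (Db : ℕ → List En) (Dc : ℕ × KT → List En) : Prop where
  len0 : L0.length ≤ π.f
  leno : os.length = π.L.length
  a_ig : ∀ z ∈ L0, IG (Da z)
  a_hull : ∀ z ∈ L0, ∀ l A ζ, Hs ctx l A ζ → T (Da z) ∈ C A ζ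
  a_cov : ∀ z ∈ L0, ∀ c, st ctx ⊆ c → ∀ y, Mem c y → ¬ Rel z y → Mem (sctx (Da z) c) y
  b : ∀ i D z, π.L[i]? = some D → os[i]? = some (some z) → IG (Db i) ∧ T (Db i) < T D ∧
    (∀ d ∈ D.head?, ∀ d' ∈ (Db i).head?, d'.l ≤ d.l) ∧
    (∀ l A ζ, Hs ctx l A ζ → T (Db i) ∈ C A ζ) ∧
    (∀ c, st ctx ⊆ c → ∀ y, Mem (sctx D c) y → ¬ Rel z y → Mem (sctx (Db i) c) y)
  c_ne : ∀ z ∈ L2, π.M ≠ []
  c : ∀ z ∈ L2, IG (Dc z) ∧ T (Dc z) < T π.M ∧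
    (∀ d ∈ π.M.head?, ∀ d' ∈ (Dc z).head?, d'.l ≤ d.l) ∧
    (∀ l A ζ, Hs ctx l A ζ → T (Dc z) ∈ C A ζ) ∧
    (∀ c, st ctx ⊆ c → ∀ y, Mem (sctx π.M c) y → ¬ Rel z y → Mem (sctx (Dc z) c) y)

variable {ctx : List En} {π : Pc} {L0 L2 : List (ℕ × KT)} {os : List (Option (ℕ × KT))}
  {Da : ℕ × KT → List En} {Db : ℕ → List En} {Dc : ℕ × KT → List En}

theorem mem_prt {π : Pc} {x : Ordinal.{0}} : x ∈ prt π ↔
    x = 1 ∨ (π.M ≠ [] ∧ x = G (T π.M)) ∨ ∃ D ∈ π.L, x = T D := by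
  unfold prt
  split_ifs with h
  · simp [h, eq_comm]
  · simp [h, eq_comm]

/-- index lookup in the list of options -/
theorem ND.exists_slot (h : ND ctx π L0 L2 os Da Db Dc) {i : ℕ} {z : ℕ × KT}
    (hi : os[i]? = some (some z)) : ∃ D, π.L[i]? = some D := by
  have h1 : i < os.length := (List.getElem?_eq_some_iff.1 hi).1
  rw [h.leno] at h1
  exact ⟨_, List.getElem?_eq_getElem h1⟩

/-- parts of the new pieces -/
theorem ND.parts (h : ND ctx π L0 L2 os Da Db Dc) {P : Ordinal.{0} → Prop}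
    (h1 : ∀ x ∈ prt π, P x) (hM : π.M ≠ [] → P (T π.M))
    (ha : ∀ z ∈ L0, P (T (Da z)))
    (hb : ∀ i D z, π.L[i]? = some D → os[i]? = some (some z) → P (T (Db i)))
    (hc : ∀ z ∈ L2, P (G (T (Dc z)))) {ρ : Pc} (hρ : IsNew π L0 L2 os Da Db Dc ρ) :
    ∀ x ∈ prt ρ, P x := by
  intro x hx
  cases hρ with
  | @a z hz =>
    rcases mem_prt.1 hx with rfl | ⟨hM, rfl⟩ | ⟨D, hD, rfl⟩
    · exact h1 1 (mem_prt.2 (Or.inl rfl))
    · exact h1 _ (mem_prt.2 (Or.inr (Or.inl ⟨hM, rfl⟩)))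
    · rcases List.mem_cons.1 hD with rfl | hD
      · exact ha z hz
      · exact h1 _ (mem_prt.2 (Or.inr (Or.inr ⟨D, hD, rfl⟩)))
  | @b i z hz =>
    rcases mem_prt.1 hx with rfl | ⟨hM, rfl⟩ | ⟨D, hD, rfl⟩
    · exact h1 1 (mem_prt.2 (Or.inl rfl))
    · exact h1 _ (mem_prt.2 (Or.inr (Or.inl ⟨hM, rfl⟩)))
    · rcases List.mem_or_eq_of_mem_set hD with hD | rfl
      · exact h1 _ (mem_prt.2 (Or.inr (Or.inr ⟨D, hD, rfl⟩)))
      · obtain ⟨D', hD'⟩ := h.exists_slot hz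
        exact hb i D' z hD' hz
  | @c z hz =>
    rcases mem_prt.1 hx with rfl | ⟨hM', rfl⟩ | ⟨D, hD, rfl⟩
    · exact h1 1 (mem_prt.2 (Or.inl rfl))
    · exact hc z hz
    · rcases List.mem_append.1 hD with hD | hD
      · exact h1 _ (mem_prt.2 (Or.inr (Or.inr ⟨D, hD, rfl⟩)))
      · rw [(List.mem_replicate.1 hD).2]
        exact hM (h.c_ne z hz)

/-- slots of the new pieces -/
theorem ND.gs (h : ND ctx π L0 L2 os Da Db Dc) {n n' : ℕ} {S N : List Pc} (hS : GS n S)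
    (hπ : π ∈ S) (hn : n ≤ n') (ha : ∀ z ∈ L0, ∀ d ∈ (Da z).head?, d.l ≤ n')
    (hN : ∀ ρ ∈ N, IsNew π L0 L2 os Da Db Dc ρ) : GS n' N := by
  have key : ∀ ρ ∈ N, (∀ D ∈ ρ.L, IG D ∧ ∀ d ∈ D.head?, d.l ≤ n') ∧
      (ρ.M ≠ [] → IG ρ.M) ∧ (∀ d ∈ ρ.M.head?, d.l ≤ n') := by
    intro ρ hρ
    have hL : ∀ D ∈ π.L, IG D ∧ ∀ d ∈ D.head?, d.l ≤ n' := fun D hD =>
      ⟨hS.L π hπ D hD, fun d hd => (hS.Lb π hπ D hD d hd).trans hn⟩
    have hM : (π.M ≠ [] → IG π.M) ∧ (∀ d ∈ π.M.head?, d.l ≤ n') :=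
      ⟨hS.M π hπ, fun d hd => (hS.Mb π hπ d hd).trans hn⟩
    have hdown : ∀ {D D' : List En}, IG D → (∀ d ∈ D.head?, d.l ≤ n') →
        (∀ d ∈ D.head?, ∀ d' ∈ D'.head?, d'.l ≤ d.l) → ∀ d' ∈ D'.head?, d'.l ≤ n' := by
      intro D D' hD h1 h2 d' hd'
      cases D with
      | nil => exact absurd rfl hD.ne_nil
      | cons d D => exact (h2 d (by simp) d' hd').trans (h1 d (by simp))
    cases hN ρ hρ with
    | @a z hz =>
      refine ⟨fun D hD => ?_, hM⟩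
      rcases List.mem_cons.1 hD with rfl | hD
      · exact ⟨h.a_ig z hz, ha z hz⟩
      · exact hL D hD
    | @b i z hz =>
      refine ⟨fun D hD => ?_, hM⟩
      rcases List.mem_or_eq_of_mem_set hD with hD | rfl
      · exact hL D hD
      · obtain ⟨D', hD'⟩ := h.exists_slot hz
        obtain ⟨h1, -, h3, -⟩ := h.b i D' z hD' hz
        have hm : D' ∈ π.L := List.mem_of_getElem? hD'
        exact ⟨h1, hdown (hL D' hm).1 (hL D' hm).2 h3⟩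
    | @c z hz =>
      obtain ⟨h1, -, h3, -⟩ := h.c z hz
      have hne := h.c_ne z hz
      refine ⟨fun D hD => ?_, fun _ => h1, hdown (hM.1 hne) hM.2 h3⟩
      rcases List.mem_append.1 hD with hD | hD
      · exact hL D hD
      · rw [(List.mem_replicate.1 hD).2]
        exact ⟨hM.1 hne, hM.2⟩
  exact ⟨fun ρ hρ D hD => ((key ρ hρ).1 D hD).1, fun ρ hρ D hD => ((key ρ hρ).1 D hD).2,
    fun ρ hρ => (key ρ hρ).2.1, fun ρ hρ => (key ρ hρ).2.2⟩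

theorem GS.append {n : ℕ} {S S' : List Pc} (h : GS n S) (h' : GS n S') : GS n (S ++ S') := by
  refine ⟨?_, ?_, ?_, ?_⟩ <;> intro π hπ <;> rcases List.mem_append.1 hπ with hπ | hπ
  exacts [h.L π hπ, h'.L π hπ, h.Lb π hπ, h'.Lb π hπ, h.M π hπ, h'.M π hπ, h.Mb π hπ, h'.Mb π hπ]

theorem GS.mono {n n' : ℕ} {S S' : List Pc} (h : GS n S) (hs : ∀ π ∈ S', π ∈ S) (hn : n ≤ n') :
    GS n' S' :=
  ⟨fun π hπ => h.L π (hs π hπ), fun π hπ D hD d hd => (h.Lb π (hs π hπ) D hD d hd).trans hn,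
    fun π hπ => h.M π (hs π hπ), fun π hπ d hd => (h.Mb π (hs π hπ) d hd).trans hn⟩

theorem IG.T_pr' {D : List En} (h : IG D) : Pr (T D) ∧ T D < Lam := by
  cases D with
  | nil => exact absurd rfl h.ne_nil
  | cons d D => exact ⟨h.T_pr.1, h.T_pr.2.2.trans (Om_lt_Lam _)⟩

theorem PS.lam {n : ℕ} {S : List Pc} (h : PS n S) : ∀ π ∈ S, ∀ x ∈ prt π, Pr x ∧ x < Lam :=
  fun π hπ x hx => ⟨(h π hπ x hx).1, (h π hπ x hx).2.trans (Om_lt_Lam _)⟩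

/-- the new pieces have smaller ordinals -/
theorem ND.pB_lt (h : ND ctx π L0 L2 os Da Db Dc) {n : ℕ} {S : List Pc} (hS : GS n S)
    (hn : 1 ≤ n) (hπ : π ∈ S) {ρ : Pc} (hρ : IsNew π L0 L2 os Da Db Dc ρ) : pB ρ < pB π := by
  have hp := (hS.ps hn).lam π hπ
  cases hρ with
  | @a z hz =>
    exact pB_new_a ((List.length_pos_of_mem hz).trans_le h.len0) hp (h.a_ig z hz).T_pr'
  | @b i z hz =>
    obtain ⟨D', hD'⟩ := h.exists_slot hz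
    obtain ⟨h1, h2, -⟩ := h.b i D' z hD' hz
    exact pB_new_b hD' hp h1.T_pr'.1 h2
  | @c z hz =>
    obtain ⟨h1, h2, -⟩ := h.c z hz
    have hne := h.c_ne z hz
    exact pB_new_c hne (hS.M π hπ hne).T_pr' hp h1.ne_nil h2

theorem ND.pN_lt (h : ND ctx π L0 L2 os Da Db Dc) {n : ℕ} {S : List Pc} (hS : GS n S)
    (hn : 1 ≤ n) (hπ : π ∈ S) {Y Y' : Ordinal.{0}} (hY : Pr Y ∧ Y < Lam) (hY' : Pr Y')
    (hle : Y' ≤ Y) (ha : ∀ z ∈ L0, T (Da z) < Y) {ρ : Pc}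
    (hρ : IsNew π L0 L2 os Da Db Dc ρ) : pN Y' ρ < pN Y π := by
  have hp := (hS.ps hn).lam π hπ
  cases hρ with
  | @a z hz =>
    exact pN_new_a ((List.length_pos_of_mem hz).trans_le h.len0) hY hY' hle hp
      (h.a_ig z hz).T_pr'.1 (ha z hz)
  | @b i z hz =>
    obtain ⟨D', hD'⟩ := h.exists_slot hz
    obtain ⟨h1, h2, -⟩ := h.b i D' z hD' hz
    exact pN_new_b hY hY' hle hD' hp h1.T_pr'.1 h2
  | @c z hz =>
    obtain ⟨h1, h2, -⟩ := h.c z hz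
    have hne := h.c_ne z hz
    exact pN_new_c hY hY' hle hne (hS.M π hπ hne).T_pr' hp h1.ne_nil h2

/-- covering for the new pieces -/
theorem ND.fit (h : ND ctx π L0 L2 os Da Db Dc) {t s : KT}
    (ht : t.ch.Perm (L0 ++ (os.reduceOption ++ L2))) {c : Set En} (hc : st ctx ⊆ c)
    (hall : ∀ y ∈ s.ch, Mem c y) (hs : ¬ At t s) (hf : Fit c π s.ch) :
    ∃ ρ, IsNew π L0 L2 os Da Db Dc ρ ∧ Fit c ρ s.ch :=
  fit_new ht h.len0 h.leno hall (fun z hz y hy hr => h.a_cov z hz c hc y hy hr)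
    (fun i D z hD hz y hy hr => (h.b i D z hD hz).2.2.2.2 c hc y hy hr)
    (fun z hz y hy hr => (h.c z hz).2.2.2.2 c hc y hy hr) (fun z hz => (h.c z hz).1.ne_nil) hs hf

/-- the final step of all cases -/
theorem pack {m n : ℕ} {t : KT} {ctx : List En} {R : List Pc} (hm : 1 ≤ m) (hmn : m ≤ n)
    (hc : GC ctx) (hl : ∀ e ∈ ctx, e.l ≤ m) (hS : ∀ e ∈ ctx, e.S ≠ []) (hR : GS n R)
    (hp : ∀ l A ζ, Hs ctx l A ζ → ∀ π ∈ R, ∀ x ∈ prt π, x ∈ C A ζ)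
    {l0 : ℕ} {A0 ζ0 : Ordinal.{0}} (h0 : Hs ctx l0 A0 ζ0)
    (hA0 : ∀ l A ζ, Hs ctx l A ζ → A0 ≤ A ∧ l ≤ m)
    (hb : Lam * bS R + Lam < A0) (hlim : ∀ u < A0, u + 1 < A0)
    (hadd : m < n → ∀ u < A0, u + (theta (nu n R) n + Yn n R) < A0)
    (hcov : ∀ c', st ctx ⊆ c' → ∀ s : KT, ¬ At t s → (∀ y ∈ s.ch, Mem c' y) →
      (∀ e ∈ st ctx, ∃ π ∈ e.S, Fit c' π s.ch) → ∃ ρ ∈ R, Fit c' ρ s.ch) :
    RefOK m t ctx (Zn m n R) := by
  have hu0 := hs_hull hc hS h0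
  have hζ : ∀ l A ζ, Hs ctx l A ζ → ζ ≤ Om m := fun l A ζ hh =>
    (hs_hull hc hS hh).up.trans (Om_le_Om (hA0 l A ζ hh).2)
  have hn : 1 ≤ n := hm.trans hmn
  have hhead : ∀ {D : List En}, IG D → (∀ d ∈ D.head?, d.l ≤ n) → ∃ d ∈ D, d.l ≤ n := by
    intro D hD h1
    cases D with
    | nil => exact absurd rfl hD.ne_nil
    | cons d D => exact ⟨d, by simp, h1 d (by simp)⟩
  refine ⟨?_, Zn_head, ?_, ?_⟩
  · refine Zn_IG hm hmn hR (A := A0) ?_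
    have h1 := (hR.ps hn).bS_mem hn (hu0.up.trans (Om_le_Lam _)) hu0.big (hp _ _ _ h0)
    exact C_mono le_rfl (hζ _ _ _ h0) h1
  · intro l A ζ hh
    have hbA : Lam * bS R + Lam < A := hb.trans_le (hA0 l A ζ hh).1
    refine ⟨Zn_mem hm hmn hR (hζ l A ζ hh) hbA (hp l A ζ hh), ?_⟩
    exact (Zn_lt hm hmn hR (hζ _ _ _ h0) hb (hp _ _ _ h0) hlim hadd).trans_le (hA0 l A ζ hh).1
  · intro c hcc y hy hr
    exact cov_Zn hmn (ctx := st ctx) hl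
      (fun π hπ D hD => hhead (hR.L π hπ D hD) (hR.Lb π hπ D hD))
      (fun π hπ hne => hhead (hR.M π hπ hne) (hR.Mb π hπ)) hcov y c hcc hy hr

end Kriz
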