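import Pool.Agent.Work.MP_0f6836_lc.UB.Ref2

/-!
# Upper bound: the refinement theorem
-/

namespace Kriz

open Ordinal

theorem exists_ND {N : ℕ} (IH : RefS N) {ctx : List En} (hc : GC ctx)
    (hS : ∀ e ∈ ctx, e.S ≠ []) {n : ℕ} {S : List Pc} (hGS : GS n S) {π : Pc} (hπ : π ∈ S)
    (hparts : ∀ l A ζ, Hs ctx l A ζ → ∀ x ∈ prt π, x ∈ C A ζ)
    {t : KT} (hsz : sizeOf t ≤ N) (hpos : t.Pos)
    {L0 L2 : List (ℕ × KT)} {os : List (Option (ℕ × KT))}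
    (ht : t.ch.Perm (L0 ++ (os.reduceOption ++ L2))) (h0 : L0.length ≤ π.f)
    (hos : os.length = π.L.length)
    (hslot : ∀ (i : ℕ) (D : List En) (y : ℕ × KT), π.L[i]? = some D → os[i]? = some (some y) →
      Mem (sctx D (st ctx)) y)
    (hmult : ∀ y ∈ L2, π.M ≠ [] ∧ Mem (sctx π.M (st ctx)) y)
    (P : ℕ × KT → List En → Prop)
    (hDa : ∀ z ∈ L0, ∃ Z, IG Z ∧ (∀ l A ζ, Hs ctx l A ζ → T Z ∈ C A ζ) ∧
      (∀ c, st ctx ⊆ c → ∀ y, Mem c y → ¬ Rel z y → Mem (sctx Z c) y) ∧ P z Z) :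
    ∃ Da Db Dc, ND ctx π L0 L2 os Da Db Dc ∧ ∀ z ∈ L0, P z (Da z) := by
  have hsub : ∀ z ∈ L0 ++ (os.reduceOption ++ L2), 1 ≤ z.1 ∧ z.2.Pos ∧ sizeOf z.2 < N := by
    intro z hz
    have hz' := ht.mem_iff.2 hz
    exact ⟨(pos_ch hpos hz').1, (pos_ch hpos hz').2, (sizeOf_child hz').trans_le hsz⟩
  have h1 : ∀ z, ∃ Z, z ∈ L0 → IG Z ∧ (∀ l A ζ, Hs ctx l A ζ → T Z ∈ C A ζ) ∧
      (∀ c, st ctx ⊆ c → ∀ y, Mem c y → ¬ Rel z y → Mem (sctx Z c) y) ∧ P z Z := by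
    intro z
    by_cases hz : z ∈ L0
    · obtain ⟨Z, hZ⟩ := hDa z hz
      exact ⟨Z, fun _ => hZ⟩
    · exact ⟨[], fun h => absurd h hz⟩
  choose Da hDa using h1
  have hT : ∀ D ∈ π.L, ∀ l A ζ, Hs ctx l A ζ → T D ∈ C A ζ := fun D hD l A ζ hh =>
    hparts l A ζ hh _ (mem_prt.2 (Or.inr (Or.inr ⟨D, hD, rfl⟩)))
  have h2 : ∀ i : ℕ, ∃ D', ∀ (D : List En) (z : ℕ × KT), π.L[i]? = some D →
      os[i]? = some (some z) →
      IG D' ∧ T D' < T D ∧ (∀ d ∈ D.head?, ∀ d' ∈ D'.head?, d'.l ≤ d.l) ∧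
      (∀ l A ζ, Hs ctx l A ζ → T D' ∈ C A ζ) ∧
      (∀ c, st ctx ⊆ c → ∀ y, Mem (sctx D c) y → ¬ Rel z y → Mem (sctx D' c) y) := by
    intro i
    by_cases hi : ∃ (D : List En) (z : ℕ × KT), π.L[i]? = some D ∧ os[i]? = some (some z)
    · obtain ⟨D, z, hD, hz⟩ := hi
      have hDm : D ∈ π.L := List.mem_of_getElem? hD
      have hzm : z ∈ os.reduceOption := List.reduceOption_mem_iff.2 (List.mem_of_getElem? hz)
      obtain ⟨g1, g2, g3⟩ := hsub z (List.mem_append.2 (Or.inr (List.mem_append.2 (Or.inl hzm))))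
      obtain ⟨D', hD'⟩ := slot_ref IH hc hS (hGS.L π hπ D hDm) (hT D hDm) g1 g2 g3
        (hslot i D z hD hz)
      refine ⟨D', fun D1 z1 hD1 hz1 => ?_⟩
      rw [hD] at hD1; rw [hz] at hz1
      simp only [Option.some.injEq] at hD1 hz1
      subst hD1; subst hz1
      exact hD'
    · exact ⟨[], fun D z hD hz => absurd ⟨D, z, hD, hz⟩ hi⟩
  choose Db hDb using h2
  have h3 : ∀ z, ∃ D', z ∈ L2 → IG D' ∧ T D' < T π.M ∧
      (∀ d ∈ π.M.head?, ∀ d' ∈ D'.head?, d'.l ≤ d.l) ∧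
      (∀ l A ζ, Hs ctx l A ζ → T D' ∈ C A ζ) ∧
      (∀ c, st ctx ⊆ c → ∀ y, Mem (sctx π.M c) y → ¬ Rel z y → Mem (sctx D' c) y) := by
    intro z
    by_cases hz : z ∈ L2
    · obtain ⟨g1, g2, g3⟩ := hsub z (List.mem_append.2 (Or.inr (List.mem_append.2 (Or.inr hz))))
      obtain ⟨hne, hmem⟩ := hmult z hz
      have hMI := hGS.M π hπ hne
      have hMT : ∀ l A ζ, Hs ctx l A ζ → T π.M ∈ C A ζ := by
        intro l A ζ hh
        have hu := hs_hull hc hS hh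
        exact (G_mem_iff hMI.T_pr'.2 (hu.up.trans (Om_le_Lam _)) hu.big).1
          (hparts l A ζ hh _ (mem_prt.2 (Or.inr (Or.inl ⟨hne, rfl⟩))))
      obtain ⟨D', hD'⟩ := slot_ref IH hc hS hMI hMT g1 g2 g3 hmem
      exact ⟨D', fun _ => hD'⟩
    · exact ⟨[], fun h => absurd h hz⟩
  choose Dc hDc using h3
  refine ⟨Da, Db, Dc, ⟨h0, hos, fun z hz => (hDa z hz).1, fun z hz => (hDa z hz).2.1,
    fun z hz => (hDa z hz).2.2.1, fun i D z hD hz => hDb i D z hD hz,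
    fun z hz => (hmult z hz).1, fun z hz => hDc z hz⟩, fun z hz => (hDa z hz).2.2.2⟩

/-- common part of the two cases with a nonempty context -/
theorem core {N m : ℕ} {t : KT} (IH : RefS N) (hsz : sizeOf t ≤ N) (hpos : t.Pos)
    {c : List En} {e0 : En} (hc : GC (c ++ [e0])) (hl : ∀ e ∈ c ++ [e0], e.l ≤ m)
    (hz : Mem (st (c ++ [e0])) (m, t)) (P : ℕ × KT → List En → Prop)
    (hDa : (∀ e ∈ c ++ [e0], e.S ≠ []) → ∀ z ∈ t.ch, Mem (st (c ++ [e0])) z →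
      ∃ Z, IG Z ∧ (∀ l A ζ, Hs (c ++ [e0]) l A ζ → T Z ∈ C A ζ) ∧
      (∀ c', st (c ++ [e0]) ⊆ c' → ∀ y, Mem c' y → ¬ Rel z y → Mem (sctx Z c') y) ∧ P z Z) :
    (∀ e ∈ c ++ [e0], e.S ≠ []) ∧
    (∀ l A ζ, Hs (c ++ [e0]) l A ζ → ∀ π ∈ e0.S, ∀ x ∈ prt π, x ∈ C A ζ) ∧
    ∃ (π : Pc) (L0 L2 : List (ℕ × KT)) (os : List (Option (ℕ × KT)))
      (Da : ℕ × KT → List En) (Db : ℕ → List En) (Dc : ℕ × KT → List En) (s1 s2 N : List Pc),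
      e0.S = s1 ++ π :: s2 ∧ ND (c ++ [e0]) π L0 L2 os Da Db Dc ∧
      (∀ ρ, ρ ∈ N ↔ IsNew π L0 L2 os Da Db Dc ρ) ∧
      t.ch.Perm (L0 ++ (os.reduceOption ++ L2)) ∧ (∀ z ∈ L0, P z (Da z)) := by
  obtain ⟨g1, g2⟩ := mem_iff.1 hz
  simp only [cle_eq hl] at g1 g2
  have hS : ∀ e ∈ c ++ [e0], e.S ≠ [] := by
    intro e he hne
    obtain ⟨π, hπ, -⟩ := g2 e he (hl e he)
    rw [hne] at hπ
    simp at hπ
  have he0 : e0 ∈ c ++ [e0] := by simp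
  have hge := hc.ge e0 he0
  have hparts : ∀ l A ζ, Hs (c ++ [e0]) l A ζ → ∀ π ∈ e0.S, ∀ x ∈ prt π, x ∈ C A ζ := by
    intro l A ζ hh
    have hu := hs_hull hc hS hh
    exact hge.prt_mem (hu.up.trans (Om_le_Lam _)) hu.big (hs_top hc hh).1
  refine ⟨hS, hparts, ?_⟩
  obtain ⟨π, hπ, L0, L2, os, hperm, hlen0, hleno, hslot, hmult⟩ := g2 e0 he0 (hl e0 he0)
  obtain ⟨Da, Db, Dc, hND, hP⟩ := exists_ND IH hc hS hge.gs hπ
    (fun l A ζ hh => hparts l A ζ hh π hπ) hsz hpos hperm hlen0 hleno hslot hmult P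
    (fun z hz => by
      have hz' : z ∈ t.ch := hperm.mem_iff.2 (List.mem_append.2 (Or.inl hz))
      exact hDa hS z hz' (g1 z hz'))
  obtain ⟨s1, s2, hs⟩ := List.append_of_mem hπ
  obtain ⟨N', hN'⟩ := exists_newP (π := π) (L0 := L0) (L2 := L2) (os := os) (Da := Da) (Db := Db)
    (Dc := Dc)
  exact ⟨π, L0, L2, os, Da, Db, Dc, s1, s2, N', hs, hND, hN', hperm, hP⟩

theorem exists_bound (m : ℕ) (L : List (ℕ × KT)) : ∃ n, m ≤ n ∧ ∀ z ∈ L, z.1 ≤ n := by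
  induction L with
  | nil => exact ⟨m, le_rfl, fun z hz => by simp at hz⟩
  | cons a L ih =>
    obtain ⟨n, h1, h2⟩ := ih
    refine ⟨max n a.1, h1.trans (le_max_left _ _), fun z hz => ?_⟩
    rcases List.mem_cons.1 hz with rfl | hz
    · exact le_max_right _ _
    · exact (h2 z hz).trans (le_max_left _ _)

/-- parts of the new list of pieces -/
theorem parts_R {ctx : List En} {π : Pc} {L0 L2 : List (ℕ × KT)} {os : List (Option (ℕ × KT))}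
    {Da : ℕ × KT → List En} {Db : ℕ → List En} {Dc : ℕ × KT → List En}
    (h : ND ctx π L0 L2 os Da Db Dc) {S s1 s2 N : List Pc} (hs : S = s1 ++ π :: s2)
    (hN : ∀ ρ, ρ ∈ N ↔ IsNew π L0 L2 os Da Db Dc ρ) {n : ℕ} (hGS : GS n S) (hn : 1 ≤ n)
    {A ζ : Ordinal.{0}} (hζ : ζ ≤ Lam) (hA : Lam ≤ A)
    (hp : ∀ π ∈ S, ∀ x ∈ prt π, x ∈ C A ζ)
    (ha : ∀ z ∈ L0, T (Da z) ∈ C A ζ)
    (hb : ∀ (i : ℕ) (D : List En) (z : ℕ × KT), π.L[i]? = some D → os[i]? = some (some z) →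
      T (Db i) ∈ C A ζ)
    (hc : ∀ z ∈ L2, T (Dc z) ∈ C A ζ) :
    ∀ ρ ∈ N ++ (s1 ++ s2), ∀ x ∈ prt ρ, x ∈ C A ζ := by
  have hπ : π ∈ S := by rw [hs]; simp
  intro ρ hρ
  rcases List.mem_append.1 hρ with hρ | hρ
  · refine h.parts (P := fun x => x ∈ C A ζ) (hp π hπ) (fun hM => ?_) ha hb (fun z hz => ?_)
      ((hN ρ).1 hρ)
    · have hMI := hGS.M π hπ hM
      exact (G_mem_iff hMI.T_pr'.2 hζ hA).1
        (hp π hπ _ (mem_prt.2 (Or.inr (Or.inl ⟨hM, rfl⟩))))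
    · exact (G_mem_iff (h.c z hz).1.T_pr'.2 hζ hA).2 (hc z hz)
  · refine hp ρ ?_
    rw [hs]
    rcases List.mem_append.1 hρ with hρ | hρ
    · simp [hρ]
    · simp [hρ]

/-- covering for the new list of pieces -/
theorem cov_R {c : List En} {e0 : En} {π : Pc} {L0 L2 : List (ℕ × KT)}
    {os : List (Option (ℕ × KT))}
    {Da : ℕ × KT → List En} {Db : ℕ → List En} {Dc : ℕ × KT → List En}
    (h : ND (c ++ [e0]) π L0 L2 os Da Db Dc) {s1 s2 N : List Pc} (hs : e0.S = s1 ++ π :: s2)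
    (hN : ∀ ρ, ρ ∈ N ↔ IsNew π L0 L2 os Da Db Dc ρ) {t : KT}
    (ht : t.ch.Perm (L0 ++ (os.reduceOption ++ L2))) :
    ∀ c', st (c ++ [e0]) ⊆ c' → ∀ s : KT, ¬ At t s → (∀ y ∈ s.ch, Mem c' y) →
      (∀ e ∈ st (c ++ [e0]), ∃ π ∈ e.S, Fit c' π s.ch) →
        ∃ ρ ∈ N ++ (s1 ++ s2), Fit c' ρ s.ch := by
  intro c' hc' s hAt hall hf
  obtain ⟨π', hπ', hf'⟩ := hf e0 (by simp [st])
  rw [hs] at hπ'
  rcases List.mem_append.1 hπ' with h1 | h1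
  · exact ⟨π', by simp [h1], hf'⟩
  · rcases List.mem_cons.1 h1 with rfl | h1
    · obtain ⟨ρ, hρ, hf''⟩ := h.fit ht hc' hall hAt hf'
      exact ⟨ρ, List.mem_append.2 (Or.inl ((hN ρ).2 hρ)), hf''⟩
    · exact ⟨π', by simp [h1], hf'⟩

theorem bS_R_lt {ctx : List En} {π : Pc} {L0 L2 : List (ℕ × KT)} {os : List (Option (ℕ × KT))}
    {Da : ℕ × KT → List En} {Db : ℕ → List En} {Dc : ℕ × KT → List En}
    (h : ND ctx π L0 L2 os Da Db Dc) {S s1 s2 N : List Pc} (hs : S = s1 ++ π :: s2)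
    (hN : ∀ ρ, ρ ∈ N ↔ IsNew π L0 L2 os Da Db Dc ρ) {n n' : ℕ} (hGS : GS n S) (hn : 1 ≤ n)
    (hR : GS n' (N ++ (s1 ++ s2))) (hn' : 1 ≤ n') : bS (N ++ (s1 ++ s2)) < bS S := by
  have hπ : π ∈ S := by rw [hs]; simp
  rw [hs]
  refine bS_lt_bS (fun σ hσ => ?_) (fun σ hσ => ⟨?_, ?_⟩)
  · rw [← hs] at hσ
    exact ((hGS.ps hn).pB hn σ hσ).1
  · exact ((hR.ps hn').pB hn' σ (List.mem_append.2 (Or.inl hσ))).1
  · exact h.pB_lt hGS hn hπ ((hN σ).1 hσ)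

/-- Case A: the last entry is stable -/
theorem caseA {N m : ℕ} {t : KT} (IH : RefS N) (hsz : sizeOf t ≤ N) (hpos : t.Pos)
    (hm : 1 ≤ m) {c : List En} {l : ℕ} {S : List Pc} (hc : GC (c ++ [.mk l l S]))
    (hl : ∀ e ∈ c ++ [En.mk l l S], e.l ≤ m)
    (hz : Mem (st (c ++ [.mk l l S])) (m, t)) : ∃ Z, RefOK m t (c ++ [.mk l l S]) Z := by
  obtain ⟨hS, hparts, π, L0, L2, os, Da, Db, Dc, s1, s2, N', hs, hND, hN', hperm, hP⟩ :=
    core IH hsz hpos hc hl hz (fun z Z => ∀ d ∈ Z.head?, d.l = z.1) (fun hS z hzt hz' => by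
      obtain ⟨Z, h1, h2, h3, -, h5⟩ := free_ref IH hc hS (pos_ch hpos hzt).1 (pos_ch hpos hzt).2
        ((sizeOf_child hzt).trans_le hsz) hz'
      exact ⟨Z, h1, h3, h5, h2⟩)
  have he0 : En.mk l l S ∈ c ++ [En.mk l l S] := by simp
  have hge := hc.ge _ he0
  have hl1 : 1 ≤ l := hge.one_le
  have hlm : l ≤ m := hl _ he0
  have hGS : GS l S := hge.gs_mk
  have hs0 := hs
  rw [En.mk_S] at hs hparts
  have hπ : π ∈ S := by rw [hs]; simp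
  obtain ⟨n', hmn, hn'⟩ := exists_bound m L0
  have hGR : GS n' (N' ++ (s1 ++ s2)) := by
    refine (hND.gs hGS hπ (hlm.trans hmn) (fun z hz d hd => ?_) (fun ρ hρ => (hN' ρ).1 hρ)).append
      (hGS.mono (fun σ hσ => ?_) (hlm.trans hmn))
    · rw [hP z hz d hd]; exact hn' z hz
    · rw [hs]
      rcases List.mem_append.1 hσ with h | h <;> simp [h]
  have hn1 : 1 ≤ n' := hm.trans hmn
  have hb := bS_R_lt hND hs hN' hGS hl1 hGR hn1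
  have hPS := hGS.ps hl1
  have haE : aE (En.mk l l S) = Lam * bS S := aE_stable l S
  have hcl : ∀ u < Lam * bS S, u + Lam < Lam * bS S := fun u hu => hPS.closed hl1 hu
  refine ⟨Zn m n' (N' ++ (s1 ++ s2)), pack hm hmn hc hl hS hGR (fun l' A ζ hh => ?_)
    (h0 := Or.inr ⟨_, he0, rfl, rfl, rfl⟩)
    (fun l' A ζ hh => ⟨(hs_top hc hh).2.1, (hs_top hc hh).2.2.trans hlm⟩) ?_ ?_ ?_ ?_⟩
  · have hu := hs_hull hc hS hh
    exact parts_R hND hs hN' hGS hl1 (hu.up.trans (Om_le_Lam _)) hu.big (hparts l' A ζ hh)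
      (fun z hz => hND.a_hull z hz l' A ζ hh)
      (fun i D z hD hz => (hND.b i D z hD hz).2.2.2.1 l' A ζ hh)
      (fun z hz => (hND.c z hz).2.2.2.1 l' A ζ hh)
  · rw [haE]
    refine hcl _ ?_
    exact (mul_lt_mul_iff_right₀ Lam_pos).2 hb
  · rw [haE]
    intro u hu
    exact ((add_le_add_iff_left u).2 (Order.one_le_iff_pos.2 Lam_pos)).trans_lt (hcl u hu)
  · rw [haE]
    intro _ u hu
    refine lt_trans ?_ (hcl u hu)
    refine (add_lt_add_iff_left u).2 (Lam_principal theta_lt_Lam theta_lt_Lam)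
  · exact cov_R hND hs0 hN' hperm

end Kriz
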