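import Pool.Agent.Work.MP_0f6836_lc.UB.Ref3

/-!
# Upper bound: the refinement theorem, case B
-/

namespace Kriz

open Ordinal

theorem Lam_pr : Pr Lam := ⟨Lam_principal, Lam_pos⟩

/-- the closure of the stable upper entry -/
theorem Hplus {n : ℕ} {S : List Pc} (h : PS n S) (hn : 1 ≤ n) :
    Lam * bS S ∈ C (Lam * bS S + Lam) (Yn n S) ∧ Lam ∈ C (Lam * bS S + Lam) (Yn n S) ∧
    theta (Lam * bS S) (n - 1) ≤ Yn n S := by
  have hv := (h.valid hn).2
  have h1 : Lam * bS S + Lam ∈ C (Lam * bS S + Lam) (Yn n S) := mem_C_theta hv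
  have hY : Yn n S ≤ Lam := (theta_lt_Lam).le
  have h2 := C_split hY Lam_pr (below_self Lam) h1
  refine ⟨h2.1, h2.2, ?_⟩
  exact (theta_lt hv (lt_add_of_pos_right _ Lam_pos) h2.1).le

theorem free_ref_B {N : ℕ} (IH : RefS N) {c : List En} {l n : ℕ} {S : List Pc}
    (hc : GC (c ++ [.mk l n S])) (hS : ∀ e ∈ c ++ [En.mk l n S], e.S ≠ []) (hln : l < n)
    {z : ℕ × KT} (hz1 : 1 ≤ z.1) (hzp : z.2.Pos)
    (hzN : sizeOf z.2 < N) (hz : Mem (st (c ++ [.mk l n S])) z) :
    ∃ Z, IG Z ∧ (∀ l' A ζ, Hs (c ++ [.mk l n S]) l' A ζ → T Z ∈ C A ζ) ∧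
      (∀ c', st (c ++ [.mk l n S]) ⊆ c' → ∀ y, Mem c' y → ¬ Rel z y → Mem (sctx Z c') y) ∧
      ((∀ d ∈ Z.head?, d.l ≤ n) ∧ T Z < Yn n S) := by
  have he0 : En.mk l n S ∈ c ++ [En.mk l n S] := by simp
  have hge := hc.ge _ he0
  have hGS : GS n S := hge.gs_mk
  have hn1 : 1 ≤ n := by have h1 := hge.one_le; have h2 : 1 ≤ l := h1; omega
  have hPS := hGS.ps hn1
  by_cases h1 : z.1 < n
  · obtain ⟨Z, g1, g2, g3, -, g5⟩ := free_ref IH hc hS hz1 hzp hzN hz
    refine ⟨Z, g1, g3, g5, fun d hd => ?_, ?_⟩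
    · rw [g2 d hd]; exact h1.le
    · cases Z with
      | nil => exact absurd rfl g1.ne_nil
      | cons d D =>
        refine g1.T_pr.2.2.trans_le ((Om_le_Om ?_).trans (Yn_pr hPS hn1).2.2.1)
        have := g2 d (by simp)
        omega
  · have h1 : n ≤ z.1 := not_lt.1 h1
    have hheadL : ∀ π ∈ S, ∀ D ∈ π.L, ∃ d ∈ D, d.l ≤ n := by
      intro π hπ D hD
      have hI := hGS.L π hπ D hD
      cases D with
      | nil => exact absurd rfl hI.ne_nil
      | cons d D => exact ⟨d, by simp, hGS.Lb π hπ _ hD d (by simp)⟩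
    have hheadM : ∀ π ∈ S, π.M ≠ [] → ∃ d ∈ π.M, d.l ≤ n := by
      intro π hπ hne
      obtain ⟨d, D, hD⟩ := List.exists_cons_of_ne_nil hne
      exact ⟨d, by rw [hD]; simp, hGS.Mb π hπ d (by rw [hD]; simp)⟩
    have hins : ∀ c' : Set En, st (c ++ [.mk l n S]) ⊆ c' → ∀ y, Mem c' y →
        Mem (insert (.mk n n S) c') y := fun c' hc' y hy =>
      mem_insert (hc' he0) hln.le hheadL hheadM hy
    have hstp : st (c ++ [.mk l n S] ++ [.mk n n S]) =
        insert (En.mk n n S) (st (c ++ [.mk l n S])) := by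
      ext e
      simp only [st, List.mem_append, List.mem_singleton, Set.mem_ofPred_eq,
        Set.mem_insert_iff]
      tauto
    have hcp : GC (c ++ [.mk l n S] ++ [.mk n n S]) :=
      hc.insert hln (by simpa using hS _ he0) (fun e he => hS e (by simp [he]))
    have hSp : ∀ e ∈ c ++ [En.mk l n S] ++ [En.mk n n S], e.S ≠ [] := by
      intro e he
      rcases List.mem_append.1 he with he | he
      · exact hS e he
      · rw [List.mem_singleton] at he
        subst he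
        simpa using hS (En.mk l n S) he0
    have hmem : Mem (st (c ++ [.mk l n S] ++ [.mk n n S])) z := by
      rw [hstp]; exact hins _ (fun e he => he) z hz
    obtain ⟨Z, g1, g2, g3, g4, g5⟩ := free_ref IH hcp hSp hz1 hzp hzN hmem
    have hHs : ∀ l' A ζ, Hs (c ++ [.mk l n S]) l' A ζ →
        Hs (c ++ [.mk l n S] ++ [.mk n n S]) l' A ζ := by
      rintro l' A ζ (hh | ⟨e, he, hh⟩)
      · exact Or.inl hh
      · exact Or.inr ⟨e, List.mem_append.2 (Or.inl he), hh⟩
    have haE : aE (En.mk n n S) = Lam * bS S := aE_stable n S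
    have hinh : inh (Lam * bS S) (theta (Lam * bS S) (n - 1)) (AA Z) := by
      have := g4 n (Lam * bS S) (theta (Lam * bS S) (n - 1))
        (Or.inr ⟨En.mk n n S, by simp, rfl, by rw [haE], by rw [haE]; rfl⟩) h1
      exact this
    obtain ⟨hp1, hp2, hp3⟩ := Hplus hPS hn1
    have hlt : Lam * bS S < Lam * bS S + Lam := lt_add_of_pos_right _ Lam_pos
    have hvY := (hPS.valid hn1).2
    have hTZ : T Z ∈ C (Lam * bS S + Lam) (Yn n S) := by
      cases Z with
      | nil => exact absurd rfl g1.ne_nil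
      | cons d D =>
        exact T_mem_of_inh ⟨C_mono hlt.le hp3 hinh.1, hinh.2.trans hlt⟩
    have hOm : Om (n - 1 + 1) = Om n := by rw [Nat.sub_add_cancel hn1]
    rcases h1.eq_or_lt with h2 | h2
    · refine ⟨Z, g1, fun l' A ζ hh => g3 l' A ζ (hHs _ _ _ hh), fun c' hc' y hy hr => ?_,
        fun d hd => by rw [g2 d hd, h2], ?_⟩
      · refine (g5 (insert (.mk n n S) c') ?_ y (hins c' hc' y hy) hr).mono ?_
        · rw [hstp]; exact Set.insert_subset_insert hc'
        · rintro e (he | ⟨he, he2⟩) -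
          · exact Or.inl he
          · exact Or.inr ⟨Or.inr he, he2⟩
      · refine lt_theta_of_mem hvY hTZ ?_
        rw [hOm]
        cases Z with
        | nil => exact absurd rfl g1.ne_nil
        | cons d D =>
          have := g2 d (by simp)
          rw [h2, ← this]
          exact g1.T_pr.2.2
    · have hZlt : ∀ d ∈ Z, n < d.l := by
        cases Z with
        | nil => exact absurd rfl g1.ne_nil
        | cons d D =>
          have := g2 d (by simp)
          exact (lt_all_iff g1 n).2 (by omega)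
      have hZhead : ∀ d ∈ Z.head?, n < d.l := fun d hd => hZlt d (List.mem_of_mem_head? hd)
      have hIG : IG (En.mk n n S :: Z) := by
        refine IG.of hn1 le_rfl ?_ hGS (fun _ => g1)
          (fun h => absurd h g1.ne_nil) ?_ (fun _ => ?_)
        · rw [haE]; exact (hPS.valid hn1).1
        · intro d hd
          exact ⟨hZhead d hd, fun h => absurd h (lt_irrefl n)⟩
        · rw [haE]; exact hinh
      refine ⟨En.mk n n S :: Z, hIG, ?_, ?_, ?_, ?_⟩
      · intro l' A ζ hh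
        refine T_mem_of_inh ⟨?_, ?_⟩
        · rw [AA_cons]
          exact C.add (hs_top hcp (hHs _ _ _ hh)).1 (g3 l' A ζ (hHs _ _ _ hh))
        · rw [AA_cons, haE]
          refine lt_of_lt_of_le ((add_lt_add_iff_left _).2 g1.T_pr'.2) ?_
          refine le_trans ?_ (hs_top hc hh).2.1
          rw [aE_unstable hln.ne]
          exact (le_max_left _ _).trans le_self_add
      · intro c' hc' y hy hr
        refine (g5 (insert (.mk n n S) c') ?_ y (hins c' hc' y hy) hr).mono ?_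
        · rw [hstp]; exact Set.insert_subset_insert hc'
        · rintro e (he | ⟨he, he2⟩) -
          · rcases List.mem_cons.1 he with rfl | he
            · exact Or.inr ⟨Or.inl rfl, hZlt⟩
            · exact Or.inl he
          · exact Or.inr ⟨Or.inr he, fun d hd => he2 d (List.mem_cons_of_mem _ hd)⟩
      · intro d hd
        simp only [List.head?_cons, Option.mem_def, Option.some.injEq] at hd
        subst hd
        exact le_rfl
      · have h3 : T (En.mk n n S :: Z) ∈ C (Lam * bS S + Lam) (Yn n S) := by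
          refine T_mem_of_inh ⟨?_, ?_⟩
          · rw [AA_cons, haE]; exact C.add hp1 hTZ
          · rw [AA_cons, haE]; exact (add_lt_add_iff_left _).2 g1.T_pr'.2
        refine lt_theta_of_mem hvY h3 ?_
        rw [hOm]
        exact hIG.T_pr.2.2

theorem pN_pr {n : ℕ} (hn : 1 ≤ n) {Y : Ordinal.{0}} (hY : Pr Y ∧ Y < Om n) {σ : Pc}
    (h : ∀ x ∈ prt σ, Pr x ∧ x < Om n) : Pr (pN Y σ) := by
  rw [pN_eq]
  refine G_pr ((nsum_lt ⟨Om_principal n, Om_pos n⟩ ?_).trans (Om_lt_Lam n))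
  intro x hx
  rcases List.mem_append.1 hx with hx | hx
  · rw [(List.mem_replicate.1 hx).2]; exact hY
  · exact h x hx

/-- Case B: the last entry is unstable -/
theorem caseB {N m : ℕ} {t : KT} (IH : RefS N) (hsz : sizeOf t ≤ N) (hpos : t.Pos)
    (hm : 1 ≤ m) {c : List En} {l n : ℕ} {S : List Pc} (hc : GC (c ++ [.mk l n S]))
    (hl : ∀ e ∈ c ++ [En.mk l n S], e.l ≤ m) (hln : l < n) (hmn : m < n)
    (hz : Mem (st (c ++ [.mk l n S])) (m, t)) : ∃ Z, RefOK m t (c ++ [.mk l n S]) Z := by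
  obtain ⟨hS, hparts, π, L0, L2, os, Da, Db, Dc, s1, s2, N', hs, hND, hN', hperm, hP⟩ :=
    core IH hsz hpos hc hl hz (fun z Z => (∀ d ∈ Z.head?, d.l ≤ n) ∧ T Z < Yn n S)
      (fun hS z hzt hz' => free_ref_B IH hc hS hln (pos_ch hpos hzt).1 (pos_ch hpos hzt).2
        ((sizeOf_child hzt).trans_le hsz) hz')
  have he0 : En.mk l n S ∈ c ++ [En.mk l n S] := by simp
  have hge := hc.ge _ he0
  have hl1 : 1 ≤ l := hge.one_le
  have hlm : l ≤ m := hl _ he0
  have hn1 : 1 ≤ n := hm.trans hmn.le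
  have hGS : GS n S := hge.gs_mk
  have hs0 := hs
  rw [En.mk_S] at hs hparts
  have hπ : π ∈ S := by rw [hs]; simp
  have hGR : GS n (N' ++ (s1 ++ s2)) := by
    refine (hND.gs hGS hπ le_rfl (fun z hz d hd => (hP z hz).1 d hd)
      (fun ρ hρ => (hN' ρ).1 hρ)).append (hGS.mono (fun σ hσ => ?_) le_rfl)
    rw [hs]
    rcases List.mem_append.1 hσ with h | h <;> simp [h]
  have hb := bS_R_lt hND hs hN' hGS hn1 hGR hn1
  have hPS := hGS.ps hn1
  have hPR := hGR.ps hn1
  have haE : aE (En.mk l n S) = max (Lam * bS S + Lam) (Nm l (bS S)) + theta (nu n S) n :=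
    aE_unstable hln.ne S
  have hvY := (hPS.valid hn1).2
  have hOm : Om (n - 1 + 1) = Om n := by rw [Nat.sub_add_cancel hn1]
  have hY : Yn n S ≤ Lam := theta_lt_Lam.le
  obtain ⟨hp1, hp2, hp3⟩ := Hplus hPS hn1
  have hALam : Lam ≤ Lam * bS S + Lam := le_add_self
  -- the parts of `S` in the upper closure
  have hSp : ∀ π ∈ S, ∀ x ∈ prt π, x ∈ C (Lam * bS S + Lam) (Yn n S) :=
    hPS.mem_of_bS hn1 hY hALam (mem_of_Lam_mul hY hp1)
  have hltY : ∀ x, x ∈ C (Lam * bS S + Lam) (Yn n S) → x < Om n → x < Yn n S := by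
    intro x h1 h2
    exact lt_theta_of_mem hvY h1 (by rw [hOm]; exact h2)
  have hTlt : ∀ {D : List En}, IG D → (∀ d ∈ D.head?, d.l ≤ n) → T D < Om n := by
    intro D hD h1
    cases D with
    | nil => exact absurd rfl hD.ne_nil
    | cons d D => exact hD.T_pr.2.2.trans_le (Om_le_Om (h1 d (by simp)))
  have hRp : ∀ ρ ∈ N' ++ (s1 ++ s2), ∀ x ∈ prt ρ, x ∈ C (Lam * bS S + Lam) (Yn n S) := by
    refine parts_R hND hs hN' hGS hn1 hY hALam hSp (fun z hz => C.base (hP z hz).2)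
      (fun i D z hD hz => ?_) (fun z hz => ?_)
    · have hDm : D ∈ π.L := List.mem_of_getElem? hD
      have h1 : T D < Yn n S := hltY _
        (hSp π hπ _ (mem_prt.2 (Or.inr (Or.inr ⟨D, hDm, rfl⟩))))
        (hTlt (hGS.L π hπ D hDm) (hGS.Lb π hπ D hDm))
      exact C.base ((hND.b i D z hD hz).2.1.trans h1)
    · have hne := hND.c_ne z hz
      have hMI := hGS.M π hπ hne
      have h2 : T π.M ∈ C (Lam * bS S + Lam) (Yn n S) :=
        (G_mem_iff hMI.T_pr'.2 hY hALam).1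
          (hSp π hπ _ (mem_prt.2 (Or.inr (Or.inl ⟨hne, rfl⟩))))
      have h1 : T π.M < Yn n S := hltY _ h2 (hTlt hMI (hGS.Mb π hπ))
      exact C.base ((hND.c z hz).2.1.trans h1)
  have hbR : Lam * bS (N' ++ (s1 ++ s2)) + Lam ≤ Lam * bS S := by
    rw [← mul_add_one]
    exact mul_le_mul_right (Order.add_one_le_of_lt hb) _
  have hYY : Yn n (N' ++ (s1 ++ s2)) < Yn n S := by
    refine theta_lt hvY (hbR.trans_lt (lt_add_of_pos_right _ Lam_pos)) ?_
    exact C.add (C.mul (hPR.bS_mem hn1 hY hALam hRp)) hp2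
  obtain ⟨hY1, -, -, hY4⟩ := Yn_pr hPS hn1
  obtain ⟨hY1', -, -, hY4'⟩ := Yn_pr hPR hn1
  have hnu : nu n (N' ++ (s1 ++ s2)) < nu n S := by
    rw [hs] at hYY hY1 hY4 hPS ⊢
    refine nu_lt_nu (fun σ hσ => pN_pr hn1 ⟨hY1, hY4⟩ (hPS σ hσ)) (fun σ hσ => ?_)
      (fun σ hσ => ?_)
    · have hσ' : σ ∈ s1 ++ π :: s2 := by
        rcases List.mem_append.1 hσ with h | h <;> simp [h]
      exact ⟨pN_pr hn1 ⟨hY1', hY4'⟩ (hPS σ hσ'),
        pN_mono ⟨hY1, hY4.trans (Om_lt_Lam n)⟩ hY1' (hPS.lam σ hσ') hYY.le⟩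
    · refine ⟨pN_pr hn1 ⟨hY1', hY4'⟩ (hPR σ (List.mem_append.2 (Or.inl hσ))), ?_⟩
      refine hND.pN_lt hGS hn1 hπ ⟨hY1, hY4.trans (Om_lt_Lam n)⟩ hY1' hYY.le
        (fun z hz => ?_) ((hN' σ).1 hσ)
      have := (hP z hz).2
      rw [hs] at this
      exact this
  have hnuS := nu_lt_Om hPS hn1
  have hnS1 : nu n S < Om (n + 1) := hnuS.trans (Om_lt_Om (Nat.lt_succ_self n))
  have hth : theta (nu n (N' ++ (s1 ++ s2))) n < theta (nu n S) n := theta_lt_small hnu hnS1
  have hP0 : IsPrincipal (· + ·) (theta (nu n S) n) := theta_principal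
  have hOmP : Om n ≤ theta (nu n S) n := Om_le_theta (valid_small hnS1)
  have hone : 1 < theta (nu n S) n := by
    have h1 : Om 0 < Om n := Om_lt_Om hn1
    rw [Om_zero] at h1
    exact h1.trans_le hOmP
  have hadd : ∀ {B P u v : Ordinal.{0}}, IsPrincipal (· + ·) P → u < B + P → v < P →
      u + v < B + P := by
    intro B P u v hP hu hv
    by_cases h1 : u < B
    · exact add_lt_add_of_le_of_lt h1.le hv
    · obtain ⟨w, rfl⟩ := exists_add_of_le (not_lt.1 h1)
      rw [add_assoc]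
      exact (add_lt_add_iff_left _).2 (hP ((add_lt_add_iff_left _).1 hu) hv)
  refine ⟨Zn m n (N' ++ (s1 ++ s2)), pack hm hmn.le hc hl hS hGR (fun l' A ζ hh => ?_)
    (h0 := Or.inr ⟨_, he0, rfl, rfl, rfl⟩)
    (fun l' A ζ hh => ⟨(hs_top hc hh).2.1, (hs_top hc hh).2.2.trans hlm⟩) ?_ ?_ ?_ ?_⟩
  · have hu := hs_hull hc hS hh
    exact parts_R hND hs hN' hGS hn1 (hu.up.trans (Om_le_Lam _)) hu.big (hparts l' A ζ hh)
      (fun z hz => hND.a_hull z hz l' A ζ hh)
      (fun i D z hD hz => (hND.b i D z hD hz).2.2.2.1 l' A ζ hh)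
      (fun z hz => (hND.c z hz).2.2.2.1 l' A ζ hh)
  · rw [haE]
    refine (hbR.trans_lt (lt_add_of_pos_right _ Lam_pos)).trans_le ?_
    exact (le_max_left _ _).trans le_self_add
  · rw [haE]
    exact fun u hu => hadd hP0 hu hone
  · rw [haE]
    intro _ u hu
    exact hadd hP0 hu (hP0 hth (hY4'.trans_le hOmP))
  · exact cov_R hND hs0 hN' hperm

end Kriz
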