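import Pool.Agent.Work.MP_0f6836_lc.UB.Ref4

/-!
# Upper bound: the refinement theorem and the maximal order type
-/

namespace Kriz

open Ordinal

theorem mem_empty : ∀ (n : ℕ) (y : ℕ × KT), sizeOf y.2 < n → Mem (st []) y
  | 0, _, h => absurd h (Nat.not_lt_zero _)
  | n + 1, y, h => by
    refine mem_iff.2 ⟨fun y' hy' => ?_, fun e he => absurd he (by simp [st])⟩
    rw [cle_eq (by simp)]
    exact mem_empty n y' ((sizeOf_child hy').trans_le (Nat.lt_succ_iff.1 h))

theorem mem_nil (y : ℕ × KT) : Mem (st []) y := mem_empty _ y (Nat.lt_succ_self _)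

theorem GC_nil : GC [] := ⟨by simp, by simp, by simp⟩

theorem Lam_opow_principal : IsPrincipal (· + ·) (Lam ^ (ω : Ordinal.{0})) :=
  isPrincipal_add_opow_of_isPrincipal_add Lam_principal _

theorem one_lt_Lam : (1 : Ordinal.{0}) < Lam := by
  have := Om_lt_Lam 0
  rwa [Om_zero] at this

theorem Lam_lt_opow : Lam < Lam ^ (ω : Ordinal.{0}) := by
  have := (opow_lt_opow_iff_right (a := Lam) (b := 1) (c := ω) one_lt_Lam).2 one_lt_omega0
  rwa [opow_one] at this

theorem Lam_mul_lt {x : Ordinal.{0}} (h : x < Lam ^ (ω : Ordinal.{0})) :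
    Lam * x < Lam ^ (ω : Ordinal.{0}) := by
  have h1 : Lam * Lam ^ (ω : Ordinal.{0}) = Lam ^ (ω : Ordinal.{0}) := by
    rw [← opow_one_add, one_add_omega0]
  calc Lam * x < Lam * Lam ^ (ω : Ordinal.{0}) := (mul_lt_mul_iff_right₀ Lam_pos).2 h
    _ = _ := h1

theorem hs_nil {l : ℕ} {A ζ : Ordinal.{0}} (h : Hs [] l A ζ) :
    l = 0 ∧ A = Lam ^ (ω : Ordinal.{0}) ∧ ζ = 1 := by
  rcases h with h | ⟨e, he, -⟩
  · exact h
  · simp at he

theorem case0 {N m : ℕ} {t : KT} (IH : RefS N) (hsz : sizeOf t ≤ N) (hpos : t.Pos)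
    (hm : 1 ≤ m) : ∃ Z, RefOK m t [] Z := by
  have h1 : ∀ z : ℕ × KT, ∃ Z, z ∈ t.ch → RefOK z.1 z.2 [] Z := by
    intro z
    by_cases hz : z ∈ t.ch
    · obtain ⟨Z, hZ⟩ := IH z.2 ((sizeOf_child hz).trans_le hsz) (pos_ch hpos hz).2 z.1
        (pos_ch hpos hz).1 [] GC_nil (by simp) (mem_nil _)
      exact ⟨Z, fun _ => hZ⟩
    · exact ⟨[], fun h => absurd h hz⟩
  choose Dc hDc using h1
  obtain ⟨n', hmn, hn'⟩ := exists_bound m t.ch
  have hn1 : 1 ≤ n' := hm.trans hmn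
  set R : List Pc := t.ch.map (fun z => Pc.mk (t.ch.length - 1) [] (Dc z)) with hR
  have hRm : ∀ π ∈ R, ∃ z ∈ t.ch, π = Pc.mk (t.ch.length - 1) [] (Dc z) := by
    intro π hπ
    rw [hR] at hπ
    obtain ⟨z, hz, rfl⟩ := List.mem_map.1 hπ
    exact ⟨z, hz, rfl⟩
  have hGR : GS n' R := by
    refine ⟨?_, ?_, ?_, ?_⟩
    · intro π hπ D hD
      obtain ⟨z, hz, rfl⟩ := hRm π hπ
      simp [Pc.L] at hD
    · intro π hπ D hD
      obtain ⟨z, hz, rfl⟩ := hRm π hπ
      simp [Pc.L] at hD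
    · intro π hπ _
      obtain ⟨z, hz, rfl⟩ := hRm π hπ
      exact (hDc z hz).ig
    · intro π hπ d hd
      obtain ⟨z, hz, rfl⟩ := hRm π hπ
      rw [(hDc z hz).head d hd]
      exact hn' z hz
  have hbot := hull_bot
  have hp : ∀ l A ζ, Hs [] l A ζ → ∀ π ∈ R, ∀ x ∈ prt π, x ∈ C A ζ := by
    intro l A ζ hh π hπ x hx
    obtain ⟨rfl, rfl, rfl⟩ := hs_nil hh
    obtain ⟨z, hz, rfl⟩ := hRm π hπ
    rcases mem_prt.1 hx with rfl | ⟨hM, rfl⟩ | ⟨D, hD, rfl⟩
    · exact one_mem_C (Lam_pos.trans Lam_lt_opow)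
    · have hI := (hDc z hz).ig
      have hinh := (hDc z hz).hull _ _ _ hh
      refine (G_mem_iff hI.T_pr'.2 (hbot.up.trans (Om_le_Lam _)) hbot.big).2 ?_
      cases hD : Dc z with
      | nil => rw [hD] at hI; exact absurd rfl hI.ne_nil
      | cons d D => rw [hD] at hinh; exact T_mem_of_inh hinh
    · simp [Pc.L] at hD
  have hbS := (hGR.ps hn1).bS_lt hn1
  have hLo := Lam_opow_principal
  have hlim : ∀ u < Lam ^ (ω : Ordinal.{0}), u + 1 < Lam ^ (ω : Ordinal.{0}) := fun u hu =>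
    hLo hu (one_lt_Lam.trans Lam_lt_opow)
  refine ⟨Zn m n' R, pack hm hmn GC_nil (by simp) (by simp) hGR hp
    (h0 := Or.inl ⟨rfl, rfl, rfl⟩) (fun l A ζ hh => ?_) ?_ hlim ?_ ?_⟩
  · obtain ⟨rfl, rfl, rfl⟩ := hs_nil hh
    exact ⟨le_rfl, Nat.zero_le _⟩
  · exact hLo (Lam_mul_lt hbS) Lam_lt_opow
  · intro _ u hu
    exact hLo hu ((Lam_principal theta_lt_Lam theta_lt_Lam).trans Lam_lt_opow)
  · intro c' _ s hAt hall _
    obtain ⟨z, hz, hf⟩ := fit_new_nil (Dc := Dc) hall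
      (fun z hz y hy hr => (hDc z hz).cov c' (by intro e he; simp [st] at he) y hy hr)
      (fun z hz => (hDc z hz).ig.ne_nil) hAt
    exact ⟨_, List.mem_map.2 ⟨z, hz, rfl⟩, hf⟩

theorem caseIns {N m : ℕ} {t : KT} (IH : RefS N) (hsz : sizeOf t ≤ N) (hpos : t.Pos)
    (hm : 1 ≤ m) {c : List En} {l n : ℕ} {S : List Pc} (hc : GC (c ++ [.mk l n S]))
    (hl : ∀ e ∈ c ++ [En.mk l n S], e.l ≤ m) (hln : l < n) (hmn : n ≤ m)
    (hz : Mem (st (c ++ [.mk l n S])) (m, t)) : ∃ Z, RefOK m t (c ++ [.mk l n S]) Z := by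
  have he0 : En.mk l n S ∈ c ++ [En.mk l n S] := by simp
  have hge := hc.ge _ he0
  have hGS : GS n S := hge.gs_mk
  obtain ⟨-, g2⟩ := mem_iff.1 hz
  have hS : ∀ e ∈ c ++ [En.mk l n S], e.S ≠ [] := by
    intro e he hne
    obtain ⟨π, hπ, -⟩ := g2 e he (hl e he)
    rw [hne] at hπ
    simp at hπ
  have hheadL : ∀ π ∈ S, ∀ D ∈ π.L, ∃ d ∈ D, d.l ≤ n := by
    intro π hπ D hD
    have hI := hGS.L π hπ D hD
    cases D with
    | nil => exact absurd rfl hI.ne_nil
    | cons d D => exact ⟨d, by simp, hGS.Lb π hπ _ hD d (by simp)⟩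
  have hheadM : ∀ π ∈ S, π.M ≠ [] → ∃ d ∈ π.M, d.l ≤ n := by
    intro π hπ hne
    obtain ⟨d, D, hD⟩ := List.exists_cons_of_ne_nil hne
    exact ⟨d, by rw [hD]; simp, hGS.Mb π hπ d (by rw [hD]; simp)⟩
  have hins : ∀ c' : Set En, st (c ++ [.mk l n S]) ⊆ c' → ∀ y, Mem c' y →
      Mem (insert (.mk n n S) c') y := fun c' hc' y hy =>
    mem_insert (hc' he0) hln.le hheadL hheadM hy
  have hstp : st (c ++ [.mk l n S] ++ [.mk n n S]) =
      insert (En.mk n n S) (st (c ++ [.mk l n S])) := by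
    ext e
    simp only [st, List.mem_append, List.mem_singleton, Set.mem_ofPred_eq,
      Set.mem_insert_iff]
    tauto
  have hcp : GC (c ++ [.mk l n S] ++ [.mk n n S]) :=
    hc.insert hln (by simpa using hS _ he0) (fun e he => hS e (by simp [he]))
  obtain ⟨Z, hZ⟩ := caseA IH hsz hpos hm hcp (fun e he => by
    rcases List.mem_append.1 he with he | he
    · exact hl e he
    · rw [List.mem_singleton] at he
      subst he
      exact hmn) (by rw [hstp]; exact hins _ (fun e he => he) _ hz)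
  refine ⟨Z, hZ.ig, hZ.head, fun l' A ζ hh => hZ.hull l' A ζ ?_, fun c' hc' y hy hr => ?_⟩
  · rcases hh with hh | ⟨e, he, hh⟩
    · exact Or.inl hh
    · exact Or.inr ⟨e, List.mem_append.2 (Or.inl he), hh⟩
  · refine (hZ.cov (insert (.mk n n S) c') ?_ y (hins c' hc' y hy) hr).mono ?_
    · rw [hstp]; exact Set.insert_subset_insert hc'
    · rintro e (he | ⟨he, he2⟩) -
      · exact Or.inl he
      · exact Or.inr ⟨Or.inr he, he2⟩

theorem ref : ∀ N, RefS N
  | 0 => fun _ h => absurd h (Nat.not_lt_zero _)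
  | N + 1 => by
    have IH := ref N
    intro t hsz hpos m hm ctx hc hl hz
    have hsz : sizeOf t ≤ N := Nat.lt_succ_iff.1 hsz
    rcases List.eq_nil_or_concat ctx with rfl | ⟨c, e0, rfl⟩
    · exact case0 IH hsz hpos hm
    · rw [List.concat_eq_append] at *
      obtain ⟨l, n, S, rfl⟩ := e0.eta
      have hle : l ≤ n := (hc.ge (En.mk l n S) (by simp)).le
      rcases hle.eq_or_lt with rfl | hln
      · exact caseA IH hsz hpos hm hc hl hz
      · by_cases hmn : m < n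
        · exact caseB IH hsz hpos hm hc hl hln hmn hz
        · exact caseIns IH hsz hpos hm hc hl hln (not_lt.1 hmn) hz

/-! ## The maximal order type -/

theorem C_one_sub {A x : Ordinal.{0}} (h : x ∈ C A 1) : x ∈ C A 0 := by
  refine C.induct (P := fun x => x ∈ C A 0) C.zero (fun ξ hξ => ?_) (fun a b _ _ ha hb => C.add ha hb)
    (fun a _ ha => C.mul ha) (fun δ w hδ _ ih => C.coll w hδ ih) h
  rw [Order.lt_one_iff] at hξ
  rw [hξ]; exact C.zero

/-- a good chain of level `1` -/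
def Top (D : List En) : Prop := IG D ∧ (∀ d ∈ D.head?, d.l = 1) ∧
  T D ∈ C (Lam ^ (ω : Ordinal.{0})) 1

theorem Top.lt_kappa {D : List En} (h : Top D) : T D < kappa := by
  obtain ⟨h1, h2, h3⟩ := h
  refine Kriz.lt_kappa (C_one_sub h3) ?_
  cases D with
  | nil => exact absurd rfl h1.ne_nil
  | cons d D =>
    have := h2 d (by simp)
    rw [← this]
    exact h1.T_pr.2.2

/-- the first step -/
theorem top_first (t : KT) (ht : t.Pos) : ∃ D, Top D ∧
    ∀ s : KT, ¬ Emb 1 t s → Mem (st D) (1, s) := by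
  obtain ⟨Z, hZ⟩ := ref (sizeOf t + 1) t (Nat.lt_succ_self _) ht 1 le_rfl [] GC_nil (by simp)
    (mem_nil _)
  refine ⟨Z, ⟨hZ.ig, hZ.head, ?_⟩, fun s hs => ?_⟩
  · have hinh := hZ.hull _ _ _ (Or.inl ⟨rfl, rfl, rfl⟩)
    have hI := hZ.ig
    cases Z with
    | nil => exact absurd rfl hI.ne_nil
    | cons d D => exact T_mem_of_inh hinh
  · refine (hZ.cov (st []) (fun _ h => h) (1, s) (mem_nil _) (fun h => hs h.2)).mono ?_
    intro e he _
    exact Or.inl he

/-- all further steps -/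
theorem top_next {D : List En} (hD : Top D) (t : KT) (ht : t.Pos) (hm : Mem (st D) (1, t)) :
    ∃ D', Top D' ∧ T D' < T D ∧
      ∀ s : KT, Mem (st D) (1, s) → ¬ Emb 1 t s → Mem (st D') (1, s) := by
  obtain ⟨h1, h2, h3⟩ := hD
  have hs : ∀ E : List En, sctx E (st []) = st E := by
    intro E; ext e; simp [sctx, st]
  obtain ⟨D', g1, g2, g3, g4, g5⟩ := slot_ref (ref (sizeOf t + 1)) GC_nil (by simp) h1
    (fun l A ζ hh => by obtain ⟨rfl, rfl, rfl⟩ := hs_nil hh; exact h3) (z := (1, t)) le_rfl ht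
    (Nat.lt_succ_self _) (by rw [hs]; exact hm)
  refine ⟨D', ⟨g1, ?_, g4 _ _ _ (Or.inl ⟨rfl, rfl, rfl⟩)⟩, g2, fun s hms hns => ?_⟩
  · intro d' hd'
    cases D with
    | nil => exact absurd rfl h1.ne_nil
    | cons d D =>
      cases D' with
      | nil => exact absurd rfl g1.ne_nil
      | cons d0 D0 =>
        have e1 := g3 d (by simp) d' hd'
        have e2 := h2 d (by simp)
        have e3 := g1.ge.one_le
        simp only [List.head?_cons, Option.mem_def, Option.some.injEq] at hd'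
        subst hd'
        omega
  · have := g5 (st []) (fun _ h => h) (1, s) (by rw [hs]; exact hms) (fun h => hns h.2)
    rwa [hs] at this

/-- sequences in the set of a description -/
theorem le_of_top : ∀ (o : Ordinal.{0}) (D : List En), T D = o → Top D → ∀ (γ : Ordinal.{0})
    (h : {a : Ordinal.{0} // a < γ} → KT), (∀ a, (h a).Pos) → (∀ a, Mem (st D) (1, h a)) →
    (∀ a b, Emb 1 (h a) (h b) → a ≤ b) → γ ≤ o := by
  intro o
  induction o using WellFoundedLT.induction with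
  | ind o ih =>
    intro D hDo hD γ h hpos hmem hrefl
    by_contra hlt
    have hlt : o < γ := not_le.1 hlt
    obtain ⟨D', hD', hlt', hcov⟩ := top_next hD (h ⟨o, hlt⟩) (hpos _) (hmem _)
    have h1 := ih (T D') (hDo ▸ hlt') D' rfl hD' o (fun a => h ⟨a.1, a.2.trans hlt⟩)
      (fun a => hpos _) (fun a => hcov _ (hmem _) (fun hE => ?_))
      (fun a b hE => hrefl _ _ hE)
    · rw [hDo] at hlt'
      exact absurd hlt' (not_lt_of_ge h1)
    · have := hrefl _ _ hE
      exact absurd this (not_le_of_gt a.2)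

/-- **Upper bound** for descriptions of trees. -/
theorem le_kappa_emb {γ : Ordinal.{0}} (h : {a : Ordinal.{0} // a < γ} → KT)
    (hpos : ∀ a, (h a).Pos) (hrefl : ∀ a b, Emb 1 (h a) (h b) → a ≤ b) : γ ≤ kappa := by
  refine le_of_forall_lt fun a ha => ?_
  obtain ⟨D, hD, hcov⟩ := top_first (h ⟨a, ha⟩) (hpos _)
  have h2 := le_of_top (T D) D rfl hD a (fun b => h ⟨b.1, b.2.trans ha⟩) (fun b => hpos _)
    (fun b => hcov _ (fun hE => ?_)) (fun b c hE => hrefl _ _ hE)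
  · exact h2.trans_lt hD.lt_kappa
  · have := hrefl _ _ hE
    exact absurd this (not_le_of_gt b.2)

/-- **Upper bound.** -/
theorem le_kappa {γ : Ordinal.{0}} (g : {a : Ordinal.{0} // a < γ} → LTree)
    (hg : ∀ a b, (g a).Le (g b) → a ≤ b) : γ ≤ kappa := by
  have h1 : ∀ a, ∃ t, (g a).Unf (g a).root t := fun a => LTree.exists_unf _ _
  choose h hh using h1
  exact le_kappa_emb h (fun a => LTree.unf_pos (hh a)) (fun a b hE =>
    hg a b (LTree.le_of_emb (hh a) (hh b) hE))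

/-- good sequences in the set of a description -/
theorem wqo_of_top : ∀ (o : Ordinal.{0}) (D : List En), T D = o → Top D → ∀ (f : ℕ → KT),
    (∀ n, (f n).Pos) → (∀ n, Mem (st D) (1, f n)) → ∃ m n, m < n ∧ Emb 1 (f m) (f n) := by
  intro o
  induction o using WellFoundedLT.induction with
  | ind o ih =>
    intro D hDo hD f hpos hmem
    by_contra hbad
    obtain ⟨D', hD', hlt', hcov⟩ := top_next hD (f 0) (hpos _) (hmem _)
    obtain ⟨m, n, hmn, hE⟩ := ih (T D') (hDo ▸ hlt') D' rfl hD' (fun n => f (n + 1))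
      (fun n => hpos _) (fun n => hcov _ (hmem _) fun hE => hbad ⟨0, n + 1, Nat.succ_pos n, hE⟩)
    exact hbad ⟨m + 1, n + 1, Nat.succ_lt_succ hmn, hE⟩

/-- Kriz's theorem for descriptions. -/
theorem wqo_emb (f : ℕ → KT) (hpos : ∀ n, (f n).Pos) : ∃ m n, m < n ∧ Emb 1 (f m) (f n) := by
  by_contra hbad
  obtain ⟨D, hD, hcov⟩ := top_first (f 0) (hpos 0)
  obtain ⟨m, n, hmn, hE⟩ := wqo_of_top (T D) D rfl hD (fun n => f (n + 1)) (fun n => hpos _)
    (fun n => hcov _ fun hE => hbad ⟨0, n + 1, Nat.succ_pos n, hE⟩)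
  exact hbad ⟨m + 1, n + 1, Nat.succ_lt_succ hmn, hE⟩

/-- Kriz's theorem. -/
theorem wqo (f : ℕ → LTree) : ∃ m n, m < n ∧ (f m).Le (f n) := by
  have h1 : ∀ n, ∃ t, (f n).Unf (f n).root t := fun n => LTree.exists_unf _ _
  choose h hh using h1
  obtain ⟨m, n, hmn, hE⟩ := wqo_emb h (fun n => LTree.unf_pos (hh n))
  exact ⟨m, n, hmn, LTree.le_of_emb (hh m) (hh n) hE⟩

/-- `κ` is the greatest ordinal with a reflecting map into Kriz's quasiordering of finite rooted
trees with edges labelled by positive integers. -/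
theorem main_exact : IsGreatest {γ : Ordinal.{0} | ∃ g : {a : Ordinal.{0} // a < γ} → LTree,
    ∀ a b, (g a).Le (g b) → a ≤ b} kappa :=
  ⟨main, fun _ ⟨g, hg⟩ => le_kappa g hg⟩

end Kriz
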