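import Pool.Agent.Work.MP_0f6836_lc.UB.UDefs

/-!
# Block SP: splitting in `C(A, ζ)`
-/

namespace Kriz

open Ordinal

theorem Pr_iff {π : Ordinal.{0}} : Pr π ↔ ∃ e : Ordinal.{0}, π = ω ^ e := by
  constructor
  · rintro ⟨h1, h2⟩
    rcases isPrincipal_add_iff_zero_or_omega0_opow.1 h1 with h0 | ⟨e, he⟩
    · exact absurd h0 h2.ne'
    · exact ⟨e, he.symm⟩
  · rintro ⟨e, rfl⟩
    exact ⟨isPrincipal_add_omega0_opow _, opow_pos _ omega0_pos⟩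

theorem Pr_Lam : Pr Lam := ⟨Lam_principal, Lam_pos⟩

theorem Pr_mul {π σ : Ordinal.{0}} (hπ : Pr π) (hσ : Pr σ) : Pr (π * σ) := by
  obtain ⟨c, rfl⟩ := Pr_iff.1 hπ
  obtain ⟨e, rfl⟩ := Pr_iff.1 hσ
  rw [← opow_add]
  exact Pr_iff.2 ⟨_, rfl⟩

theorem Pr_Lam_mul {π : Ordinal.{0}} (hπ : Pr π) : Pr (Lam * π) := Pr_mul Pr_Lam hπ

theorem lt_mul_omega_of_below {σ q : Ordinal.{0}} (hσ : Pr σ) (h : Below σ q) :
    q < σ * ω := by
  obtain ⟨e, rfl⟩ := Pr_iff.1 hσ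
  rw [← opow_succ]
  refine h _ (isPrincipal_add_omega0_opow _) ?_
  exact (opow_lt_opow_iff_right one_lt_omega0).2 (Order.lt_succ e)

theorem mul_omega_le {σ ρ : Ordinal.{0}} (hσ : Pr σ) (hρ : IsPrincipal (· + ·) ρ)
    (h : σ < ρ) : σ * ω ≤ ρ := by
  obtain ⟨e, rfl⟩ := Pr_iff.1 hσ
  obtain ⟨f, rfl⟩ := Pr_iff.1 (⟨hρ, pos_of_gt h⟩ : Pr ρ)
  rw [← opow_succ]
  exact (opow_le_opow_iff_right one_lt_omega0).2
    (Order.succ_le_of_lt ((opow_lt_opow_iff_right one_lt_omega0).1 h))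

theorem below_mul {π σ q : Ordinal.{0}} (hπ : Pr π) (hσ : Pr σ) (h : Below σ q) :
    Below (π * σ) (π * q) := by
  intro ρ hρ hlt
  have h1 : π * σ * ω ≤ ρ := mul_omega_le (Pr_mul hπ hσ) hρ hlt
  have h2 : q < σ * ω := lt_mul_omega_of_below hσ h
  have h3 : π * q < π * (σ * ω) := mul_lt_mul_of_pos_left h2 hπ.2
  rw [← mul_assoc] at h3
  exact h3.trans_le h1

theorem below_of_lt {π v : Ordinal.{0}} (h : v < π) : Below π v := fun _ _ hρ => h.trans hρ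

/-- the leading component, all sizes -/
theorem Eset_lead {A ζ x : Ordinal.{0}} (h : Eset A ζ x) :
    ∀ π x', Pr π → Below π x' → x = π + x' → π ∈ C A ζ ∧ x' ∈ C A ζ := by
  induction h with
  | zero =>
    intro π x' hπ _ h
    have : π ≤ 0 := by rw [h]; exact le_self_add
    exact absurd hπ.2 (not_lt_of_ge this)
  | @step a b ha hb ih =>
    intro π x' hπ hx' h
    by_cases h0 : a = 0
    · subst h0
      rw [mul_zero, zero_add] at h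
      obtain ⟨h1, h2⟩ := Bset_lead hb π x' hπ.1 hπ.2 hx' h
      exact ⟨h1.2.2.2.1, h2.mem_C⟩
    · obtain ⟨σ, a', hσ, hσ0, ha', -, he, -, -⟩ := exists_lead h0
      obtain ⟨h1, h2⟩ := ih σ a' ⟨hσ, hσ0⟩ ha' he
      have hLs : Lam ≤ Lam * σ := le_mul_of_one_le_right' (Order.one_le_iff_pos.2 hσ0)
      have h3 : Below (Lam * σ) (Lam * a' + b) :=
        (below_mul Pr_Lam ⟨hσ, hσ0⟩ ha').add ((below_of_lt hb.lt_Lam).mono hLs)
      have h4 : Lam * σ + (Lam * a' + b) = π + x' := by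
        rw [← h, he, mul_add, add_assoc]
      obtain ⟨h5, h6⟩ := lead_unique (Pr_Lam_mul ⟨hσ, hσ0⟩).1 hπ.1 h3 hx' h4
      rw [← h5, ← h6]
      exact ⟨C.mul h1, C.add (C.mul h2) hb.mem_C⟩

theorem lead_mem {A ζ π x : Ordinal.{0}} (hζ : ζ ≤ Lam) (hπ : Pr π) (hx : Below π x)
    (h : π + x ∈ C A ζ) : π ∈ C A ζ ∧ x ∈ C A ζ :=
  Eset_lead (mem_E hζ h) π x hπ hx rfl

/-- `π * q + v` with `v` below `π` (all components of `π * q` are `≥ π`) -/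
theorem C_split {A ζ π q v : Ordinal.{0}} (hζ : ζ ≤ Lam) (hπ : Pr π) (hv : Below π v)
    (h : π * q + v ∈ C A ζ) : π * q ∈ C A ζ ∧ v ∈ C A ζ := by
  induction q using WellFoundedLT.induction with
  | ind q ih =>
    by_cases h0 : q = 0
    · subst h0
      rw [mul_zero, zero_add] at h
      rw [mul_zero]
      exact ⟨C.zero, h⟩
    · obtain ⟨σ, q', hσ, hσ0, hq', -, he, hlt, -⟩ := exists_lead h0
      have hle : π ≤ π * σ := le_mul_of_one_le_right' (Order.one_le_iff_pos.2 hσ0)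
      have h1 : Below (π * σ) (π * q' + v) :=
        (below_mul hπ ⟨hσ, hσ0⟩ hq').add (hv.mono hle)
      have h2 : π * σ + (π * q' + v) ∈ C A ζ := by
        rw [← add_assoc, ← mul_add, ← he]; exact h
      obtain ⟨h3, h4⟩ := lead_mem hζ (Pr_mul hπ ⟨hσ, hσ0⟩) h1 h2
      obtain ⟨h5, h6⟩ := ih q' hlt h4
      refine ⟨?_, h6⟩
      rw [he, mul_add]
      exact C.add h3 h5

theorem ins_mem {A ζ π x : Ordinal.{0}} (hζ : ζ ≤ Lam) (hπ : Pr π) (h1 : π ∈ C A ζ)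
    (h2 : x ∈ C A ζ) : ins π x ∈ C A ζ := by
  have h3 : π * (x / π) + x % π ∈ C A ζ := by rw [div_add_mod]; exact h2
  obtain ⟨h4, h5⟩ := C_split hζ hπ (below_of_lt (mod_lt _ hπ.2.ne')) h3
  unfold ins
  rw [mul_add, mul_one]
  exact C.add (C.add h4 h1) h5

theorem mem_of_ins {A ζ π x : Ordinal.{0}} (hζ : ζ ≤ Lam) (hπ : Pr π)
    (h : ins π x ∈ C A ζ) : π ∈ C A ζ ∧ x ∈ C A ζ := by
  unfold ins at h
  obtain ⟨h1, h2⟩ := C_split hζ hπ (below_of_lt (mod_lt _ hπ.2.ne')) h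
  rw [mul_add, mul_one] at h1
  obtain ⟨h3, h4⟩ := C_split hζ hπ (below_self π) h1
  refine ⟨h4, ?_⟩
  rw [← div_add_mod x π]
  exact C.add h3 h2

theorem nsum_mem {A ζ : Ordinal.{0}} (hζ : ζ ≤ Lam) {P : List Ordinal.{0}}
    (hP : ∀ π ∈ P, Pr π ∧ π ∈ C A ζ) : nsum P ∈ C A ζ := by
  induction P with
  | nil => exact C.zero
  | cons π P ih =>
    have h1 := hP π List.mem_cons_self
    have h2 := ih (fun σ hσ => hP σ (List.mem_cons_of_mem _ hσ))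
    exact ins_mem hζ h1.1 h1.2 h2

theorem mem_of_nsum {A ζ : Ordinal.{0}} (hζ : ζ ≤ Lam) {P : List Ordinal.{0}}
    (hP : ∀ π ∈ P, Pr π) (h : nsum P ∈ C A ζ) : ∀ π ∈ P, π ∈ C A ζ := by
  induction P with
  | nil => intro π hπ; exact absurd hπ List.not_mem_nil
  | cons π P ih =>
    have h1 : ins π (nsum P) ∈ C A ζ := h
    obtain ⟨h2, h3⟩ := mem_of_ins hζ (hP π List.mem_cons_self) h1
    intro σ hσ
    rcases List.mem_cons.1 hσ with h4 | h4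
    · rw [h4]; exact h2
    · exact ih (fun τ hτ => hP τ (List.mem_cons_of_mem _ hτ)) h3 σ h4

/-- the last summand: `y + π + x ∈ C` with `x` below `π` gives `y + π ∈ C` and `π, x ∈ C` -/
theorem C_split_last {A ζ y π x : Ordinal.{0}} (hζ : ζ ≤ Lam) (hπ : Pr π) (hx : Below π x)
    (h : y + π + x ∈ C A ζ) : y + π ∈ C A ζ ∧ π ∈ C A ζ ∧ x ∈ C A ζ := by
  have h1 : y + π = π * (y / π) + π := by
    conv_lhs => rw [← div_add_mod y π]
    rw [add_assoc, hπ.1.add_eq_right_of_le (mod_lt _ hπ.2.ne') le_rfl]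
  rw [h1, add_assoc] at h
  obtain ⟨h2, h3⟩ := C_split hζ hπ ((below_self π).add hx) h
  obtain ⟨h4, h5⟩ := lead_mem hζ hπ hx h3
  rw [h1]
  exact ⟨C.add h2 h4, h4, h5⟩

theorem mem_of_Lam_mul {A ζ a : Ordinal.{0}} (hζ : ζ ≤ Lam) (h : Lam * a ∈ C A ζ) :
    a ∈ C A ζ := by
  have h1 : Lam * a + 0 ∈ C A ζ := by rwa [add_zero]
  exact (S1 hζ Lam_pos h1).1

end Kriz
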