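import Pool.Agent.Work.MP_0f6836_lc.UB.VA

/-!
# The collapsing functions at small arguments (block TM, helper77)
-/

namespace Kriz

open Ordinal

theorem valid_small {v : ℕ} {α : Ordinal.{0}} (h : α < Om (v + 1)) : Valid v α :=
  valid_of_mem (C.base h)

theorem lt_theta_small {v : ℕ} {α : Ordinal.{0}} (h : α < Om (v + 1)) : α < theta α v :=
  lt_theta_of_mem (valid_small h) (mem_C_theta (valid_small h)) h

theorem theta_lt_small {v : ℕ} {α β : Ordinal.{0}} (h : α < β) (hβ : β < Om (v + 1)) :
    theta α v < theta β v :=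
  theta_lt (valid_small hβ) h (C.base (h.trans (lt_theta_small hβ)))

theorem theta_zero_zero : theta 0 0 = 1 := by
  have hv : Valid 0 0 := valid_small (Om_pos _)
  apply le_antisymm
  · rw [theta_eq]
    apply csInf_le'
    refine ⟨le_of_eq Om_zero, ?_, InC.zero, ?_⟩
    · rw [← Om_zero]
      exact Om_lt_Om (by norm_num)
    · intro ξ hξ _
      have hξ' : ξ ∈ C 0 1 := hξ
      have h0 : ξ = 0 := by
        refine C.induct (P := fun ξ => ξ = 0) rfl (fun ξ h => ?_) (fun a b _ _ ha hb => ?_)
          (fun a _ ha => ?_) (fun δ w h _ _ => ?_) hξ'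
        · exact Order.lt_one_iff.1 h
        · rw [ha, hb, add_zero]
        · rw [ha, mul_zero]
        · exact absurd h (by simp)
      rw [h0]
      exact zero_lt_one
  · have := Om_le_theta hv
    rwa [Om_zero] at this

theorem one_lt_theta {v : ℕ} {α : Ordinal.{0}} (h : Valid v α) (h0 : 0 < α) :
    1 < theta α v := by
  rcases Nat.eq_zero_or_pos v with hv | hv
  · subst hv
    have h1 : 1 ≤ theta α 0 := by
      have := Om_le_theta h
      rwa [Om_zero] at this
    refine lt_of_le_of_ne h1 fun h2 => ?_
    have hv0 : Valid 0 0 := valid_small (Om_pos _)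
    have := (theta_inj hv0 h (theta_zero_zero.trans h2)).2
    rw [← this] at h0
    exact lt_irrefl _ h0
  · have h1 : Om 0 < Om v := Om_lt_Om hv
    rw [Om_zero] at h1
    exact h1.trans_le (Om_le_theta h)

end Kriz
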