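import Pool.Agent.Work.MP_0f6836_lc.UB.De
import Pool.Agent.Work.MP_0f6836_lc.UB.TM
import Pool.Agent.Work.MP_0f6836_lc.UB.SP

/-!
# Block SM: `lev`, `G`, small arguments (helper67)
-/

namespace Kriz

open Ordinal

theorem sm_exists_Om {c : Ordinal.{0}} (h : c < Lam) : ∃ w : ℕ, c < Om (w + 1) := by
  unfold Lam at h
  obtain ⟨a, ha, hc⟩ := (isNormal_omega.lt_iff_exists_lt isSuccLimit_omega0).1 h
  obtain ⟨n, rfl⟩ := lt_omega0.1 ha
  refine ⟨n, hc.trans ?_⟩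
  rw [Om_succ]
  exact omega_lt_omega.2 (by exact_mod_cast Nat.lt_succ_self n)

theorem lt_Om_lev {c : Ordinal.{0}} (h : c < Lam) : c < Om (lev c + 1) := by
  obtain ⟨w, hw⟩ := sm_exists_Om h
  exact Nat.sInf_mem (s := {w : ℕ | c < Om (w + 1)}) ⟨w, hw⟩

theorem lev_le {c : Ordinal.{0}} {w : ℕ} (h : c < Om (w + 1)) : lev c ≤ w :=
  Nat.sInf_le (s := {w : ℕ | c < Om (w + 1)}) h

theorem Om_lev_le {c : Ordinal.{0}} (_h : c < Lam) (h0 : lev c ≠ 0) : Om (lev c) ≤ c := by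
  by_contra hlt
  rw [not_le] at hlt
  have h1 : c < Om (lev c - 1 + 1) := by rwa [Nat.sub_add_cancel (Nat.pos_of_ne_zero h0)]
  have := lev_le h1
  omega

theorem G_pr {c : Ordinal.{0}} (h : c < Lam) : Pr (G c) :=
  ⟨theta_principal, theta_pos (valid_small (lt_Om_lev h))⟩

theorem lt_G {c : Ordinal.{0}} (h : c < Lam) : c < G c := lt_theta_small (lt_Om_lev h)

theorem one_lt_G {c : Ordinal.{0}} (h : c < Lam) (h0 : 0 < c) : 1 < G c :=
  one_lt_theta (valid_small (lt_Om_lev h)) h0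

theorem G_lt_Lam (c : Ordinal.{0}) : G c < Lam := theta_lt_Lam

theorem G_lt_G {c d : Ordinal.{0}} (h : c < d) (h' : d < Lam) : G c < G d := by
  have h1 : lev c ≤ lev d := lev_le (h.trans (lt_Om_lev h'))
  rcases h1.lt_or_eq with h2 | h2
  · unfold G
    have h3 : theta c (lev c) < Om (lev c + 1) := theta_lt_Om
    exact h3.trans_le ((Om_le_Om h2).trans (Om_le_theta (valid_small (lt_Om_lev h'))))
  · unfold G
    rw [h2]
    exact theta_lt_small h (lt_Om_lev h')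

theorem G_lt_Om {c : Ordinal.{0}} {w : ℕ} (hw : 1 ≤ w) (h : c < Om w) : G c < Om w := by
  obtain ⟨v, rfl⟩ := Nat.exists_eq_add_of_le' hw
  have h3 : theta c (lev c) < Om (lev c + 1) := theta_lt_Om
  exact h3.trans_le (Om_le_Om (Nat.succ_le_succ (lev_le h)))

theorem theta_small_mem_iff {A ζ ν : Ordinal.{0}} {n : ℕ} (hν : ν < Om (n + 1)) (hζ : ζ ≤ Lam)
    (hA : Lam ≤ A) : theta ν n ∈ C A ζ ↔ ν ∈ C A ζ := by
  constructor
  · intro h
    rcases le_or_gt ζ (theta ν n) with h1 | h1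
    · exact (S3 hζ (valid_small hν) h h1).1
    · exact C.base ((lt_theta_small hν).trans h1)
  · intro h
    exact C.coll n ((hν.trans (Om_lt_Lam _)).trans_le hA) h

theorem G_mem_iff {A ζ c : Ordinal.{0}} (h : c < Lam) (hζ : ζ ≤ Lam) (hA : Lam ≤ A) :
    G c ∈ C A ζ ↔ c ∈ C A ζ := theta_small_mem_iff (lt_Om_lev h) hζ hA

theorem one_mem_C {A ζ : Ordinal.{0}} (hA : 0 < A) : (1 : Ordinal.{0}) ∈ C A ζ := by
  rw [← theta_zero_zero]
  exact C.coll 0 hA C.zero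

end Kriz
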