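import Pool.Agent.Work.MP_0f6836_lc.Off

/-!
# Upper bound: definitions for the ordinal blocks
-/

namespace Kriz

open Ordinal

noncomputable section

/-- natural sum of an additively principal ordinal `π` and `x` -/
def ins (π x : Ordinal.{0}) : Ordinal.{0} := π * (x / π + 1) + x % π

/-- natural sum of a list of additively principal ordinals -/
def nsum (P : List Ordinal.{0}) : Ordinal.{0} := P.foldr ins 0

/-- positive additively principal ordinals -/
def Pr (π : Ordinal.{0}) : Prop := IsPrincipal (· + ·) π ∧ 0 < π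

/-- sums of elements of `G` -/
inductive BG (G : Set Ordinal.{0}) : Ordinal.{0} → Prop
  | zero : BG G 0
  | cons {π b : Ordinal.{0}} : π ∈ G → BG G b → BG G (π + b)

/-- polynomials in `Λ` with coefficients in `BG G` -/
inductive EG (G : Set Ordinal.{0}) : Ordinal.{0} → Prop
  | zero : EG G 0
  | step {a b : Ordinal.{0}} : EG G a → BG G b → EG G (Lam * a + b)

/-- the norm `N_l(x)`: the least `B` with `x ∈ C(B, Ω_l)` -/
def Nm (l : ℕ) (x : Ordinal.{0}) : Ordinal.{0} := sInf {B | x ∈ C B (Om l)}

/-- `z ⊑ y` for branches -/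
def Rel (z y : ℕ × KT) : Prop := z.1 ≤ y.1 ∧ Emb z.1 z.2 y.2

/-- the multiset order on lists of branches: an injection respecting `Rel` -/
def MLe (L M : List (ℕ × KT)) : Prop := ∃ M', M'.Subperm M ∧ List.Forall₂ Rel L M'

end

end Kriz
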